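import Pool.Agent.Work.MP_f2af60_mp.Ev.Stmts2

/-!
# MP_f2af60_mp, project Ev, item Born: the Born approximation in quadratic form
-/

set_option autoImplicit false

namespace Pool.Agent.Work.MP_f2af60_mp.Ev

open MeasureTheory Metric Filter Topology Set

namespace Born

lemma HH_neg (q j : ℕ) (E : ℝ) (x : En q) : HH q j E (-x) = HH q j E x := by
  unfold HH pt
  simp only [norm_neg]

lemma HH_sub_comm (q j : ℕ) (E : ℝ) (x y : En q) : HH q j E (x - y) = HH q j E (y - x) := by
  rw [← HH_neg, neg_sub]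

lemma emb (q : ℕ) (R : ℝ) : MeasurableEmbedding (Subtype.val : Kb q R → En q) :=
  MeasurableEmbedding.subtype_coe measurableSet_closedBall

lemma mapμ (q : ℕ) (R : ℝ) : (muQ q R).map Subtype.val = volume.restrict (Kb q R) := by
  unfold muQ
  rw [(emb q R).map_comap, Subtype.range_coe]

lemma fin (q : ℕ) (R : ℝ) : IsFiniteMeasure (muQ q R) := by
  constructor
  have h : (muQ q R) univ = volume (Kb q R) := by
    unfold muQ
    rw [(emb q R).comap_apply, image_univ, Subtype.range_coe]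
  rw [h]
  exact measure_closedBall_lt_top

lemma intK {q : ℕ} {R : ℝ} (hF : HHFacts) {E : ℝ} (hE : 0 < E) (x : En q) :
    Integrable (fun y : Kb q R => HH q 0 E (x - y)) (muQ q R) ∧
      ∫ y : Kb q R, HH q 0 E (x - y) ∂(muQ q R) ≤ (E ^ (0 + 1))⁻¹ := by
  obtain ⟨h0, hm, hi, hv, -⟩ := (hF q 0).1 E hE
  have h1 : Integrable (fun y : En q => HH q 0 E (x - y)) := hi.comp_sub_left x
  have h2 : Integrable (fun y : En q => HH q 0 E (x - y)) ((muQ q R).map Subtype.val) := by
    rw [mapμ]; exact h1.integrableOn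
  refine ⟨((emb q R).integrable_map_iff).1 h2, ?_⟩
  have h3 : ∫ y : Kb q R, HH q 0 E (x - y) ∂(muQ q R) = ∫ y in Kb q R, HH q 0 E (x - y) := by
    rw [← mapμ, (emb q R).integral_map]
  rw [h3, ← hv, ← integral_sub_left_eq_self (fun y => HH q 0 E y) volume x]
  exact setIntegral_le_integral h1 (Eventually.of_forall fun y => h0 _)

/-- the Schur test by the arithmetic-geometric mean inequality -/
theorem key {X : Type*} [MeasurableSpace X] (μ : Measure X) [IsFiniteMeasure μ] (k : X → X → ℝ)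
    (c M : ℝ) (hk : Measurable (Function.uncurry k)) (h0 : ∀ x y, 0 ≤ k x y)
    (hi : ∀ x, Integrable (k x) μ) (hc : ∀ x, ∫ y, k x y ∂μ ≤ c)
    (hc' : ∀ y, ∫ x, k x y ∂μ ≤ c) (v f h A B : X → ℝ) (hv : Measurable v) (hv0 : ∀ x, 0 ≤ v x)
    (hM : 0 ≤ M) (hvM : ∀ x, v x ≤ M) (hf : Measurable f) (hh : Measurable h) (Cf Ch : ℝ)
    (hfb : ∀ x, |f x| ≤ Cf) (hhb : ∀ x, |h x| ≤ Ch)
    (hA : ∀ x, |A x| ≤ v x * |f x|) (hB : ∀ x, |B x| ≤ v x * |h x|) :
    |∫ x, A x * ∫ y, k x y * B y ∂μ ∂μ| ≤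
      M * c / 2 * (∫ x, v x * f x ^ 2 ∂μ + ∫ x, v x * h x ^ 2 ∂μ) := by
  classical
  -- basic integrability
  have hvf : Measurable (fun x => v x * f x ^ 2) := hv.mul (hf.pow_const 2)
  have hvh : Measurable (fun x => v x * h x ^ 2) := hv.mul (hh.pow_const 2)
  have bd : ∀ (g : X → ℝ) (Cg : ℝ), (∀ x, |g x| ≤ Cg) → ∀ x, |v x * g x ^ 2| ≤ M * Cg ^ 2 := by
    intro g Cg hg x
    have h1 : |g x| ^ 2 ≤ Cg ^ 2 := pow_le_pow_left₀ (abs_nonneg _) (hg x) 2
    rw [abs_mul, abs_of_nonneg (hv0 x), abs_of_nonneg (sq_nonneg (g x)), ← sq_abs]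
    exact mul_le_mul (hvM x) h1 (by positivity) ((hv0 x).trans (hvM x))
  have hvfi : Integrable (fun x => v x * f x ^ 2) μ :=
    Integrable.of_bound hvf.aestronglyMeasurable (M * Cf ^ 2)
      (Eventually.of_forall fun x => bd f Cf hfb x)
  have hvhi : Integrable (fun x => v x * h x ^ 2) μ :=
    Integrable.of_bound hvh.aestronglyMeasurable (M * Ch ^ 2)
      (Eventually.of_forall fun x => bd h Ch hhb x)
  -- the kernel on the product
  have hkp : Integrable (Function.uncurry k) (μ.prod μ) := by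
    rw [integrable_prod_iff hk.aestronglyMeasurable]
    refine ⟨Eventually.of_forall fun x => hi x, ?_⟩
    refine Integrable.of_bound (hk.norm.aestronglyMeasurable.integral_prod_right') c
      (Eventually.of_forall fun x => ?_)
    have h1 : ∫ y, ‖Function.uncurry k (x, y)‖ ∂μ = ∫ y, k x y ∂μ := by
      refine integral_congr_ae (Eventually.of_forall fun y => ?_)
      simp [Function.uncurry, abs_of_nonneg (h0 x y)]
    rw [h1, Real.norm_of_nonneg (integral_nonneg (h0 x))]
    exact hc x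
  have hkg : Integrable (Function.uncurry fun x y => k x y * (v y * h y ^ 2)) (μ.prod μ) := by
    have h1 : Measurable (fun p : X × X => v p.2 * h p.2 ^ 2) := hvh.comp measurable_snd
    have h2 := hkp.mul_bdd (c := M * Ch ^ 2) h1.aestronglyMeasurable
      (Eventually.of_forall fun p => bd h Ch hhb p.2)
    exact h2
  have hkg1 : ∀ x, Integrable (fun y => k x y * (v y * h y ^ 2)) μ := fun x =>
    (hi x).mul_bdd (c := M * Ch ^ 2) hvh.aestronglyMeasurable
      (Eventually.of_forall fun p => bd h Ch hhb p)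
  have hS : ∫ x, ∫ y, k x y * (v y * h y ^ 2) ∂μ ∂μ ≤ c * ∫ y, v y * h y ^ 2 ∂μ := by
    rw [integral_integral_swap hkg, ← integral_const_mul]
    refine integral_mono_ae hkg.integral_prod_right (hvhi.const_mul c)
      (Eventually.of_forall fun y => ?_)
    show ∫ x, k x y * (v y * h y ^ 2) ∂μ ≤ c * (v y * h y ^ 2)
    rw [integral_mul_const]
    exact mul_le_mul_of_nonneg_right (hc' y) (mul_nonneg (hv0 y) (sq_nonneg _))
  -- pointwise bound
  have hpt : ∀ x, ‖A x * ∫ y, k x y * B y ∂μ‖ ≤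
      M * c / 2 * (v x * f x ^ 2) + M / 2 * ∫ y, k x y * (v y * h y ^ 2) ∂μ := by
    intro x
    rw [norm_mul, Real.norm_eq_abs, Real.norm_eq_abs]
    have h1 : |∫ y, k x y * B y ∂μ| ≤ ∫ y, k x y * (v y * |h y|) ∂μ := by
      refine (abs_integral_le_integral_abs).trans ?_
      refine integral_mono_of_nonneg (Eventually.of_forall fun y => abs_nonneg _) ?_
        (Eventually.of_forall fun y => ?_)
      · refine (hi x).mul_bdd (c := M * Ch) (hv.mul hh.norm).aestronglyMeasurable
          (Eventually.of_forall fun y => ?_)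
        rw [Real.norm_eq_abs, abs_mul, abs_of_nonneg (hv0 y), abs_abs]
        exact mul_le_mul (hvM y) (hhb y) (abs_nonneg _) hM
      · show |k x y * B y| ≤ k x y * (v y * |h y|)
        rw [abs_mul, abs_of_nonneg (h0 x y)]
        exact mul_le_mul_of_nonneg_left (hB y) (h0 x y)
    have h2 : 0 ≤ v x * |f x| := mul_nonneg (hv0 x) (abs_nonneg _)
    calc |A x| * |∫ y, k x y * B y ∂μ|
        ≤ (v x * |f x|) * ∫ y, k x y * (v y * |h y|) ∂μ :=
          mul_le_mul (hA x) h1 (abs_nonneg _) h2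
      _ = ∫ y, (v x * |f x|) * (k x y * (v y * |h y|)) ∂μ := by rw [integral_const_mul]
      _ ≤ ∫ y, (M / 2 * (v x * f x ^ 2) * k x y + M / 2 * (k x y * (v y * h y ^ 2))) ∂μ := by
          refine integral_mono_of_nonneg (Eventually.of_forall fun y => ?_)
            (((hi x).const_mul _).add ((hkg1 x).const_mul _)) (Eventually.of_forall fun y => ?_)
          · exact mul_nonneg h2 (mul_nonneg (h0 x y) (mul_nonneg (hv0 y) (abs_nonneg _)))
          · show (v x * |f x|) * (k x y * (v y * |h y|)) ≤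
              M / 2 * (v x * f x ^ 2) * k x y + M / 2 * (k x y * (v y * h y ^ 2))
            have e1 : v x * v y * (2 * |f x| * |h y|) ≤ M * (v x * f x ^ 2 + v y * h y ^ 2) := by
              have e2 : 2 * |f x| * |h y| ≤ |f x| ^ 2 + |h y| ^ 2 := two_mul_le_add_sq _ _
              rw [sq_abs, sq_abs] at e2
              have e3 := mul_le_mul_of_nonneg_left e2 (mul_nonneg (hv0 x) (hv0 y))
              refine e3.trans ?_
              have e4 : v y * (v x * f x ^ 2) ≤ M * (v x * f x ^ 2) :=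
                mul_le_mul_of_nonneg_right (hvM y) (mul_nonneg (hv0 x) (sq_nonneg _))
              have e5 : v x * (v y * h y ^ 2) ≤ M * (v y * h y ^ 2) :=
                mul_le_mul_of_nonneg_right (hvM x) (mul_nonneg (hv0 y) (sq_nonneg _))
              nlinarith [e4, e5]
            have e6 := mul_le_mul_of_nonneg_left e1 (h0 x y)
            nlinarith [e6]
      _ = M / 2 * (v x * f x ^ 2) * ∫ y, k x y ∂μ + M / 2 * ∫ y, k x y * (v y * h y ^ 2) ∂μ := by
          rw [integral_add ((hi x).const_mul _) ((hkg1 x).const_mul _), integral_const_mul,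
            integral_const_mul]
      _ ≤ M * c / 2 * (v x * f x ^ 2) + M / 2 * ∫ y, k x y * (v y * h y ^ 2) ∂μ := by
          have e7 : M / 2 * (v x * f x ^ 2) * ∫ y, k x y ∂μ ≤ M / 2 * (v x * f x ^ 2) * c :=
            mul_le_mul_of_nonneg_left (hc x)
              (mul_nonneg (by linarith) (mul_nonneg (hv0 x) (sq_nonneg _)))
          nlinarith [e7]
  have hint1 : Integrable (fun x => M / 2 * ∫ y, k x y * (v y * h y ^ 2) ∂μ) μ :=
    hkg.integral_prod_left.const_mul _
  have hint0 := hvfi.const_mul (M * c / 2)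
  calc |∫ x, A x * ∫ y, k x y * B y ∂μ ∂μ|
      ≤ ∫ x, (M * c / 2 * (v x * f x ^ 2) + M / 2 * ∫ y, k x y * (v y * h y ^ 2) ∂μ) ∂μ :=
        norm_integral_le_of_norm_le (hint0.add hint1) (Eventually.of_forall hpt)
    _ = M * c / 2 * ∫ x, v x * f x ^ 2 ∂μ + M / 2 * ∫ x, ∫ y, k x y * (v y * h y ^ 2) ∂μ ∂μ := by
        rw [integral_add hint0 hint1, integral_const_mul, integral_const_mul]
    _ ≤ M * c / 2 * (∫ x, v x * f x ^ 2 ∂μ + ∫ x, v x * h x ^ 2 ∂μ) := by
        have e8 := mul_le_mul_of_nonneg_left hS (show 0 ≤ M / 2 by linarith)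
        nlinarith [e8]

end Born

theorem I_Born (hF : HHFacts) : StBorn := by
  intro q V R M hV
  have := Born.fin q R
  have hM : 0 ≤ M := (abs_nonneg _).trans (hV.bdd 0)
  refine ⟨2 * M, 1 + 4 * M, by positivity, by linarith, ?_⟩
  intro t ht u g hug
  have ht1 : 1 ≤ t := by linarith
  have ht0 : 0 < t := by linarith
  have hE : 0 < t ^ 2 := by positivity
  have htM : 4 * M ≤ t ^ 2 := by nlinarith
  set μ := muQ q R with hμ
  set k : Kb q R → Kb q R → ℝ := fun x y => HH q 0 (t ^ 2) ((x : En q) - y) with hkdef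
  obtain ⟨h0, hm, hi, hv, -⟩ := (hF q 0).1 (t ^ 2) hE
  have hk : Measurable (Function.uncurry k) := hm.comp (by fun_prop)
  have hk0 : ∀ x y, 0 ≤ k x y := fun x y => h0 _
  have hki : ∀ x, Integrable (k x) μ := fun x => (Born.intK hF hE (x : En q)).1
  have hkc : ∀ x, ∫ y, k x y ∂μ ≤ (t ^ 2)⁻¹ := fun x => by
    have h := (Born.intK (R := R) hF hE (x : En q)).2
    simpa using h
  have hkc' : ∀ y, ∫ x, k x y ∂μ ≤ (t ^ 2)⁻¹ := fun y => by
    have h := hkc y
    have e : (fun x => k x y) = k y := by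
      funext x
      exact Born.HH_sub_comm q 0 (t ^ 2) _ _
    rw [e]; exact h
  set v : Kb q R → ℝ := fun x => |V x| with hvdef
  have hvm : Measurable v := (hV.meas.comp measurable_subtype_coe).norm
  have hv0 : ∀ x, 0 ≤ v x := fun x => abs_nonneg _
  have hvM : ∀ x, v x ≤ M := fun x => hV.bdd _
  have hgm : Measurable (fun x => g x) := g.continuous.measurable
  have hum : Measurable (fun x => u x) := u.continuous.measurable
  have hVm : Measurable (fun x : Kb q R => V x) := hV.meas.comp measurable_subtype_coe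
  have hgb : ∀ x, |g x| ≤ ‖g‖ := fun x => g.norm_coe_le_norm x
  have hub : ∀ x, |u x| ≤ ‖u‖ := fun x => u.norm_coe_le_norm x
  have hD : ∀ x, u x - g x = ∫ y, k x y * (V y * g y) ∂μ := by
    intro x
    rw [← hug x]
    simp only [add_sub_cancel_left]
    refine integral_congr_ae (Eventually.of_forall fun y => ?_)
    simp only [hkdef]
    ring
  -- integrability of the products
  have hint : ∀ (f h : C(Kb q R, ℝ)), Integrable (fun x : Kb q R => V x * f x * h x) μ := by
    intro f h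
    refine Integrable.of_bound ((hVm.mul f.continuous.measurable).mul
      h.continuous.measurable).aestronglyMeasurable (M * ‖f‖ * ‖h‖)
      (Eventually.of_forall fun x => ?_)
    rw [norm_mul, norm_mul]
    exact mul_le_mul (mul_le_mul (hV.bdd _) (f.norm_coe_le_norm x) (norm_nonneg _) hM)
      (h.norm_coe_le_norm x) (norm_nonneg _) (by positivity)
  have hinta : ∀ (f h : C(Kb q R, ℝ)), Integrable (fun x => v x * f x * h x) μ := by
    intro f h
    refine Integrable.of_bound ((hvm.mul f.continuous.measurable).mul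
      h.continuous.measurable).aestronglyMeasurable (M * ‖f‖ * ‖h‖)
      (Eventually.of_forall fun x => ?_)
    rw [norm_mul, norm_mul]
    refine mul_le_mul (mul_le_mul ?_ (f.norm_coe_le_norm x) (norm_nonneg _) hM)
      (h.norm_coe_le_norm x) (norm_nonneg _) (by positivity)
    rw [Real.norm_eq_abs, abs_of_nonneg (hv0 x)]
    exact hvM x
  set a2 := ∫ x, v x * u x ^ 2 ∂μ with ha2
  set b2 := ∫ x, v x * g x ^ 2 ∂μ with hb2
  have ha0 : 0 ≤ a2 := integral_nonneg fun x => mul_nonneg (hv0 x) (sq_nonneg _)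
  have hb0 : 0 ≤ b2 := integral_nonneg fun x => mul_nonneg (hv0 x) (sq_nonneg _)
  have hBb : ∀ x : Kb q R, |V x * g x| ≤ v x * |g x| := fun x => (abs_mul _ _).le
  -- first application
  have K1 : |∫ x, (v x * g x) * ∫ y, k x y * (V y * g y) ∂μ ∂μ| ≤ M * (t ^ 2)⁻¹ / 2 * (b2 + b2) :=
    Born.key μ k (t ^ 2)⁻¹ M hk hk0 hki hkc hkc' v (fun x => g x) (fun x => g x)
      (fun x => v x * g x) (fun y => V y * g y) hvm hv0 hM hvM hgm hgm ‖g‖ ‖g‖ hgb hgb
      (fun x => by rw [abs_mul, abs_of_nonneg (hv0 x)]) hBb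
  have K2 : |∫ x, (V x * u x) * ∫ y, k x y * (V y * g y) ∂μ ∂μ| ≤ M * (t ^ 2)⁻¹ / 2 * (a2 + b2) :=
    Born.key μ k (t ^ 2)⁻¹ M hk hk0 hki hkc hkc' v (fun x => u x) (fun x => g x)
      (fun x => V x * u x) (fun y => V y * g y) hvm hv0 hM hvM hum hgm ‖u‖ ‖g‖ hub hgb
      (fun x => (abs_mul _ _).le) hBb
  have hMt : M * (t ^ 2)⁻¹ ≤ 1 / 4 := by
    rw [← div_eq_mul_inv, div_le_iff₀ hE]
    linarith
  have hMt0 : 0 ≤ M * (t ^ 2)⁻¹ := by positivity
  -- `b2 ≤ 2 a2`
  have e1 : ∫ x, (v x * g x) * ∫ y, k x y * (V y * g y) ∂μ ∂μ =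
      ∫ x, v x * g x * u x ∂μ - b2 := by
    rw [hb2, ← integral_sub (hinta g u) (by simpa [pow_two, mul_assoc] using hinta g g)]
    refine integral_congr_ae (Eventually.of_forall fun x => ?_)
    simp only [← hD x]
    ring
  have e2 : ∫ x, v x * g x * u x ∂μ ≤ (a2 + b2) / 2 := by
    have hi1 : Integrable (fun x => v x * u x ^ 2) μ := by
      simpa [pow_two, mul_assoc] using hinta u u
    have hi2 : Integrable (fun x => v x * g x ^ 2) μ := by
      simpa [pow_two, mul_assoc] using hinta g g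
    rw [ha2, hb2, ← integral_add hi1 hi2, ← integral_div]
    refine integral_mono (hinta g u) ((hi1.add hi2).div_const 2) fun x => ?_
    show v x * g x * u x ≤ (v x * u x ^ 2 + v x * g x ^ 2) / 2
    nlinarith [mul_nonneg (hv0 x) (sq_nonneg (u x - g x))]
  have hba : b2 ≤ 2 * a2 := by
    have h1 := (abs_le.1 K1).1
    rw [e1] at h1
    have h2 : M * (t ^ 2)⁻¹ / 2 * (b2 + b2) ≤ 1 / 4 * b2 := by nlinarith
    linarith
  -- conclusion
  have e3 : ∫ x, (V x * u x) * ∫ y, k x y * (V y * g y) ∂μ ∂μ =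
      -(∫ x, V x * u x * g x ∂μ - ∫ x, V x * u x ^ 2 ∂μ) := by
    rw [← integral_sub (hint u g) (by simpa [pow_two, mul_assoc] using hint u u), ← integral_neg]
    refine integral_congr_ae (Eventually.of_forall fun x => ?_)
    simp only [← hD x]
    ring
  rw [e3, abs_neg] at K2
  refine K2.trans ?_
  have h3 : M * (t ^ 2)⁻¹ / 2 * (a2 + b2) ≤ M * (t ^ 2)⁻¹ / 2 * (4 * a2) :=
    mul_le_mul_of_nonneg_left (by linarith) (by positivity)
  refine h3.trans (le_of_eq ?_)
  rw [ha2]
  ring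

end Pool.Agent.Work.MP_f2af60_mp.Ev
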