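import Pool.Agent.Work.MP_f2af60_mp.Ev.Stmts

/-!
# MP_f2af60_mp, project Ev: the conjugated resolvent bound
-/

set_option autoImplicit false

namespace Pool.Agent.Work.MP_f2af60_mp.Ev

open MeasureTheory Metric Filter Topology Set

namespace Conj

instance fin (q : ℕ) (R : ℝ) : IsFiniteMeasure (muQ q R) := by
  constructor
  have hemb := MeasurableEmbedding.subtype_coe
    (measurableSet_closedBall (x := (0 : En q)) (ε := R))
  rw [muQ, hemb.comap_apply, image_univ, Subtype.range_coe]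
  exact measure_closedBall_lt_top

lemma lint (q : ℕ) (R : ℝ) (f : En q → ENNReal) :
    ∫⁻ y : Kb q R, f y ∂(muQ q R) = ∫⁻ y in closedBall (0 : En q) R, f y :=
  lintegral_subtype_comap measurableSet_closedBall f

lemma nsq (q : ℕ) (w : Sp q) (z : En q) (a : ℝ) :
    ‖z + a • (w : En q)‖ ^ 2 = ‖z‖ ^ 2 + 2 * a * inner ℝ (w : En q) z + a ^ 2 := by
  rw [norm_add_sq_real, inner_smul_right, norm_smul, mem_sphere_zero_iff_norm.1 w.2,
    real_inner_comm, mul_one, Real.norm_eq_abs, sq_abs]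
  ring

lemma shift (q : ℕ) (t s : ℝ) (hs : 0 < s) (w : Sp q) (x y : En q) :
    Real.exp (-(t ^ 2 * s)) * pt q s (x - y) * ex t w y =
      ex t w x * pt q s (x + (2 * t * s) • (w : En q) - y) := by
  have h1 : x + (2 * t * s) • (w : En q) - y = (x - y) + (2 * t * s) • (w : En q) := by abel
  have h2 := nsq q w (x - y) (2 * t * s)
  have h3 : inner ℝ (w : En q) (x - y) = inner ℝ (w : En q) x - inner ℝ (w : En q) y :=
    inner_sub_right _ _ _
  rw [h1]
  simp only [pt, ex]
  rw [h2, h3]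
  have h4 : Real.exp (-(t ^ 2 * s)) * Real.exp (-(‖x - y‖ ^ 2 / (4 * s))) *
      Real.exp (t * inner ℝ (w : En q) y) = Real.exp (t * inner ℝ (w : En q) x) *
      Real.exp (-((‖x - y‖ ^ 2 + 2 * (2 * t * s) *
        (inner ℝ (w : En q) x - inner ℝ (w : En q) y) + (2 * t * s) ^ 2) / (4 * s))) := by
    rw [← Real.exp_add, ← Real.exp_add, ← Real.exp_add]
    congr 1
    field_simp
    ring
  linear_combination ((4 * Real.pi * s) ^ (-((q : ℝ) + 3 / 2))) * h4

lemma mass (h1 : PtFacts) (q : ℕ) (R s : ℝ) (hs : 0 < s) (a : En q) :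
    ∫⁻ y : Kb q R, ENNReal.ofReal (pt q s (a - y)) ∂(muQ q R) ≤ 1 := by
  rw [lint q R (fun y => ENNReal.ofReal (pt q s (a - y)))]
  calc ∫⁻ y in closedBall (0 : En q) R, ENNReal.ofReal (pt q s (a - y))
      ≤ ∫⁻ y, ENNReal.ofReal (pt q s (a - y)) := setLIntegral_le_lintegral _ _
    _ = ∫⁻ y, ENNReal.ofReal (pt q s y) :=
        lintegral_sub_left_eq_self (fun y => ENNReal.ofReal (pt q s y)) a
    _ = ENNReal.ofReal (∫ y, pt q s y) := by
        rw [ofReal_integral_eq_lintegral_ofReal ((h1 q).2.2.2.1 s hs).1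
          (Eventually.of_forall fun y => ((h1 q).1 s hs y).le)]
    _ ≤ 1 := by rw [((h1 q).2.2.2.1 s hs).2, ENNReal.ofReal_one]

/-- the constant of the tail bound -/
noncomputable def c1 (q : ℕ) (R : ℝ) : ℝ := (1 + 1 / (8 * Real.pi * R)) ^ (q + 2)

lemma c1_nonneg (q : ℕ) (R : ℝ) (hR : 0 < R) : 0 ≤ c1 q R := by
  unfold c1; positivity

lemma base (q : ℕ) (R t s : ℝ) (hR : 0 < R) (ht : 1 ≤ t) (hs : 2 * R / t < s) :
    (4 * Real.pi * s) ^ (-((q : ℝ) + 3 / 2)) ≤ c1 q R * t ^ (q + 2) := by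
  have hpi := Real.pi_pos
  have ht0 : 0 < t := by linarith
  have hb : 0 < 8 * Real.pi * R / t := by positivity
  have hs0 : 0 < s := lt_trans (by positivity) hs
  have h1 : 8 * Real.pi * R / t ≤ 4 * Real.pi * s := by
    have : 4 * Real.pi * (2 * R / t) ≤ 4 * Real.pi * s :=
      mul_le_mul_of_nonneg_left hs.le (by positivity)
    calc 8 * Real.pi * R / t = 4 * Real.pi * (2 * R / t) := by ring
      _ ≤ _ := this
  have hq : (0 : ℝ) ≤ (q : ℝ) + 3 / 2 := by positivity
  have h2 : (4 * Real.pi * s) ^ (-((q : ℝ) + 3 / 2)) ≤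
      (8 * Real.pi * R / t) ^ (-((q : ℝ) + 3 / 2)) := by
    rw [Real.rpow_neg (by positivity), Real.rpow_neg hb.le]
    exact inv_anti₀ (Real.rpow_pos_of_pos hb _) (Real.rpow_le_rpow hb.le h1 hq)
  have h3 : (8 * Real.pi * R / t) ^ (-((q : ℝ) + 3 / 2)) =
      (1 / (8 * Real.pi * R) * t) ^ ((q : ℝ) + 3 / 2) := by
    rw [Real.rpow_neg hb.le, ← Real.inv_rpow hb.le]
    congr 1
    field_simp
  have hA : 0 ≤ 1 / (8 * Real.pi * R) := by positivity
  have h4 : 1 / (8 * Real.pi * R) * t ≤ (1 + 1 / (8 * Real.pi * R)) * t := by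
    apply mul_le_mul_of_nonneg_right _ ht0.le
    linarith
  have h5 : 1 ≤ (1 + 1 / (8 * Real.pi * R)) * t := by
    calc (1 : ℝ) = 1 * 1 := by ring
      _ ≤ (1 + 1 / (8 * Real.pi * R)) * t :=
        mul_le_mul (by linarith) ht zero_le_one (by linarith)
  calc (4 * Real.pi * s) ^ (-((q : ℝ) + 3 / 2))
      ≤ (1 / (8 * Real.pi * R) * t) ^ ((q : ℝ) + 3 / 2) := h2.trans h3.le
    _ ≤ ((1 + 1 / (8 * Real.pi * R)) * t) ^ ((q : ℝ) + 3 / 2) :=
        Real.rpow_le_rpow (by positivity) h4 hq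
    _ ≤ ((1 + 1 / (8 * Real.pi * R)) * t) ^ (((q + 2 : ℕ)) : ℝ) := by
        apply Real.rpow_le_rpow_of_exponent_le h5
        push_cast
        linarith
    _ = ((1 + 1 / (8 * Real.pi * R)) * t) ^ (q + 2) := Real.rpow_natCast _ _
    _ = c1 q R * t ^ (q + 2) := by rw [mul_pow, c1]

lemma tailpt (q : ℕ) (R t s : ℝ) (hR : 0 < R) (ht : 1 ≤ t) (hs : 2 * R / t < s) (w : Sp q)
    (x y : En q) (hx : ‖x‖ ≤ R) (hy : ‖y‖ ≤ R) :
    pt q s (x + (2 * t * s) • (w : En q) - y) ≤
      c1 q R * t ^ (q + 2) * Real.exp (-(t ^ 2 / 4) * s) := by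
  have ht0 : 0 < t := by linarith
  have hs0 : 0 < s := lt_trans (by positivity) hs
  have hts : 2 * R < t * s := by
    rw [div_lt_iff₀ ht0] at hs
    linarith
  have hn : t * s ≤ ‖x + (2 * t * s) • (w : En q) - y‖ := by
    have e0 : ‖(w : En q)‖ = 1 := mem_sphere_zero_iff_norm.1 w.2
    have e1 : ‖(2 * t * s) • (w : En q)‖ = 2 * t * s := by
      rw [norm_smul, e0, mul_one, Real.norm_eq_abs, abs_of_pos (by positivity)]
    have e2 : (2 * t * s) • (w : En q) = (x + (2 * t * s) • (w : En q) - y) + (y - x) := by abel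
    have e3 : 2 * t * s ≤ ‖x + (2 * t * s) • (w : En q) - y‖ + ‖y - x‖ := by
      calc 2 * t * s = ‖(2 * t * s) • (w : En q)‖ := e1.symm
        _ = ‖(x + (2 * t * s) • (w : En q) - y) + (y - x)‖ := congrArg norm e2
        _ ≤ _ := norm_add_le _ _
    have e4 : ‖y - x‖ ≤ ‖y‖ + ‖x‖ := norm_sub_le _ _
    nlinarith
  have hexp : Real.exp (-(‖x + (2 * t * s) • (w : En q) - y‖ ^ 2 / (4 * s))) ≤
      Real.exp (-(t ^ 2 / 4) * s) := by
    apply Real.exp_le_exp.2
    have h1 : (t * s) ^ 2 ≤ ‖x + (2 * t * s) • (w : En q) - y‖ ^ 2 :=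
      pow_le_pow_left₀ (by positivity) hn 2
    have h2 : (t * s) ^ 2 / (4 * s) ≤
        ‖x + (2 * t * s) • (w : En q) - y‖ ^ 2 / (4 * s) :=
      div_le_div_of_nonneg_right h1 (by positivity)
    have h3 : (t * s) ^ 2 / (4 * s) = t ^ 2 / 4 * s := by
      field_simp
    linarith
  unfold pt
  exact mul_le_mul (base q R t s hR ht hs) hexp (Real.exp_pos _).le
    (mul_nonneg (c1_nonneg q R hR) (by positivity))

/-- the volume of the ball -/
noncomputable def vb (q : ℕ) (R : ℝ) : ℝ := (volume (closedBall (0 : En q) R)).toReal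

lemma vb_nonneg (q : ℕ) (R : ℝ) : 0 ≤ vb q R := ENNReal.toReal_nonneg

lemma tail (q : ℕ) (R t s : ℝ) (hR : 0 < R) (ht : 1 ≤ t) (hs : 2 * R / t < s) (w : Sp q)
    (x : En q) (hx : ‖x‖ ≤ R) :
    ∫⁻ y : Kb q R, ENNReal.ofReal (pt q s (x + (2 * t * s) • (w : En q) - y)) ∂(muQ q R) ≤
      ENNReal.ofReal (vb q R * (c1 q R * t ^ (q + 2)) * Real.exp (-(t ^ 2 / 4) * s)) := by
  rw [lint q R (fun y => ENNReal.ofReal (pt q s (x + (2 * t * s) • (w : En q) - y)))]
  have h0 : 0 ≤ c1 q R * t ^ (q + 2) * Real.exp (-(t ^ 2 / 4) * s) := by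
    have := c1_nonneg q R hR
    positivity
  calc ∫⁻ y in closedBall (0 : En q) R,
        ENNReal.ofReal (pt q s (x + (2 * t * s) • (w : En q) - y))
      ≤ ∫⁻ _y in closedBall (0 : En q) R,
        ENNReal.ofReal (c1 q R * t ^ (q + 2) * Real.exp (-(t ^ 2 / 4) * s)) := by
        apply setLIntegral_mono' measurableSet_closedBall
        intro y hy
        apply ENNReal.ofReal_le_ofReal
        exact tailpt q R t s hR ht hs w x y hx (mem_closedBall_zero_iff.1 hy)
    _ = ENNReal.ofReal (c1 q R * t ^ (q + 2) * Real.exp (-(t ^ 2 / 4) * s)) *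
        volume (closedBall (0 : En q) R) := by
        rw [setLIntegral_const]
    _ = ENNReal.ofReal (vb q R * (c1 q R * t ^ (q + 2)) * Real.exp (-(t ^ 2 / 4) * s)) := by
        rw [← ENNReal.ofReal_toReal (a := volume (closedBall (0 : En q) R))
          measure_closedBall_lt_top.ne, ← ENNReal.ofReal_mul h0]
        congr 1
        unfold vb
        ring

/-- the constant -/
noncomputable def CC (q : ℕ) (R : ℝ) : ℝ :=
  2 * R + vb q R * c1 q R * 4 * ((q + 2).factorial * (2 / R) ^ (q + 2))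

lemma CC_nonneg (q : ℕ) (R : ℝ) (hR : 0 < R) : 0 ≤ CC q R := by
  have h1 := c1_nonneg q R hR
  have h2 := vb_nonneg q R
  unfold CC
  positivity

lemma powexp (k : ℕ) (R t : ℝ) (hR : 0 < R) (ht : 0 ≤ t) :
    t ^ k * Real.exp (-(t * R / 2)) ≤ k.factorial * (2 / R) ^ k := by
  have h1 := Real.pow_div_factorial_le_exp (x := t * R / 2) (by positivity) k
  have hk : (0 : ℝ) < k.factorial := by exact_mod_cast Nat.factorial_pos k
  rw [div_le_iff₀ hk] at h1
  have h2 : t ^ k = (t * R / 2) ^ k * (2 / R) ^ k := by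
    rw [← mul_pow]
    congr 1
    field_simp
  rw [h2, Real.exp_neg]
  have he := Real.exp_pos (t * R / 2)
  rw [← div_eq_mul_inv, div_le_iff₀ he]
  calc (t * R / 2) ^ k * (2 / R) ^ k ≤ (Real.exp (t * R / 2) * k.factorial) * (2 / R) ^ k :=
        mul_le_mul_of_nonneg_right h1 (by positivity)
    _ = k.factorial * (2 / R) ^ k * Real.exp (t * R / 2) := by ring

lemma intS (h1 : PtFacts) (q : ℕ) (R t : ℝ) (hR : 0 < R) (ht : 1 ≤ t) (w : Sp q) (x : En q)
    (hx : ‖x‖ ≤ R) :
    ∫⁻ s in Ioi (0 : ℝ), ∫⁻ y : Kb q R,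
      ENNReal.ofReal (pt q s (x + (2 * t * s) • (w : En q) - y)) ∂(muQ q R) ≤
      ENNReal.ofReal (CC q R / t) := by
  have ht0 : 0 < t := by linarith
  have hb : 0 < 2 * R / t := by positivity
  set A : ℝ := vb q R * (c1 q R * t ^ (q + 2)) with hA
  have hA0 : 0 ≤ A := by
    have h1 := c1_nonneg q R hR
    have h2 := vb_nonneg q R
    positivity
  have hc : -(t ^ 2 / 4) < 0 := by
    have : 0 < t ^ 2 := by positivity
    linarith
  have hsub : Ioi (0 : ℝ) ⊆ Ioc 0 (2 * R / t) ∪ Ioi (2 * R / t) := by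
    intro s hs
    rcases le_or_gt s (2 * R / t) with h | h
    · exact Or.inl ⟨hs, h⟩
    · exact Or.inr h
  have hI1 : ∫⁻ s in Ioc (0 : ℝ) (2 * R / t), ∫⁻ y : Kb q R,
      ENNReal.ofReal (pt q s (x + (2 * t * s) • (w : En q) - y)) ∂(muQ q R) ≤
      ENNReal.ofReal (2 * R / t) := by
    calc _ ≤ ∫⁻ _s in Ioc (0 : ℝ) (2 * R / t), (1 : ENNReal) := by
          apply setLIntegral_mono' measurableSet_Ioc
          intro s hs
          exact mass h1 q R s hs.1 _
      _ = ENNReal.ofReal (2 * R / t) := by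
          rw [setLIntegral_one, Real.volume_Ioc, sub_zero]
  have hI2 : ∫⁻ s in Ioi (2 * R / t), ∫⁻ y : Kb q R,
      ENNReal.ofReal (pt q s (x + (2 * t * s) • (w : En q) - y)) ∂(muQ q R) ≤
      ENNReal.ofReal (A * (4 / t ^ 2) * Real.exp (-(t * R / 2))) := by
    calc _ ≤ ∫⁻ s in Ioi (2 * R / t), ENNReal.ofReal (A * Real.exp (-(t ^ 2 / 4) * s)) := by
          apply setLIntegral_mono' measurableSet_Ioi
          intro s hs
          exact tail q R t s hR ht hs w x hx
      _ = ENNReal.ofReal (∫ s in Ioi (2 * R / t), A * Real.exp (-(t ^ 2 / 4) * s)) := by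
          rw [ofReal_integral_eq_lintegral_ofReal
            ((integrableOn_exp_mul_Ioi hc _).const_mul A)
            (Eventually.of_forall fun s => mul_nonneg hA0 (Real.exp_pos _).le)]
      _ = ENNReal.ofReal (A * (4 / t ^ 2) * Real.exp (-(t * R / 2))) := by
          rw [integral_const_mul, integral_exp_mul_Ioi hc]
          congr 1
          have e1 : -(t ^ 2 / 4) * (2 * R / t) = -(t * R / 2) := by
            field_simp
            ring
          rw [e1]
          field_simp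
  calc _ ≤ ∫⁻ s in Ioc (0 : ℝ) (2 * R / t) ∪ Ioi (2 * R / t), ∫⁻ y : Kb q R,
        ENNReal.ofReal (pt q s (x + (2 * t * s) • (w : En q) - y)) ∂(muQ q R) :=
        lintegral_mono_set hsub
    _ ≤ ENNReal.ofReal (2 * R / t) +
        ENNReal.ofReal (A * (4 / t ^ 2) * Real.exp (-(t * R / 2))) :=
        (lintegral_union_le _ _ _).trans (add_le_add hI1 hI2)
    _ = ENNReal.ofReal (2 * R / t + A * (4 / t ^ 2) * Real.exp (-(t * R / 2))) := by
        rw [ENNReal.ofReal_add hb.le (by positivity)]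
    _ ≤ ENNReal.ofReal (CC q R / t) := by
        apply ENNReal.ofReal_le_ofReal
        have hp := powexp (q + 2) R t hR ht0.le
        have h2 := vb_nonneg q R
        have h3 := c1_nonneg q R hR
        have e1 : A * (4 / t ^ 2) * Real.exp (-(t * R / 2)) =
            vb q R * c1 q R * 4 * (t ^ (q + 2) * Real.exp (-(t * R / 2))) * (1 / t ^ 2) := by
          rw [hA]; ring
        have e2 : vb q R * c1 q R * 4 * (t ^ (q + 2) * Real.exp (-(t * R / 2))) ≤
            vb q R * c1 q R * 4 * ((q + 2).factorial * (2 / R) ^ (q + 2)) :=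
          mul_le_mul_of_nonneg_left hp (by positivity)
        have e3 : 1 / t ^ 2 ≤ 1 / t := by
          apply one_div_le_one_div_of_le ht0
          calc t = t * 1 := by ring
            _ ≤ t * t := mul_le_mul_of_nonneg_left ht ht0.le
            _ = t ^ 2 := by ring
        have e4 : vb q R * c1 q R * 4 * (t ^ (q + 2) * Real.exp (-(t * R / 2))) * (1 / t ^ 2) ≤
            vb q R * c1 q R * 4 * ((q + 2).factorial * (2 / R) ^ (q + 2)) * (1 / t) :=
          mul_le_mul e2 e3 (by positivity) (by positivity)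
        rw [e1, CC, add_div]
        have e5 : vb q R * c1 q R * 4 * ((q + 2).factorial * (2 / R) ^ (q + 2)) * (1 / t) =
            vb q R * c1 q R * 4 * ((q + 2).factorial * (2 / R) ^ (q + 2)) / t := by ring
        rw [e5] at e4
        linarith

lemma hh_le (h1 : PtFacts) (q : ℕ) (E : ℝ) (z : En q) :
    ENNReal.ofReal (HH q 0 E z) ≤
      ∫⁻ s in Ioi (0 : ℝ), ENNReal.ofReal (Real.exp (-(E * s)) * pt q s z) := by
  have e : HH q 0 E z = ∫ s in Ioi (0 : ℝ), Real.exp (-(E * s)) * pt q s z := by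
    unfold HH
    congr 1
    funext s
    simp
  rw [e]
  by_cases hi : Integrable (fun s => Real.exp (-(E * s)) * pt q s z)
      (volume.restrict (Ioi (0 : ℝ)))
  · rw [ofReal_integral_eq_lintegral_ofReal hi]
    filter_upwards [ae_restrict_mem measurableSet_Ioi] with s hs
    exact mul_nonneg (Real.exp_pos _).le ((h1 q).1 s hs z).le
  · rw [integral_undef hi, ENNReal.ofReal_zero]
    exact bot_le

lemma ex_pos (q : ℕ) (t : ℝ) (w : Sp q) (x : En q) : 0 < ex t w x := Real.exp_pos _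

lemma ex_meas (q : ℕ) (t : ℝ) (w : Sp q) : Measurable (fun x : En q => ex t w x) := by
  unfold ex
  fun_prop

lemma total (h1 : PtFacts) (q : ℕ) (R t : ℝ) (hR : 0 < R) (ht : 1 ≤ t) (w : Sp q) (x : En q)
    (hx : ‖x‖ ≤ R) :
    ∫⁻ y : Kb q R, ENNReal.ofReal (HH q 0 (t ^ 2) (x - y) * ex t w y) ∂(muQ q R) ≤
      ENNReal.ofReal (CC q R / t * ex t w x) := by
  have hm0 : Measurable (fun p : Kb q R × ℝ => pt q p.2 (x - (p.1 : En q))) := by
    have h := (h1 q).2.2.1
    have h' : (fun p : Kb q R × ℝ => pt q p.2 (x - (p.1 : En q))) =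
        (Function.uncurry (pt q)) ∘ (fun p : Kb q R × ℝ => (p.2, x - (p.1 : En q))) := rfl
    rw [h']
    exact h.comp (by fun_prop)
  have hm : Measurable (Function.uncurry fun (y : Kb q R) (s : ℝ) =>
      ENNReal.ofReal (Real.exp (-(t ^ 2 * s)) * pt q s (x - (y : En q)) * ex t w y)) := by
    apply ENNReal.measurable_ofReal.comp
    apply Measurable.mul
    · exact Measurable.mul (by fun_prop) hm0
    · exact (ex_meas q t w).comp (measurable_subtype_coe.comp measurable_fst)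
  calc ∫⁻ y : Kb q R, ENNReal.ofReal (HH q 0 (t ^ 2) (x - y) * ex t w y) ∂(muQ q R)
      ≤ ∫⁻ y : Kb q R, (∫⁻ s in Ioi (0 : ℝ), ENNReal.ofReal
          (Real.exp (-(t ^ 2 * s)) * pt q s (x - (y : En q)) * ex t w y)) ∂(muQ q R) := by
        apply lintegral_mono
        intro y
        have hy := (ex_pos q t w (y : En q)).le
        calc ENNReal.ofReal (HH q 0 (t ^ 2) (x - y) * ex t w y)
            = ENNReal.ofReal (HH q 0 (t ^ 2) (x - y)) * ENNReal.ofReal (ex t w y) :=
              ENNReal.ofReal_mul' hy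
          _ ≤ (∫⁻ s in Ioi (0 : ℝ), ENNReal.ofReal
              (Real.exp (-(t ^ 2 * s)) * pt q s (x - (y : En q)))) *
                ENNReal.ofReal (ex t w y) := mul_le_mul_left (hh_le h1 q _ _) _
          _ = ∫⁻ s in Ioi (0 : ℝ), ENNReal.ofReal
              (Real.exp (-(t ^ 2 * s)) * pt q s (x - (y : En q))) *
                ENNReal.ofReal (ex t w y) := by
              rw [lintegral_mul_const' _ _ ENNReal.ofReal_ne_top]
          _ = _ := by
              congr 1
              funext s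
              rw [← ENNReal.ofReal_mul' hy]
    _ = ∫⁻ s in Ioi (0 : ℝ), ∫⁻ y : Kb q R, ENNReal.ofReal
          (Real.exp (-(t ^ 2 * s)) * pt q s (x - (y : En q)) * ex t w y) ∂(muQ q R) :=
        lintegral_lintegral_swap hm.aemeasurable
    _ = ∫⁻ s in Ioi (0 : ℝ), ENNReal.ofReal (ex t w x) * ∫⁻ y : Kb q R, ENNReal.ofReal
          (pt q s (x + (2 * t * s) • (w : En q) - y)) ∂(muQ q R) := by
        apply setLIntegral_congr_fun measurableSet_Ioi
        intro s hs
        beta_reduce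
        rw [← lintegral_const_mul' _ _ ENNReal.ofReal_ne_top]
        congr 1
        funext y
        rw [shift q t s hs w x y, ENNReal.ofReal_mul (ex_pos q t w x).le]
    _ = ENNReal.ofReal (ex t w x) * ∫⁻ s in Ioi (0 : ℝ), ∫⁻ y : Kb q R, ENNReal.ofReal
          (pt q s (x + (2 * t * s) • (w : En q) - y)) ∂(muQ q R) := by
        rw [lintegral_const_mul' _ _ ENNReal.ofReal_ne_top]
    _ ≤ ENNReal.ofReal (ex t w x) * ENNReal.ofReal (CC q R / t) :=
        mul_le_mul_right (intS h1 q R t hR ht w x hx) _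
    _ = ENNReal.ofReal (CC q R / t * ex t w x) := by
        rw [← ENNReal.ofReal_mul (ex_pos q t w x).le, mul_comm]

end Conj

open Conj in
theorem I_Conj (h1 : PtFacts) (h2 : HHFacts) : StConj := by
  intro q R hR
  refine ⟨CC q R, CC_nonneg q R hR, ?_⟩
  intro t ht w x
  have hx : ‖(x : En q)‖ ≤ R := mem_closedBall_zero_iff.1 x.2
  have ht0 : 0 < t := by linarith
  have hE : 0 < t ^ 2 := by positivity
  obtain ⟨hn, hmeas, -⟩ := (h2 q 0).1 (t ^ 2) hE
  have hb := total h1 q R t hR ht w x hx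
  have hm : Measurable (fun y : Kb q R => HH q 0 (t ^ 2) ((x : En q) - y) * ex t w y) := by
    apply Measurable.mul
    · exact hmeas.comp (measurable_const.sub measurable_subtype_coe)
    · exact (ex_meas q t w).comp measurable_subtype_coe
  have h0 : ∀ y : Kb q R, 0 ≤ HH q 0 (t ^ 2) ((x : En q) - y) * ex t w y := fun y =>
    mul_nonneg (hn _) (ex_pos q t w y).le
  have hfin : ∫⁻ y : Kb q R, ENNReal.ofReal (HH q 0 (t ^ 2) ((x : En q) - y) * ex t w y)
      ∂(muQ q R) < ⊤ := lt_of_le_of_lt hb ENNReal.ofReal_lt_top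
  have hi : Integrable (fun y : Kb q R => HH q 0 (t ^ 2) ((x : En q) - y) * ex t w y)
      (muQ q R) := by
    refine ⟨hm.aestronglyMeasurable, ?_⟩
    rw [hasFiniteIntegral_iff_ofReal (Eventually.of_forall h0)]
    exact hfin
  refine ⟨hi, ?_⟩
  have hr : 0 ≤ CC q R / t * ex t w x :=
    mul_nonneg (div_nonneg (CC_nonneg q R hR) ht0.le) (ex_pos q t w x).le
  rw [← ENNReal.ofReal_le_ofReal_iff hr,
    ofReal_integral_eq_lintegral_ofReal hi (Eventually.of_forall h0)]
  exact hb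

end Pool.Agent.Work.MP_f2af60_mp.Ev
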