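import Pool.Agent.Work.MP_f2af60_mp.Ev.Stmts

/-!
# MP_f2af60_mp, project Ev, item Dq: the difference `eb q (-(I r)) - eb q (I r)`
-/

set_option autoImplicit false

namespace Pool.Agent.Work.MP_f2af60_mp.Ev

open MeasureTheory Metric Filter Topology Set

namespace Dq

/-- `∫ (1 - u²)^q e^(r u)` over `[-1, 1]` -/
noncomputable def J (q : ℕ) (r : ℝ) : ℝ := ∫ u in (-1 : ℝ)..1, (1 - u ^ 2) ^ q * Real.exp (r * u)

/-- `∫ u (1 - u²)^q e^(r u)` over `[-1, 1]` -/
noncomputable def M (q : ℕ) (r : ℝ) : ℝ :=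
  ∫ u in (-1 : ℝ)..1, (1 - u ^ 2) ^ q * (Real.exp (r * u) * u)

theorem hd_J (q : ℕ) (r : ℝ) : HasDerivAt (J q) (M q r) r := by
  have h := intervalIntegral.hasDerivAt_integral_of_dominated_loc_of_deriv_le (μ := volume)
    (F := fun r u : ℝ => (1 - u ^ 2) ^ q * Real.exp (r * u))
    (F' := fun r u : ℝ => (1 - u ^ 2) ^ q * (Real.exp (r * u) * u))
    (a := -1) (b := 1) (x₀ := r) (bound := fun _ => Real.exp (|r| + 1)) (s := ball r 1)
    (ball_mem_nhds r one_pos)
    (Eventually.of_forall fun x => (by fun_prop : Continuous fun u : ℝ =>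
      (1 - u ^ 2) ^ q * Real.exp (x * u)).aestronglyMeasurable)
    ((by fun_prop : Continuous fun u : ℝ =>
      (1 - u ^ 2) ^ q * Real.exp (r * u)).intervalIntegrable _ _)
    ((by fun_prop : Continuous fun u : ℝ =>
      (1 - u ^ 2) ^ q * (Real.exp (r * u) * u)).aestronglyMeasurable)
    (Eventually.of_forall fun u hu x hx => ?_) (by simp)
    (Eventually.of_forall fun u _ x _ => ?_)
  · exact h.2
  · rw [uIoc_of_le (by norm_num)] at hu
    rw [Real.norm_eq_abs, abs_mul, abs_mul, abs_pow, Real.abs_exp]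
    have h1 : |1 - u ^ 2| ≤ 1 := by
      rw [abs_le]; constructor <;> nlinarith [hu.1, hu.2]
    have h2 : |u| ≤ 1 := abs_le.2 ⟨hu.1.le, hu.2⟩
    have h3 : |1 - u ^ 2| ^ q ≤ 1 := pow_le_one₀ (abs_nonneg _) h1
    have h4 : x * u ≤ |r| + 1 := by
      have : |x| ≤ |r| + 1 := by
        rw [mem_ball, Real.dist_eq] at hx
        have := abs_sub_abs_le_abs_sub x r
        linarith
      calc x * u ≤ |x * u| := le_abs_self _
        _ = |x| * |u| := abs_mul _ _
        _ ≤ |x| * 1 := by gcongr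
        _ ≤ _ := by linarith
    calc |1 - u ^ 2| ^ q * (Real.exp (x * u) * |u|) ≤ 1 * (Real.exp (x * u) * 1) := by gcongr
      _ = Real.exp (x * u) := by ring
      _ ≤ _ := Real.exp_le_exp.2 h4
  · have h1 : HasDerivAt (fun x : ℝ => x * u) u x := by simpa using (hasDerivAt_id x).mul_const u
    exact h1.exp.const_mul _

theorem ibp (q : ℕ) (r : ℝ) :
    (2 * (q : ℝ) + 3) * J (q + 1) r + r * M (q + 1) r = 2 * ((q : ℝ) + 1) * J q r := by
  have h1 : ∀ u ∈ uIcc (-1 : ℝ) 1, HasDerivAt (fun u : ℝ => (1 - u ^ 2) ^ (q + 1) *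
      (u * Real.exp (r * u)))
      ((2 * (q : ℝ) + 3) * ((1 - u ^ 2) ^ (q + 1) * Real.exp (r * u)) +
        r * ((1 - u ^ 2) ^ (q + 1) * (Real.exp (r * u) * u)) -
        2 * ((q : ℝ) + 1) * ((1 - u ^ 2) ^ q * Real.exp (r * u))) u := by
    intro u _
    have h2 : HasDerivAt (fun u : ℝ => 1 - u ^ 2) (-(2 * u)) u := by
      simpa using (hasDerivAt_pow 2 u).const_sub 1
    have h3 : HasDerivAt (fun u : ℝ => r * u) r u := by
      simpa using (hasDerivAt_id u).const_mul r
    have h5 : HasDerivAt (fun u : ℝ => u * Real.exp (r * u)) (1 * Real.exp (r * u) +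
      u * (Real.exp (r * u) * r)) u := (hasDerivAt_id u).mul h3.exp
    have h6 : HasDerivAt (fun u : ℝ => (1 - u ^ 2) ^ (q + 1))
      (((q + 1 : ℕ) : ℝ) * (1 - u ^ 2) ^ q * (-(2 * u))) u := h2.pow (q + 1)
    refine (h6.mul h5).congr_deriv ?_
    push_cast
    ring
  have h2 := intervalIntegral.integral_eq_sub_of_hasDerivAt h1
    ((by fun_prop : Continuous fun u : ℝ =>
      ((2 * (q : ℝ) + 3) * ((1 - u ^ 2) ^ (q + 1) * Real.exp (r * u)) +
        r * ((1 - u ^ 2) ^ (q + 1) * (Real.exp (r * u) * u)) -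
        2 * ((q : ℝ) + 1) * ((1 - u ^ 2) ^ q * Real.exp (r * u)))).intervalIntegrable _ _)
  have c1 : IntervalIntegrable (fun u : ℝ => (2 * (q : ℝ) + 3) * ((1 - u ^ 2) ^ (q + 1) *
      Real.exp (r * u))) volume (-1) 1 := (by fun_prop : Continuous _).intervalIntegrable _ _
  have c2 : IntervalIntegrable (fun u : ℝ => r * ((1 - u ^ 2) ^ (q + 1) *
      (Real.exp (r * u) * u))) volume (-1) 1 := (by fun_prop : Continuous _).intervalIntegrable _ _
  have c3 : IntervalIntegrable (fun u : ℝ => 2 * ((q : ℝ) + 1) * ((1 - u ^ 2) ^ q *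
      Real.exp (r * u))) volume (-1) 1 := (by fun_prop : Continuous _).intervalIntegrable _ _
  rw [intervalIntegral.integral_sub (c1.add c2) c3, intervalIntegral.integral_add c1 c2,
    intervalIntegral.integral_const_mul, intervalIntegral.integral_const_mul,
    intervalIntegral.integral_const_mul] at h2
  have h4 : (1 - (1 : ℝ) ^ 2) ^ (q + 1) * (1 * Real.exp (r * 1)) -
      (1 - (-1 : ℝ) ^ 2) ^ (q + 1) * (-1 * Real.exp (r * (-1))) = 0 := by
    norm_num
  rw [h4] at h2
  unfold J M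
  linarith

/-- the constant -/
noncomputable def c (q : ℕ) : ℝ := (-1) ^ q / ((q.factorial : ℝ) * (4 * Real.pi) ^ (q + 1))

theorem c_succ (q : ℕ) : c (q + 1) * (2 * ((q : ℝ) + 1)) = -(c q / (2 * Real.pi)) := by
  unfold c
  have hp := Real.pi_ne_zero
  have h1 : (q.factorial : ℝ) ≠ 0 := Nat.cast_ne_zero.2 (Nat.factorial_ne_zero q)
  have h2 : (q : ℝ) + 1 ≠ 0 := by positivity
  rw [Nat.factorial_succ]
  push_cast
  field_simp
  ring

theorem base (r : ℝ) : r * J 0 r = Real.exp r - Real.exp (-r) := by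
  by_cases hr : r = 0
  · subst hr; simp
  · unfold J
    have h1 : ∀ u ∈ uIcc (-1 : ℝ) 1, HasDerivAt (fun u : ℝ => Real.exp (r * u))
        (r * ((1 - u ^ 2) ^ 0 * Real.exp (r * u))) u := by
      intro u _
      have h3 : HasDerivAt (fun u : ℝ => r * u) r u := by
        simpa using (hasDerivAt_id u).const_mul r
      refine h3.exp.congr_deriv ?_
      ring
    have h2 := intervalIntegral.integral_eq_sub_of_hasDerivAt h1
      ((by fun_prop : Continuous fun u : ℝ =>
        r * ((1 - u ^ 2) ^ 0 * Real.exp (r * u))).intervalIntegrable _ _)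
    rw [intervalIntegral.integral_const_mul] at h2
    rw [h2]
    norm_num

theorem main (h : EbFacts) (q : ℕ) : ∀ r : ℝ,
    eb q (-(Complex.I * (r : ℂ))) - eb q (Complex.I * (r : ℂ)) =
      ((c q * r ^ (2 * q + 1) * J q r : ℝ) : ℂ) := by
  induction q with
  | zero =>
    intro r
    have e0 : eb 0 = fun z => Complex.exp (Complex.I * z) / (4 * (Real.pi : ℂ)) := by
      funext z
      rw [eb]
    have h1 : c 0 * r ^ (2 * 0 + 1) * J 0 r = (Real.exp r - Real.exp (-r)) / (4 * Real.pi) := by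
      rw [← base r]
      unfold c
      simp
      ring
    rw [h1, e0]
    have e1 : Complex.I * -(Complex.I * (r : ℂ)) = ((r : ℝ) : ℂ) := by
      linear_combination (-(r : ℂ)) * Complex.I_mul_I
    have e2 : Complex.I * (Complex.I * (r : ℂ)) = ((-r : ℝ) : ℂ) := by
      push_cast
      linear_combination ((r : ℂ)) * Complex.I_mul_I
    simp only [e1, e2]
    push_cast
    ring
  | succ q ih =>
    have hA : ∀ r : ℝ, HasDerivAt (fun r : ℝ => eb (q + 1) (-(Complex.I * (r : ℂ))) -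
        eb (q + 1) (Complex.I * (r : ℂ)))
        (-((r : ℂ) / (2 * (Real.pi : ℂ)) * ((c q * r ^ (2 * q + 1) * J q r : ℝ) : ℂ))) r := by
      intro r
      have a1 : HasDerivAt (fun r : ℝ => Complex.I * (r : ℂ)) Complex.I r := by
        simpa using (Complex.ofRealCLM.hasDerivAt (x := r)).const_mul Complex.I
      have a2 : HasDerivAt (fun r : ℝ => -(Complex.I * (r : ℂ))) (-Complex.I) r := a1.neg
      have b1 := (h.1 q (Complex.I * (r : ℂ))).comp r a1
      have b2 := (h.1 q (-(Complex.I * (r : ℂ)))).comp r a2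
      refine (b2.sub b1).congr_deriv ?_
      rw [← ih r]
      linear_combination ((r : ℂ) / (2 * (Real.pi : ℂ)) * (eb q (-(Complex.I * (r : ℂ))) -
        eb q (Complex.I * (r : ℂ)))) * Complex.I_mul_I
    have hB : ∀ r : ℝ, HasDerivAt (fun r : ℝ => c (q + 1) * r ^ (2 * (q + 1) + 1) * J (q + 1) r)
        (-(r / (2 * Real.pi) * (c q * r ^ (2 * q + 1) * J q r))) r := by
      intro r
      have a1 := ((hasDerivAt_pow (2 * (q + 1) + 1) r).const_mul (c (q + 1))).mul (hd_J (q + 1) r)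
      refine a1.congr_deriv ?_
      have a2 := ibp q r
      have a3 := c_succ q
      have a4 : 2 * (q + 1) + 1 - 1 = 2 * q + 2 := by omega
      rw [a4]
      push_cast
      linear_combination (c (q + 1) * r ^ (2 * q + 2)) * a2 + (r ^ (2 * q + 2) * J q r) * a3
    have hC : ∀ r : ℝ, HasDerivAt (fun r : ℝ => (eb (q + 1) (-(Complex.I * (r : ℂ))) -
        eb (q + 1) (Complex.I * (r : ℂ))) -
          ((c (q + 1) * r ^ (2 * (q + 1) + 1) * J (q + 1) r : ℝ) : ℂ)) 0 r := by
      intro r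
      refine ((hA r).sub (hB r).ofReal_comp).congr_deriv ?_
      push_cast
      ring
    intro r
    have hD := is_const_of_deriv_eq_zero (f := fun r : ℝ =>
      (eb (q + 1) (-(Complex.I * (r : ℂ))) -
        eb (q + 1) (Complex.I * (r : ℂ))) -
          ((c (q + 1) * r ^ (2 * (q + 1) + 1) * J (q + 1) r : ℝ) : ℂ))
      (fun r => (hC r).differentiableAt) (fun r => (hC r).deriv) r 0
    simp only [Complex.ofReal_zero, mul_zero, neg_zero, sub_self] at hD
    rw [sub_eq_zero.1 (hD.trans ?_)]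
    simp

end Dq

theorem I_Dq (h : EbFacts) : StDq := by
  intro q r
  rw [Dq.main h q r]
  unfold Dq.c Dq.J
  push_cast
  ring

end Pool.Agent.Work.MP_f2af60_mp.Ev
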