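import Pool.Agent.Work.MP_f2af60_mp.Ev.Stmts

/-! # MP_f2af60_mp, project Ev, item Nu -/

set_option autoImplicit false

namespace Pool.Agent.Work.MP_f2af60_mp.Ev

open MeasureTheory Metric Filter Topology Set

namespace Nu

/-- a potential times a continuous function is integrable -/
theorem integrable_mul {q : ℕ} {V : En q → ℝ} {R M : ℝ} (hV : Pot q V R M) {g : En q → ℝ}
    (hg : Continuous g) : Integrable (fun x => V x * g x) := by
  have hsupp : Function.support (fun x => V x * g x) ⊆ closedBall (0 : En q) R := by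
    intro x hx
    rw [mem_closedBall_zero_iff]
    by_contra h
    exact hx (by simp [hV.supp x (not_le.mp h)])
  rw [← integrableOn_iff_integrable_of_support_subset hsupp]
  obtain ⟨C, hC⟩ := (isCompact_closedBall (0 : En q) R).exists_bound_of_continuousOn
    hg.continuousOn
  refine Measure.integrableOn_of_bounded (M := |M| * |C|) measure_closedBall_lt_top.ne
    (hV.meas.mul hg.measurable).aestronglyMeasurable ?_
  refine (ae_restrict_iff' measurableSet_closedBall).mpr (Eventually.of_forall fun x hx => ?_)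
  rw [norm_mul]
  have h1 : ‖V x‖ ≤ |M| := (hV.bdd x).trans (le_abs_self M)
  have h2 : ‖g x‖ ≤ |C| := (hC x hx).trans (le_abs_self C)
  exact mul_le_mul h1 h2 (norm_nonneg _) (abs_nonneg _)

/-- hyperplanes are null sets -/
theorem hyperplane {q : ℕ} {e : En q} (he : e ≠ 0) (s : ℝ) :
    volume {x : En q | inner ℝ e x = s} = 0 := by
  have hn : inner ℝ e e ≠ (0 : ℝ) := inner_self_ne_zero.mpr he
  have h1 : {x : En q | inner ℝ e x = s} =
      (fun x => x + (-(s / inner ℝ e e) : ℝ) • e) ⁻¹' (LinearMap.ker (innerₛₗ ℝ e) : Set (En q)) := by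
    ext x
    simp only [mem_ofPred_eq, mem_preimage, SetLike.mem_coe, LinearMap.mem_ker, innerₛₗ_apply_apply,
      inner_add_right, inner_smul_right]
    rw [neg_mul, div_mul_cancel₀ _ hn]
    constructor
    · intro h; rw [h]; ring
    · intro h; linarith
  rw [h1, measure_preimage_add_right]
  refine Measure.addHaar_submodule _ _ ?_
  intro h
  have : e ∈ LinearMap.ker (innerₛₗ ℝ e) := by rw [h]; trivial
  rw [LinearMap.mem_ker] at this
  exact hn this

/-- the exponential sum -/
noncomputable def EE {m : ℕ} (c : Fin m → ℝ) (s : ℝ) : ℝ :=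
  ∑ j, c j * Real.exp (((j : ℕ) : ℝ) * s)

theorem EE_cont {m : ℕ} (c : Fin m → ℝ) : Continuous (EE c) := by unfold EE; fun_prop

theorem EE_finite {m : ℕ} {c : Fin m → ℝ} (hc : c ≠ 0) : {s | EE c s = 0}.Finite := by
  classical
  let Q : Polynomial ℝ := ∑ j : Fin m, Polynomial.monomial (j : ℕ) (c j)
  have hQ : Q ≠ 0 := by
    obtain ⟨i, hi⟩ := Function.ne_iff.mp hc
    intro h
    apply hi
    have h1 : Q.coeff (i : ℕ) = c i := by
      simp only [Q, Polynomial.finsetSum_coeff, Polynomial.coeff_monomial]
      rw [Finset.sum_eq_single i]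
      · simp
      · intro j _ hj
        rw [if_neg]
        intro h'; exact hj (Fin.ext h')
      · simp
    rw [← h1, h]; simp
  have h2 : {s | EE c s = 0} = Real.exp ⁻¹' {y | Q.IsRoot y} := by
    ext s
    simp only [mem_ofPred_eq, mem_preimage, Polynomial.IsRoot.def, Q, Polynomial.eval_finsetSum,
      Polynomial.eval_monomial, EE]
    have : ∀ j : Fin m, c j * Real.exp (((j : ℕ) : ℝ) * s) = c j * Real.exp s ^ (j : ℕ) := by
      intro j; rw [Real.exp_nat_mul]
    simp only [this]
  rw [h2]
  exact (Polynomial.finite_setOfPred_isRoot hQ).preimage Real.exp_injective.injOn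

theorem EE_null {q m : ℕ} {e : En q} (he : e ≠ 0) {c : Fin m → ℝ} (hc : c ≠ 0) :
    ∀ᵐ x : En q, EE c (inner ℝ e x) ≠ 0 := by
  rw [ae_iff]
  have h1 : {x : En q | ¬ EE c (inner ℝ e x) ≠ 0} ⊆
      ⋃ s ∈ {s | EE c s = 0}, {x : En q | inner ℝ e x = s} := by
    intro x hx
    simp only [mem_ofPred_eq, not_not] at hx
    simp only [mem_iUnion, mem_ofPred_eq]
    exact ⟨_, hx, rfl⟩
  refine measure_mono_null h1 ?_
  exact (measure_biUnion_null_iff (EE_finite hc).countable).mpr fun s _ => hyperplane he s

/-- the space of test functions -/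
def Phi (a : ℝ) : Submodule ℝ (ℝ → ℝ) where
  carrier := {φ | Continuous φ ∧ ∀ s, s ≤ a → φ s = 0}
  add_mem' := fun hf hg => ⟨hf.1.add hg.1, fun s hs => by simp [hf.2 s hs, hg.2 s hs]⟩
  zero_mem' := ⟨continuous_const, fun s _ => rfl⟩
  smul_mem' := fun c f hf => ⟨hf.1.const_smul c, fun s hs => by simp [hf.2 s hs]⟩

theorem tend {y : ℝ} (hy : 0 < y) :
    Tendsto (fun k : ℕ => y / (y + 1 / ((k : ℝ) + 1))) atTop (𝓝 1) := by
  have h1 : Tendsto (fun k : ℕ => y / (y + 1 / ((k : ℝ) + 1))) atTop (𝓝 (y / (y + 0))) :=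
    tendsto_const_nhds.div (tendsto_const_nhds.add tendsto_one_div_add_atTop_nhds_zero_nat)
      (by simpa using hy.ne')
  rwa [add_zero, div_self hy.ne'] at h1

end Nu

theorem I_Nu : StNu := by
  intro q V R M hV e p m a he hm hdet
  set b : En q → ℝ := fun x => V x * Real.exp (inner ℝ p x) with hb
  have hint : ∀ g : ℝ → ℝ, Continuous g →
      Integrable (fun x : En q => b x * g (inner ℝ e x)) := by
    intro g hg
    have h1 : Continuous (fun x : En q => Real.exp (inner ℝ p x) * g (inner ℝ e x)) := by fun_prop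
    refine (Nu.integrable_mul hV h1).congr (Eventually.of_forall fun x => ?_)
    simp only [hb]; ring
  -- the linear map
  let l : Nu.Phi a →ₗ[ℝ] (Fin m → ℝ) :=
    { toFun := fun φ j => ∫ x : En q, b x *
        ((φ : ℝ → ℝ) (inner ℝ e x) * Real.exp (((j : ℕ) : ℝ) * inner ℝ e x))
      map_add' := fun φ ψ => by
        funext j
        have h1 := hint (fun s => (φ : ℝ → ℝ) s * Real.exp (((j : ℕ) : ℝ) * s))
          (by have := φ.2.1; fun_prop)
        have h2 := hint (fun s => (ψ : ℝ → ℝ) s * Real.exp (((j : ℕ) : ℝ) * s))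
          (by have := ψ.2.1; fun_prop)
        rw [Pi.add_apply, ← integral_add h1 h2]
        congr 1
        funext x
        simp only [Submodule.coe_add, Pi.add_apply]; ring
      map_smul' := fun c φ => by
        funext j
        simp only [RingHom.id_apply, Pi.smul_apply, smul_eq_mul]
        rw [← integral_const_mul]
        congr 1
        funext x
        simp only [Submodule.coe_smul, Pi.smul_apply, smul_eq_mul]; ring }
  have hl : ∀ (φ : Nu.Phi a) (j : Fin m), l φ j = ∫ x : En q, b x *
      ((φ : ℝ → ℝ) (inner ℝ e x) * Real.exp (((j : ℕ) : ℝ) * inner ℝ e x)) := fun _ _ => rfl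
  have hlt : LinearMap.range l < ⊤ := by
    rw [lt_top_iff_ne_top]
    intro h
    have h1 : ∀ i : Fin m, ∃ φ : Nu.Phi a, l φ = Pi.single i 1 := by
      intro i
      have : (Pi.single i 1 : Fin m → ℝ) ∈ LinearMap.range l := by rw [h]; trivial
      exact this
    choose φ hφ using h1
    have h2 := hdet (fun i => (φ i : ℝ → ℝ)) (fun i => (φ i).2.1) (fun i => (φ i).2.2)
    have h3 : (Matrix.of fun i j : Fin m => ∫ x : En q, V x * Real.exp (inner ℝ p x) *
        ((φ i : ℝ → ℝ) (inner ℝ e x) * Real.exp (((j : ℕ) : ℝ) * inner ℝ e x))) = 1 := by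
      ext i j
      have h4 := hl (φ i) j
      rw [hφ i] at h4
      rw [Matrix.of_apply, Matrix.one_apply]
      refine h4.symm.trans ?_
      rw [Pi.single_apply]
      by_cases hij : i = j
      · subst hij; simp
      · rw [if_neg hij, if_neg (fun h' => hij h'.symm)]
    rw [h3, Matrix.det_one] at h2
    exact one_ne_zero h2
  obtain ⟨f, hf0, hf⟩ := Submodule.exists_le_ker_of_lt_top _ hlt
  set c : Fin m → ℝ := fun j => f (Pi.single j 1) with hc
  have hfs : ∀ v : Fin m → ℝ, f v = ∑ j, v j * c j := by
    intro v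
    have := LinearMap.pi_apply_eq_sum_univ f v
    simp only [smul_eq_mul] at this
    exact this.trans (Finset.sum_congr rfl fun j _ => by
      rw [hc]; congr 2; funext k; simp [Pi.single_apply, eq_comm])
  have hc0 : c ≠ 0 := by
    intro h
    apply hf0
    refine LinearMap.ext fun v => ?_
    rw [hfs, h]; simp
  -- orthogonality
  have horth : ∀ φ : ℝ → ℝ, Continuous φ → (∀ s, s ≤ a → φ s = 0) →
      ∫ x : En q, b x * (φ (inner ℝ e x) * Nu.EE c (inner ℝ e x)) = 0 := by
    intro φ h1 h2
    have h3 : f (l ⟨φ, h1, h2⟩) = 0 := hf ⟨_, rfl⟩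
    rw [hfs] at h3
    rw [← h3]
    simp only [hl]
    have h4 : ∀ j : Fin m, (∫ x : En q, b x * (φ (inner ℝ e x) *
        Real.exp (((j : ℕ) : ℝ) * inner ℝ e x))) * c j = ∫ x : En q, (b x * (φ (inner ℝ e x) *
        Real.exp (((j : ℕ) : ℝ) * inner ℝ e x))) * c j := fun j => (integral_mul_const _ _).symm
    simp only [h4]
    rw [← integral_finsetSum]
    · congr 1
      funext x
      rw [Nu.EE, Finset.mul_sum, Finset.mul_sum]
      refine Finset.sum_congr rfl fun j _ => ?_
      ring
    · intro j _
      exact (hint (fun s => φ s * Real.exp (((j : ℕ) : ℝ) * s)) (by fun_prop)).mul_const _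
  -- the limit
  let u : ℝ → ℝ := fun s => max 0 (s - a)
  let ep : ℕ → ℝ := fun k => 1 / ((k : ℝ) + 1)
  have hep : ∀ k, 0 < ep k := fun k => by positivity
  have hu : Continuous u := by fun_prop
  have hu0 : ∀ s, 0 ≤ u s := fun s => le_max_left _ _
  let E := Nu.EE c
  have hE : Continuous E := Nu.EE_cont c
  let φ : ℕ → ℝ → ℝ := fun k s => u s / (u s + ep k) * (E s / (E s ^ 2 + ep k))
  have hφc : ∀ k, Continuous (φ k) := by
    intro k
    refine (hu.div (hu.add continuous_const) fun s => ?_).mul
      (hE.div ((hE.pow 2).add continuous_const) fun s => ?_)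
    · have h1 := hu0 s; have h2 := hep k; exact (by linarith : 0 < u s + ep k).ne'
    · have h1 := sq_nonneg (E s); have h2 := hep k; exact (by linarith : 0 < E s ^ 2 + ep k).ne'
  have hφ0 : ∀ k s, s ≤ a → φ k s = 0 := by
    intro k s hs
    have : u s = 0 := max_eq_left (by linarith)
    simp [φ, this]
  have h0 : ∀ k, ∫ x : En q, b x * (φ k (inner ℝ e x) * E (inner ℝ e x)) = 0 := fun k =>
    horth (φ k) (hφc k) (hφ0 k)
  have hbint : Integrable b := by
    have := hint (fun _ => 1) continuous_const
    simpa using this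
  have hlim : Tendsto (fun k => ∫ x : En q, b x * (φ k (inner ℝ e x) * E (inner ℝ e x))) atTop
      (𝓝 (∫ x : En q, {x : En q | a < inner ℝ e x}.indicator b x)) := by
    refine tendsto_integral_of_dominated_convergence (fun x => ‖b x‖) ?_ hbint.norm ?_ ?_
    · intro k
      exact (hint (fun s => φ k s * E s) ((hφc k).mul hE)).aestronglyMeasurable
    · intro k
      refine Eventually.of_forall fun x => ?_
      rw [norm_mul]
      refine mul_le_of_le_one_right (norm_nonneg _) ?_
      set s : ℝ := inner ℝ e x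
      have h1 : φ k s * E s = (u s / (u s + ep k)) * (E s ^ 2 / (E s ^ 2 + ep k)) := by
        simp only [φ]; ring
      have h2 : 0 ≤ u s / (u s + ep k) := div_nonneg (hu0 s) (add_nonneg (hu0 s) (hep k).le)
      have h3 : u s / (u s + ep k) ≤ 1 :=
        div_le_one_of_le₀ (by linarith [hep k]) (add_nonneg (hu0 s) (hep k).le)
      have h4 : 0 ≤ E s ^ 2 / (E s ^ 2 + ep k) :=
        div_nonneg (sq_nonneg _) (add_nonneg (sq_nonneg _) (hep k).le)
      have h5 : E s ^ 2 / (E s ^ 2 + ep k) ≤ 1 :=
        div_le_one_of_le₀ (by linarith [hep k]) (add_nonneg (sq_nonneg _) (hep k).le)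
      rw [h1, Real.norm_of_nonneg (mul_nonneg h2 h4)]
      exact mul_le_one₀ h3 h4 h5
    · filter_upwards [Nu.EE_null he hc0] with x hx
      set s : ℝ := inner ℝ e x with hs
      by_cases has : a < s
      · rw [indicator_of_mem (show x ∈ {x : En q | a < inner ℝ e x} from has)]
        have h1 : ∀ k, b x * (φ k s * E s) =
            b x * ((u s / (u s + ep k)) * (E s ^ 2 / (E s ^ 2 + ep k))) := by
          intro k; simp only [φ]; ring
        have h2 : 0 < u s := lt_max_of_lt_right (by linarith)
        have h3 : 0 < E s ^ 2 := by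
          have : E s ≠ 0 := hx
          positivity
        have h4 := ((Nu.tend h2).mul (Nu.tend h3)).const_mul (b x)
        rw [mul_one, mul_one] at h4
        exact h4.congr fun k => (h1 k).symm
      · rw [indicator_of_notMem (show x ∉ {x : En q | a < inner ℝ e x} from has)]
        have h1 : ∀ k, b x * (φ k s * E s) = 0 := by
          intro k; rw [hφ0 k s (not_lt.mp has)]; ring
        simp only [h1]
        exact tendsto_const_nhds
  have hmeas : MeasurableSet {x : En q | a < inner ℝ e x} := by
    have : Continuous fun x : En q => (inner ℝ e x : ℝ) := by fun_prop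
    exact measurableSet_lt measurable_const this.measurable
  rw [← integral_indicator hmeas]
  simp only [h0] at hlim
  exact (tendsto_nhds_unique hlim tendsto_const_nhds)

end Pool.Agent.Work.MP_f2af60_mp.Ev
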