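import Pool.Agent.Work.MP_f2af60_mp.Ev.Stmts

/-!
# MP_f2af60_mp, project Ev, item 11: kernel operators on `L²`
-/

set_option autoImplicit false
set_option linter.unusedSectionVars false

namespace Pool.Agent.Work.MP_f2af60_mp.Ev

open MeasureTheory Metric Filter Topology Set

namespace OpK

section

variable {X : Type} [MetricSpace X] [CompactSpace X] [MeasurableSpace X] [BorelSpace X]
  (μ : Measure X) [IsFiniteMeasure μ]

/-- the slice `k(x, ·)` -/
noncomputable def slice (k : C(X × X, ℝ)) (x : X) : C(X, ℝ) :=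
  ⟨fun y => k (x, y), k.continuous.comp (by fun_prop)⟩

lemma slice_apply (k : C(X × X, ℝ)) (x y : X) : slice k x y = k (x, y) := rfl

lemma norm_slice_le (k : C(X × X, ℝ)) (x : X) : ‖slice k x‖ ≤ ‖k‖ :=
  (ContinuousMap.norm_le _ (norm_nonneg k)).2 fun y => k.norm_coe_le_norm (x, y)

lemma int_f (f : Lp ℝ 2 μ) : Integrable (fun y => f y) μ :=
  (Lp.memLp f).integrable (by norm_num)

lemma int_kf (k : C(X × X, ℝ)) (f : Lp ℝ 2 μ) (x : X) : Integrable (fun y => k (x, y) * f y) μ := by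
  refine (int_f μ f).bdd_mul (c := ‖k‖) ?_ (Eventually.of_forall fun y => k.norm_coe_le_norm (x, y))
  exact ((slice k x).continuous.measurable).aestronglyMeasurable

/-- the integral as an inner product -/
lemma inner_toLp (g : C(X, ℝ)) (f : Lp ℝ 2 μ) :
    inner ℝ (ContinuousMap.toLp 2 μ ℝ g) f = ∫ y, g y * f y ∂μ := by
  rw [L2.inner_def]
  refine integral_congr_ae ?_
  filter_upwards [ContinuousMap.coeFn_toLp (p := 2) (𝕜 := ℝ) μ g] with y hy
  rw [hy]
  exact mul_comm _ _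

/-- the function `x ↦ ∫ k(x,y) f(y)` -/
noncomputable def psi (k : C(X × X, ℝ)) (f : Lp ℝ 2 μ) : C(X, ℝ) where
  toFun x := ∫ y, k (x, y) * f y ∂μ
  continuous_toFun := by
    refine continuous_of_dominated (bound := fun y => ‖k‖ * ‖f y‖) ?_ ?_ ?_ ?_
    · intro x
      exact (int_kf μ k f x).aestronglyMeasurable
    · intro x
      refine Eventually.of_forall fun y => ?_
      rw [norm_mul]
      exact mul_le_mul_of_nonneg_right (k.norm_coe_le_norm (x, y)) (norm_nonneg _)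
    · exact (int_f μ f).norm.const_mul _
    · refine Eventually.of_forall fun y => ?_
      have h1 : Continuous fun x : X => k (x, y) := k.continuous.comp (by fun_prop)
      exact h1.mul continuous_const

lemma psi_apply (k : C(X × X, ℝ)) (f : Lp ℝ 2 μ) (x : X) :
    psi μ k f x = ∫ y, k (x, y) * f y ∂μ := rfl

lemma norm_psi_le (k : C(X × X, ℝ)) (f : Lp ℝ 2 μ) :
    ‖psi μ k f‖ ≤ ‖(ContinuousMap.toLp 2 μ ℝ : C(X, ℝ) →L[ℝ] Lp ℝ 2 μ)‖ * ‖k‖ * ‖f‖ := by
  refine (ContinuousMap.norm_le _ (by positivity)).2 fun x => ?_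
  have h1 : psi μ k f x = inner ℝ (ContinuousMap.toLp 2 μ ℝ (slice k x)) f := by
    rw [inner_toLp]
    rfl
  rw [h1]
  refine (norm_inner_le_norm _ _).trans ?_
  refine mul_le_mul_of_nonneg_right ?_ (norm_nonneg _)
  refine ((ContinuousMap.toLp 2 μ ℝ : C(X, ℝ) →L[ℝ] Lp ℝ 2 μ).le_opNorm _).trans ?_
  exact mul_le_mul_of_nonneg_left (norm_slice_le k x) (norm_nonneg _)

lemma psi_add_left (k l : C(X × X, ℝ)) (f : Lp ℝ 2 μ) :
    psi μ (k + l) f = psi μ k f + psi μ l f := by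
  ext x
  rw [ContinuousMap.add_apply, psi_apply, psi_apply, psi_apply,
    ← integral_add (int_kf μ k f x) (int_kf μ l f x)]
  refine integral_congr_ae (Eventually.of_forall fun y => ?_)
  show (k + l) (x, y) * f y = k (x, y) * f y + l (x, y) * f y
  rw [ContinuousMap.add_apply]
  ring

lemma psi_smul_left (c : ℝ) (k : C(X × X, ℝ)) (f : Lp ℝ 2 μ) :
    psi μ (c • k) f = c • psi μ k f := by
  ext x
  rw [ContinuousMap.smul_apply, psi_apply, psi_apply, smul_eq_mul, ← integral_const_mul]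
  refine integral_congr_ae (Eventually.of_forall fun y => ?_)
  show (c • k) (x, y) * f y = c * (k (x, y) * f y)
  rw [ContinuousMap.smul_apply, smul_eq_mul]
  ring

lemma psi_add_right (k : C(X × X, ℝ)) (f g : Lp ℝ 2 μ) :
    psi μ k (f + g) = psi μ k f + psi μ k g := by
  ext x
  rw [ContinuousMap.add_apply, psi_apply, psi_apply, psi_apply,
    ← integral_add (int_kf μ k f x) (int_kf μ k g x)]
  refine integral_congr_ae ?_
  filter_upwards [Lp.coeFn_add f g] with y hy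
  rw [hy, Pi.add_apply]
  ring

lemma psi_smul_right (c : ℝ) (k : C(X × X, ℝ)) (f : Lp ℝ 2 μ) :
    psi μ k (c • f) = c • psi μ k f := by
  ext x
  rw [ContinuousMap.smul_apply, psi_apply, psi_apply, smul_eq_mul, ← integral_const_mul]
  refine integral_congr_ae ?_
  filter_upwards [Lp.coeFn_smul c f] with y hy
  rw [hy, Pi.smul_apply, smul_eq_mul]
  ring

/-- the operator -/
noncomputable def op : C(X × X, ℝ) →L[ℝ] (Lp ℝ 2 μ →L[ℝ] Lp ℝ 2 μ) :=
  LinearMap.mkContinuous₂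
    (LinearMap.mk₂ ℝ (fun (k : C(X × X, ℝ)) (f : Lp ℝ 2 μ) => ContinuousMap.toLp 2 μ ℝ (psi μ k f))
      (fun k l f => by rw [psi_add_left, map_add])
      (fun c k f => by rw [psi_smul_left, map_smul])
      (fun k f g => by rw [psi_add_right, map_add])
      (fun c k f => by rw [psi_smul_right, map_smul]))
    (‖(ContinuousMap.toLp 2 μ ℝ : C(X, ℝ) →L[ℝ] Lp ℝ 2 μ)‖ *
      ‖(ContinuousMap.toLp 2 μ ℝ : C(X, ℝ) →L[ℝ] Lp ℝ 2 μ)‖)
    (fun k f => by
      refine ((ContinuousMap.toLp 2 μ ℝ : C(X, ℝ) →L[ℝ] Lp ℝ 2 μ).le_opNorm _).trans ?_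
      have := mul_le_mul_of_nonneg_left (norm_psi_le μ k f)
        (norm_nonneg (ContinuousMap.toLp 2 μ ℝ : C(X, ℝ) →L[ℝ] Lp ℝ 2 μ))
      refine this.trans (le_of_eq ?_)
      ring)

lemma op_apply (k : C(X × X, ℝ)) (f : Lp ℝ 2 μ) :
    op μ k f = ContinuousMap.toLp 2 μ ℝ (psi μ k f) := rfl

lemma op_ae (k : C(X × X, ℝ)) (f : Lp ℝ 2 μ) :
    op μ k f =ᵐ[μ] fun x => ∫ y, k (x, y) * f y ∂μ := by
  rw [op_apply]
  exact ContinuousMap.coeFn_toLp (p := 2) (𝕜 := ℝ) μ (psi μ k f)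

lemma inner_op (k : C(X × X, ℝ)) (f g : Lp ℝ 2 μ) :
    inner ℝ g (op μ k f) = ∫ x, g x * ∫ y, k (x, y) * f y ∂μ ∂μ := by
  rw [real_inner_comm, op_apply, inner_toLp]
  refine integral_congr_ae (Eventually.of_forall fun x => ?_)
  exact mul_comm _ _

/-! ### Compactness -/

/-- the kernel `a(x) b(y)` -/
noncomputable def tens (a b : C(X, ℝ)) : C(X × X, ℝ) :=
  ⟨fun p => a p.1 * b p.2, by fun_prop⟩

lemma psi_tens (a b : C(X, ℝ)) (f : Lp ℝ 2 μ) :
    psi μ (tens a b) f = (inner ℝ (ContinuousMap.toLp 2 μ ℝ b) f : ℝ) • a := by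
  ext x
  rw [psi_apply, ContinuousMap.smul_apply, inner_toLp, smul_eq_mul, mul_comm, ← integral_const_mul]
  refine integral_congr_ae (Eventually.of_forall fun y => ?_)
  show a x * b y * f y = a x * (b y * f y)
  ring

lemma compact_tens (a b : C(X, ℝ)) : IsCompactOperator (op μ (tens a b)) := by
  have h : (op μ (tens a b)) =
      (ContinuousLinearMap.toSpanSingleton ℝ (ContinuousMap.toLp 2 μ ℝ a : Lp ℝ 2 μ)).comp
        (innerSL ℝ (ContinuousMap.toLp 2 μ ℝ b : Lp ℝ 2 μ)) := by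
    ext1 f
    rw [op_apply, psi_tens, map_smul]
    rfl
  rw [h]
  have h1 : IsCompactOperator (innerSL ℝ (ContinuousMap.toLp 2 μ ℝ b : Lp ℝ 2 μ)) :=
    isCompactOperator_of_locallyCompactSpace_dom _
  exact h1.clm_comp (ContinuousLinearMap.toSpanSingleton ℝ
    (ContinuousMap.toLp 2 μ ℝ a : Lp ℝ 2 μ))

/-- the algebra map from the tensor product -/
noncomputable def phi : TensorProduct ℝ C(X, ℝ) C(X, ℝ) →ₐ[ℝ] C(X × X, ℝ) :=
  Algebra.TensorProduct.productMap
    (ContinuousMap.compRightAlgHom ℝ ℝ (⟨Prod.fst, continuous_fst⟩ : C(X × X, X)))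
    (ContinuousMap.compRightAlgHom ℝ ℝ (⟨Prod.snd, continuous_snd⟩ : C(X × X, X)))

lemma phi_tmul (a b : C(X, ℝ)) : phi (a ⊗ₜ[ℝ] b) = tens a b := by
  unfold phi
  rw [Algebra.TensorProduct.productMap_apply_tmul]
  rfl

lemma compact_phi (t : TensorProduct ℝ C(X, ℝ) C(X, ℝ)) : IsCompactOperator (op μ (phi t)) := by
  induction t using TensorProduct.induction_on with
  | zero =>
    rw [map_zero, map_zero]
    exact isCompactOperator_zero
  | tmul a b =>
    rw [phi_tmul]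
    exact compact_tens μ a b
  | add s t hs ht =>
    rw [map_add, map_add]
    exact hs.add ht

lemma separates : (phi (X := X)).range.SeparatesPoints := by
  intro p q hpq
  by_cases h1 : p.1 = q.1
  · have h2 : p.2 ≠ q.2 := fun h2 => hpq (Prod.ext h1 h2)
    let d : C(X, ℝ) := ⟨fun y => dist y q.2, by fun_prop⟩
    refine ⟨_, ⟨phi ((1 : C(X, ℝ)) ⊗ₜ[ℝ] d), ⟨_, rfl⟩, rfl⟩, ?_⟩
    rw [phi_tmul]
    show (1 : ℝ) * dist p.2 q.2 ≠ 1 * dist q.2 q.2
    rw [one_mul, one_mul, dist_self]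
    exact dist_ne_zero.2 h2
  · let d : C(X, ℝ) := ⟨fun y => dist y q.1, by fun_prop⟩
    refine ⟨_, ⟨phi (d ⊗ₜ[ℝ] (1 : C(X, ℝ))), ⟨_, rfl⟩, rfl⟩, ?_⟩
    rw [phi_tmul]
    show dist p.1 q.1 * (1 : ℝ) ≠ dist q.1 q.1 * 1
    rw [mul_one, mul_one, dist_self]
    exact dist_ne_zero.2 h1

lemma compact_op (k : C(X × X, ℝ)) : IsCompactOperator (op μ k) := by
  have hcl : IsClosed {l : C(X × X, ℝ) | IsCompactOperator (op μ l)} :=
    (isClosed_setOfPred_isCompactOperator (σ₁₂ := RingHom.id ℝ) (M₁ := Lp ℝ 2 μ)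
      (M₂ := Lp ℝ 2 μ)).preimage (op μ).continuous
  have htop := ContinuousMap.subalgebra_topologicalClosure_eq_top_of_separatesPoints
    (phi (X := X)).range separates
  have hk : k ∈ (phi (X := X)).range.topologicalClosure := by
    rw [htop]
    exact Algebra.mem_top
  have hk2 : k ∈ closure ((phi (X := X)).range : Set C(X × X, ℝ)) := hk
  refine (hcl.closure_subset_iff.2 ?_) hk2
  rintro _ ⟨t, rfl⟩
  exact compact_phi μ t

/-! ### Symmetry -/

lemma symm_op (k : C(X × X, ℝ)) (hk : ∀ x y, k (x, y) = k (y, x)) (f g : Lp ℝ 2 μ) :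
    (inner ℝ (op μ k f) g : ℝ) = inner ℝ f (op μ k g) := by
  rw [real_inner_comm, inner_op, inner_op]
  have hint : Integrable (fun p : X × X => g p.1 * (k (p.1, p.2) * f p.2)) (μ.prod μ) := by
    have h1 : Integrable (fun p : X × X => g p.1 * f p.2) (μ.prod μ) :=
      (int_f μ g).mul_prod (int_f μ f)
    have h2 : Integrable (fun p : X × X => k p * (g p.1 * f p.2)) (μ.prod μ) :=
      h1.bdd_mul (c := ‖k‖) k.continuous.measurable.aestronglyMeasurable
        (Eventually.of_forall fun p => k.norm_coe_le_norm p)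
    refine h2.congr (Eventually.of_forall fun p => ?_)
    show k p * (g p.1 * f p.2) = g p.1 * (k (p.1, p.2) * f p.2)
    ring
  have h1 : ∫ x, g x * ∫ y, k (x, y) * f y ∂μ ∂μ = ∫ x, ∫ y, g x * (k (x, y) * f y) ∂μ ∂μ := by
    refine integral_congr_ae (Eventually.of_forall fun x => ?_)
    exact (integral_const_mul _ _).symm
  have h2 : ∫ y, f y * ∫ x, k (y, x) * g x ∂μ ∂μ = ∫ y, ∫ x, g x * (k (x, y) * f y) ∂μ ∂μ := by
    refine integral_congr_ae (Eventually.of_forall fun y => ?_)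
    show f y * ∫ x, k (y, x) * g x ∂μ = ∫ x, g x * (k (x, y) * f y) ∂μ
    rw [← integral_const_mul]
    refine integral_congr_ae (Eventually.of_forall fun x => ?_)
    show f y * (k (y, x) * g x) = g x * (k (x, y) * f y)
    rw [hk y x]
    ring
  rw [h1, h2]
  exact integral_integral_swap hint

end

end OpK

theorem I_OpK : StOpK := by
  intro X _ _ _ _ μ _
  refine ⟨OpK.op μ, OpK.op_ae μ, OpK.compact_op μ, OpK.inner_op μ, ?_⟩
  intro k hk f g
  exact OpK.symm_op μ k hk f g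

end Pool.Agent.Work.MP_f2af60_mp.Ev
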