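import Pool.Agent.Work.MP_f2af60_mp.Ev.Stmts

/-!
# MP_f2af60_mp, project Ev, item 14: a Phragmen-Lindelof argument for Laplace transforms
-/

set_option autoImplicit false

namespace Pool.Agent.Work.MP_f2af60_mp.Ev

open MeasureTheory Metric Filter Topology Set

namespace PL

variable {X : Type} [MeasurableSpace X] {ν : Measure X} {f : X → ℝ} {W : X → ℝ} {B : ℝ}

/-- the transform -/
noncomputable def F (ν : Measure X) (f W : X → ℝ) (ζ : ℂ) : ℂ :=
  ∫ x, (f x : ℂ) * Complex.exp (ζ * (W x : ℂ)) ∂ν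

theorem meas (hf : Integrable f ν) (hW : Measurable W) (ζ : ℂ) :
    AEStronglyMeasurable (fun x => (f x : ℂ) * Complex.exp (ζ * (W x : ℂ))) ν := by
  refine (hf.ofReal.aestronglyMeasurable).mul ?_
  refine Measurable.aestronglyMeasurable ?_
  exact Complex.measurable_exp.comp (measurable_const.mul (Complex.measurable_ofReal.comp hW))

omit [MeasurableSpace X] in
theorem norm_le (hB : ∀ x, |W x| ≤ B) (ζ : ℂ) (x : X) :
    ‖(f x : ℂ) * Complex.exp (ζ * (W x : ℂ))‖ ≤ |f x| * Real.exp (‖ζ‖ * B) := by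
  rw [norm_mul, Complex.norm_real, Real.norm_eq_abs, Complex.norm_exp]
  refine mul_le_mul_of_nonneg_left (Real.exp_le_exp.2 ?_) (abs_nonneg _)
  have h1 : (ζ * (W x : ℂ)).re = ζ.re * W x := by simp
  rw [h1]
  calc ζ.re * W x ≤ |ζ.re * W x| := le_abs_self _
    _ = |ζ.re| * |W x| := abs_mul _ _
    _ ≤ ‖ζ‖ * B := mul_le_mul (Complex.abs_re_le_norm ζ) (hB x) (abs_nonneg _) (norm_nonneg _)

theorem integ (hf : Integrable f ν) (hW : Measurable W) (hB : ∀ x, |W x| ≤ B) (ζ : ℂ) :
    Integrable (fun x => (f x : ℂ) * Complex.exp (ζ * (W x : ℂ))) ν := by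
  refine Integrable.mono' (hf.abs.mul_const (Real.exp (‖ζ‖ * B))) (meas hf hW ζ) ?_
  exact ae_of_all _ fun x => norm_le hB ζ x

theorem diff (hf : Integrable f ν) (hW : Measurable W) (hB : ∀ x, |W x| ≤ B) :
    Differentiable ℂ (F ν f W) := by
  intro ζ0
  have hs : ball ζ0 1 ∈ 𝓝 ζ0 := ball_mem_nhds _ one_pos
  have key := hasDerivAt_integral_of_dominated_loc_of_deriv_le (𝕜 := ℂ) (μ := ν)
    (F := fun (ζ : ℂ) x => (f x : ℂ) * Complex.exp (ζ * (W x : ℂ)))
    (F' := fun (ζ : ℂ) x => (f x : ℂ) * (Complex.exp (ζ * (W x : ℂ)) * (W x : ℂ)))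
    (bound := fun x => |f x| * Real.exp ((‖ζ0‖ + 1) * |B|) * |B|)
    (x₀ := ζ0) hs (Eventually.of_forall fun ζ => meas hf hW ζ) (integ hf hW hB ζ0) ?_ ?_ ?_ ?_
  · exact key.2.differentiableAt
  · have h1 := (meas hf hW ζ0).mul
      ((Complex.measurable_ofReal.comp hW).aestronglyMeasurable (μ := ν))
    refine h1.congr (ae_of_all _ fun x => ?_)
    simp [mul_assoc]
  · refine ae_of_all _ fun x ζ hζ => ?_
    have h2 : ‖ζ‖ ≤ ‖ζ0‖ + 1 := by
      have h3 : dist ζ ζ0 < 1 := hζ
      rw [dist_eq_norm] at h3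
      have h4 := norm_sub_norm_le ζ ζ0
      linarith
    have h5 : ∀ x, |W x| ≤ |B| := fun x => (hB x).trans (le_abs_self _)
    rw [← mul_assoc, norm_mul, Complex.norm_real, Real.norm_eq_abs]
    refine mul_le_mul ?_ (h5 x) (abs_nonneg _) (by positivity)
    refine (norm_le h5 ζ x).trans ?_
    refine mul_le_mul_of_nonneg_left (Real.exp_le_exp.2 ?_) (abs_nonneg _)
    exact mul_le_mul_of_nonneg_right h2 (abs_nonneg _)
  · exact (hf.abs.mul_const _).mul_const _
  · refine ae_of_all _ fun x ζ _ => ?_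
    have h6 : HasDerivAt (fun ζ : ℂ => ζ * (W x : ℂ)) (W x : ℂ) ζ := by
      simpa using (hasDerivAt_id ζ).mul_const (W x : ℂ)
    exact (h6.cexp).const_mul _

theorem bound_gen (hf : Integrable f ν) (hB : ∀ x, |W x| ≤ B) (ζ : ℂ) :
    ‖F ν f W ζ‖ ≤ (∫ x, |f x| ∂ν) * Real.exp (‖ζ‖ * B) := by
  have h1 : ∫ x, |f x| * Real.exp (‖ζ‖ * B) ∂ν = (∫ x, |f x| ∂ν) * Real.exp (‖ζ‖ * B) :=
    integral_mul_const _ _
  rw [← h1]
  exact norm_integral_le_of_norm_le (hf.abs.mul_const _) (ae_of_all _ fun x => norm_le hB ζ x)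

theorem bound_left (hf : Integrable f ν) (hpos : ∀ᵐ x ∂ν, 0 ≤ W x) (ζ : ℂ) (hζ : ζ.re ≤ 0) :
    ‖F ν f W ζ‖ ≤ ∫ x, |f x| ∂ν := by
  refine norm_integral_le_of_norm_le hf.abs ?_
  filter_upwards [hpos] with x hx
  rw [norm_mul, Complex.norm_real, Real.norm_eq_abs, Complex.norm_exp]
  have h1 : (ζ * (W x : ℂ)).re = ζ.re * W x := by simp
  rw [h1]
  have h2 : Real.exp (ζ.re * W x) ≤ 1 := by
    rw [Real.exp_le_one_iff]
    exact mul_nonpos_of_nonpos_of_nonneg hζ hx
  calc |f x| * Real.exp (ζ.re * W x) ≤ |f x| * 1 := mul_le_mul_of_nonneg_left h2 (abs_nonneg _)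
    _ = |f x| := mul_one _

theorem const (hf : Integrable f ν) (hW : Measurable W) (hB : ∀ x, |W x| ≤ B)
    (hpos : ∀ᵐ x ∂ν, 0 ≤ W x) (D z1 : ℝ) (hD : ∀ z : ℝ, z1 ≤ z → ‖F ν f W (z : ℂ)‖ ≤ D)
    (z w : ℂ) : F ν f W z = F ν f W w := by
  have hd := diff hf hW hB
  set A := ∫ x, |f x| ∂ν with hA
  have hA0 : 0 ≤ A := integral_nonneg fun x => abs_nonneg _
  have hright : ∀ ζ : ℂ, 0 ≤ ζ.re → ‖F ν f W ζ‖ ≤ A := by
    intro ζ hζ
    refine PhragmenLindelof.right_half_plane_of_bounded_on_real hd.diffContOnCl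
      ⟨1, by norm_num, B, ?_⟩ ?_ ?_ hζ
    · refine Asymptotics.IsBigO.of_bound A (Eventually.of_forall fun η => ?_)
      rw [Real.rpow_one, Real.norm_eq_abs, abs_of_pos (Real.exp_pos _), mul_comm B]
      exact bound_gen hf hB η
    · refine ⟨D, ?_⟩
      rw [eventually_map]
      filter_upwards [eventually_ge_atTop z1] with x hx
      exact hD x hx
    · intro x
      refine bound_left hf hpos _ ?_
      simp
  refine hd.apply_eq_apply_of_bounded ?_ z w
  refine (isBounded_iff_forall_norm_le).2 ⟨A, ?_⟩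
  rintro _ ⟨ζ, rfl⟩
  rcases le_total 0 ζ.re with h | h
  · exact hright ζ h
  · exact bound_left hf hpos ζ h

theorem tendsto_left (hf : Integrable f ν) (hW : Measurable W) (hpos : ∀ᵐ x ∂ν, 0 < W x) :
    Tendsto (fun k : ℕ => F ν f W (-(k : ℂ))) atTop (𝓝 0) := by
  have h0 : (0 : ℂ) = ∫ _x : X, (0 : ℂ) ∂ν := by simp
  rw [h0]
  refine tendsto_integral_of_dominated_convergence (fun x => |f x|)
    (fun k => meas hf hW _) hf.abs ?_ ?_
  · intro k
    filter_upwards [hpos] with x hx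
    rw [norm_mul, Complex.norm_real, Real.norm_eq_abs, Complex.norm_exp]
    have h1 : (-(k : ℂ) * (W x : ℂ)).re = -((k : ℝ) * W x) := by simp
    rw [h1]
    have h2 : Real.exp (-((k : ℝ) * W x)) ≤ 1 := by
      rw [Real.exp_le_one_iff]
      have : 0 ≤ (k : ℝ) * W x := mul_nonneg (Nat.cast_nonneg _) hx.le
      linarith
    calc |f x| * Real.exp (-((k : ℝ) * W x)) ≤ |f x| * 1 :=
          mul_le_mul_of_nonneg_left h2 (abs_nonneg _)
      _ = |f x| := mul_one _
  · filter_upwards [hpos] with x hx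
    have h3 : Tendsto (fun k : ℕ => Real.exp (-((k : ℝ) * W x))) atTop (𝓝 0) := by
      refine Real.tendsto_exp_neg_atTop_nhds_zero.comp ?_
      exact Tendsto.atTop_mul_const hx tendsto_natCast_atTop_atTop
    have h4 : Tendsto (fun k : ℕ => (f x : ℂ) * ((Real.exp (-((k : ℝ) * W x)) : ℝ) : ℂ)) atTop
        (𝓝 ((f x : ℂ) * ((0 : ℝ) : ℂ))) :=
      ((Complex.continuous_ofReal.tendsto 0).comp h3).const_mul _
    rw [Complex.ofReal_zero, mul_zero] at h4
    refine h4.congr fun k => ?_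
    congr 1
    push_cast
    congr 1
    ring

end PL

theorem I_PL : StPL := by
  intro X _ μ f S B C a z0 hf hS hB hC
  set s : Set X := {x | a < S x} with hs
  have hsm : MeasurableSet s := measurableSet_lt measurable_const hS
  set ν := μ.restrict s with hν
  have hfν : Integrable f ν := hf.restrict
  set W : X → ℝ := fun x => S x - a with hWdef
  have hW : Measurable W := hS.sub measurable_const
  have hWB : ∀ x, |W x| ≤ |B| + |a| := by
    intro x
    calc |S x - a| ≤ |S x| + |a| := abs_sub _ _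
      _ ≤ |B| + |a| := by
        have := (hB x).trans (le_abs_self B)
        linarith
  have hposs : ∀ᵐ x ∂ν, 0 < W x := by
    filter_upwards [ae_restrict_mem hsm] with x hx
    have : a < S x := hx
    show 0 < S x - a
    linarith
  have hpos0 : ∀ᵐ x ∂ν, 0 ≤ W x := hposs.mono fun x hx => hx.le
  have hreal : ∀ z : ℝ, PL.F ν f W (z : ℂ) =
      ((∫ x in s, f x * Real.exp (z * (S x - a)) ∂μ : ℝ) : ℂ) := by
    intro z
    have h1 : ((∫ x in s, f x * Real.exp (z * (S x - a)) ∂μ : ℝ) : ℂ) =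
        ∫ x in s, ((f x * Real.exp (z * (S x - a)) : ℝ) : ℂ) ∂μ := integral_ofReal.symm
    rw [h1]
    refine integral_congr_ae (ae_of_all _ fun x => ?_)
    simp only [hWdef]
    push_cast
    rfl
  have hint : ∀ z : ℝ, Integrable (fun x => f x * Real.exp (z * (S x - a))) μ := by
    intro z
    refine Integrable.mono' (hf.abs.mul_const (Real.exp (|z| * (|B| + |a|))))
      (hf.aestronglyMeasurable.mul ?_) (ae_of_all _ fun x => ?_)
    · exact (Real.measurable_exp.comp (measurable_const.mul (hS.sub measurable_const))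
        ).aestronglyMeasurable
    · rw [norm_mul, Real.norm_eq_abs, Real.norm_eq_abs, abs_of_pos (Real.exp_pos _)]
      refine mul_le_mul_of_nonneg_left (Real.exp_le_exp.2 ?_) (abs_nonneg _)
      calc z * (S x - a) ≤ |z * (S x - a)| := le_abs_self _
        _ = |z| * |S x - a| := abs_mul _ _
        _ ≤ _ := mul_le_mul_of_nonneg_left (hWB x) (abs_nonneg _)
  have hD : ∀ z : ℝ, max z0 0 ≤ z → ‖PL.F ν f W (z : ℂ)‖ ≤ |C| + ∫ x, |f x| ∂μ := by
    intro z hz
    have hz0 : z0 ≤ z := (le_max_left _ _).trans hz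
    have hz1 : 0 ≤ z := (le_max_right _ _).trans hz
    rw [hreal, Complex.norm_real, Real.norm_eq_abs]
    have h1 : ∫ x in s, f x * Real.exp (z * (S x - a)) ∂μ +
        ∫ x in sᶜ, f x * Real.exp (z * (S x - a)) ∂μ = ∫ x, f x * Real.exp (z * (S x - a)) ∂μ :=
      integral_add_compl hsm (hint z)
    have h2 : ∫ x, f x * Real.exp (z * (S x - a)) ∂μ =
        (∫ x, f x * Real.exp (z * S x) ∂μ) * Real.exp (-(a * z)) := by
      rw [← integral_mul_const]
      refine integral_congr_ae (ae_of_all _ fun x => ?_)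
      simp only
      rw [mul_assoc, ← Real.exp_add]
      congr 2
      ring
    have h3 : |∫ x, f x * Real.exp (z * (S x - a)) ∂μ| ≤ |C| := by
      rw [h2, abs_mul, abs_of_pos (Real.exp_pos _)]
      calc |∫ x, f x * Real.exp (z * S x) ∂μ| * Real.exp (-(a * z))
          ≤ (C * Real.exp (a * z)) * Real.exp (-(a * z)) :=
            mul_le_mul_of_nonneg_right (hC z hz0) (Real.exp_pos _).le
        _ = C := by
            rw [mul_assoc, ← Real.exp_add, add_neg_cancel, Real.exp_zero, mul_one]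
        _ ≤ |C| := le_abs_self _
    have h4 : |∫ x in sᶜ, f x * Real.exp (z * (S x - a)) ∂μ| ≤ ∫ x, |f x| ∂μ := by
      rw [← Real.norm_eq_abs]
      refine (norm_integral_le_of_norm_le (g := fun x => |f x|) hf.abs.restrict ?_).trans ?_
      · filter_upwards [ae_restrict_mem hsm.compl] with x hx
        have hx' : S x ≤ a := not_lt.1 hx
        rw [norm_mul, Real.norm_eq_abs, Real.norm_eq_abs, abs_of_pos (Real.exp_pos _)]
        have h5 : Real.exp (z * (S x - a)) ≤ 1 := by
          rw [Real.exp_le_one_iff]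
          exact mul_nonpos_of_nonneg_of_nonpos hz1 (by linarith)
        calc |f x| * Real.exp (z * (S x - a)) ≤ |f x| * 1 :=
              mul_le_mul_of_nonneg_left h5 (abs_nonneg _)
          _ = |f x| := mul_one _
      · exact setIntegral_le_integral hf.abs (ae_of_all _ fun x => abs_nonneg _)
    have h6 : ∫ x in s, f x * Real.exp (z * (S x - a)) ∂μ =
        ∫ x, f x * Real.exp (z * (S x - a)) ∂μ -
          ∫ x in sᶜ, f x * Real.exp (z * (S x - a)) ∂μ := by linarith
    rw [h6]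
    exact (abs_sub _ _).trans (add_le_add h3 h4)
  have hconst := PL.const hfν hW hWB hpos0 _ _ hD
  have hlim := PL.tendsto_left hfν hW hposs
  have h7 : PL.F ν f W 0 = 0 := by
    refine tendsto_nhds_unique ?_ hlim
    have : (fun k : ℕ => PL.F ν f W (-(k : ℂ))) = fun _ => PL.F ν f W 0 := by
      funext k
      exact hconst _ _
    rw [this]
    exact tendsto_const_nhds
  have h8 := hreal 0
  rw [Complex.ofReal_zero, h7] at h8
  have h9 : ∫ x in s, f x * Real.exp (0 * (S x - a)) ∂μ = 0 := by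
    exact_mod_cast h8.symm
  simpa using h9

end Pool.Agent.Work.MP_f2af60_mp.Ev
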