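import Pool.Agent.Work.MP_f2af60_mp.Ev.Stmts

/-!
# MP_f2af60_mp, project Ev: exponentials are total (item SWE)
-/

set_option autoImplicit false

namespace Pool.Agent.Work.MP_f2af60_mp.Ev

open MeasureTheory Metric Filter Topology Set

namespace SWE

/-- the exponential on a compact ball -/
noncomputable def E {m : ℕ} (b : ℝ) (α : Fin m → ℝ) : C(closedBall (0 : Fin m → ℝ) b, ℝ) :=
  ⟨fun v => Real.exp (∑ i, α i * (v : Fin m → ℝ) i), by
    refine Real.continuous_exp.comp (continuous_finsetSum _ (fun i _ => ?_))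
    exact continuous_const.mul ((continuous_apply i).comp continuous_subtype_val)⟩

lemma E_mul {m : ℕ} (b : ℝ) (α β : Fin m → ℝ) : E b α * E b β = E b (α + β) := by
  ext v
  simp only [E, ContinuousMap.coe_mul, ContinuousMap.coe_mk, Pi.mul_apply, Pi.add_apply]
  rw [← Real.exp_add, ← Finset.sum_add_distrib]
  congr 1
  exact Finset.sum_congr rfl (fun i _ => by ring)

lemma E_one {m : ℕ} (b : ℝ) : E b (0 : Fin m → ℝ) = 1 := by
  ext v
  simp [E]

/-- the multiplicative monoid of exponentials -/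
noncomputable def Mo (m : ℕ) (b : ℝ) : Submonoid C(closedBall (0 : Fin m → ℝ) b, ℝ) where
  carrier := range (E b)
  mul_mem' := by
    rintro _ _ ⟨α, rfl⟩ ⟨β, rfl⟩
    exact ⟨α + β, (E_mul b α β).symm⟩
  one_mem' := ⟨0, E_one b⟩

/-- the algebra of exponentials -/
noncomputable def Al (m : ℕ) (b : ℝ) : Subalgebra ℝ C(closedBall (0 : Fin m → ℝ) b, ℝ) :=
  Algebra.adjoin ℝ (range (E b))

lemma mem_Al {m : ℕ} {b : ℝ} {g : C(closedBall (0 : Fin m → ℝ) b, ℝ)} (hg : g ∈ Al m b) :
    g ∈ Submodule.span ℝ (range (E b)) := by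
  have h1 : g ∈ Subalgebra.toSubmodule (Algebra.adjoin ℝ (range (E b))) := hg
  rw [Algebra.adjoin_eq_span] at h1
  have h2 : Submonoid.closure (range (E b)) ≤ Mo m b := by
    rw [Submonoid.closure_le]
    exact fun x hx => hx
  exact Submodule.span_mono h2 h1

lemma sep (m : ℕ) (b : ℝ) : (Al m b).SeparatesPoints := by
  intro x y hxy
  have h1 : (x : Fin m → ℝ) ≠ y := fun h => hxy (Subtype.ext h)
  obtain ⟨i, hi⟩ := Function.ne_iff.1 h1
  refine ⟨fun v => E b (Pi.single i 1) v, ⟨E b (Pi.single i 1), Algebra.subset_adjoin ⟨_, rfl⟩, rfl⟩,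
    ?_⟩
  have e : ∀ v : closedBall (0 : Fin m → ℝ) b, E b (Pi.single i 1) v =
      Real.exp ((v : Fin m → ℝ) i) := by
    intro v
    simp only [E, ContinuousMap.coe_mk]
    congr 1
    rw [Finset.sum_eq_single i]
    · simp
    · intro j _ hj
      simp [hj]
    · simp
  show E b (Pi.single i 1) x ≠ E b (Pi.single i 1) y
  rw [e, e]
  exact fun h => hi (Real.exp_injective h)

end SWE

open SWE in
theorem I_SWE : StSWE := by
  intro X _ μ m f s B hf hs hB h0 Φ hΦ
  set b : ℝ := |B| with hb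
  have hmem : ∀ x, s x ∈ closedBall (0 : Fin m → ℝ) b := by
    intro x
    rw [mem_closedBall_zero_iff, pi_norm_le_iff_of_nonneg (abs_nonneg B)]
    intro i
    exact (hB x i).trans (le_abs_self B)
  set σ : X → closedBall (0 : Fin m → ℝ) b := fun x => ⟨s x, hmem x⟩ with hσ
  have hσm : Measurable σ := hs.subtype_mk
  have : CompactSpace (closedBall (0 : Fin m → ℝ) b) :=
    isCompact_iff_compactSpace.1 (isCompact_closedBall _ _)
  have hint : ∀ g : C(closedBall (0 : Fin m → ℝ) b, ℝ), Integrable (fun x => f x * g (σ x)) μ := by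
    intro g
    refine hf.mul_bdd (c := ‖g‖) ?_ ?_
    · exact (g.continuous.measurable.comp hσm).aestronglyMeasurable
    · exact ae_of_all _ (fun x => g.norm_coe_le_norm _)
  have hzero : ∀ g ∈ Submodule.span ℝ (range (E (m := m) b)), ∫ x, f x * g (σ x) ∂μ = 0 := by
    intro g hg
    induction hg using Submodule.span_induction with
    | mem g hg =>
      obtain ⟨α, rfl⟩ := hg
      exact h0 α
    | zero => simp
    | add g₁ g₂ _ _ h₁ h₂ =>
      have e : ∀ x, f x * (g₁ + g₂) (σ x) = f x * g₁ (σ x) + f x * g₂ (σ x) := by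
        intro x
        rw [ContinuousMap.add_apply, mul_add]
      simp_rw [e]
      rw [integral_add (hint g₁) (hint g₂), h₁, h₂, add_zero]
    | smul c g _ h =>
      have e : ∀ x, f x * (c • g) (σ x) = c * (f x * g (σ x)) := by
        intro x
        rw [ContinuousMap.smul_apply, smul_eq_mul]
        ring
      simp_rw [e]
      rw [integral_const_mul, h, mul_zero]
  set Ψ : C(closedBall (0 : Fin m → ℝ) b, ℝ) := ⟨fun v => Φ v, hΦ.comp continuous_subtype_val⟩
    with hΨ
  have key : ∀ ε > 0, |∫ x, f x * Ψ (σ x) ∂μ| ≤ ε * ∫ x, |f x| ∂μ := by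
    intro ε hε
    obtain ⟨⟨g, hg⟩, hgε⟩ :=
      ContinuousMap.exists_mem_subalgebra_near_continuousMap_of_separatesPoints (Al m b) (sep m b)
        Ψ ε hε
    have h1 : ∫ x, f x * Ψ (σ x) ∂μ = ∫ x, f x * (Ψ - g) (σ x) ∂μ := by
      have e : ∀ x, f x * (Ψ - g) (σ x) = f x * Ψ (σ x) - f x * g (σ x) := by
        intro x
        rw [ContinuousMap.sub_apply, mul_sub]
      simp_rw [e]
      rw [integral_sub (hint Ψ) (hint g), hzero g (mem_Al hg), sub_zero]
    rw [h1, ← integral_const_mul, ← Real.norm_eq_abs]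
    refine norm_integral_le_of_norm_le (hf.abs.const_mul ε) (ae_of_all _ (fun x => ?_))
    rw [norm_mul, Real.norm_eq_abs (f x), mul_comm]
    refine mul_le_mul_of_nonneg_right ?_ (abs_nonneg _)
    refine ((Ψ - g).norm_coe_le_norm _).trans ?_
    rw [norm_sub_rev]
    exact hgε.le
  have h2 : |∫ x, f x * Ψ (σ x) ∂μ| ≤ 0 := by
    refine le_of_forall_pos_le_add (fun δ hδ => ?_)
    have hI : 0 ≤ ∫ x, |f x| ∂μ := integral_nonneg (fun x => abs_nonneg _)
    have h3 := key (δ / (∫ x, |f x| ∂μ + 1)) (by positivity)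
    refine h3.trans ?_
    rw [zero_add, div_mul_eq_mul_div, div_le_iff₀ (by positivity)]
    nlinarith
  exact abs_eq_zero.1 (le_antisymm h2 (abs_nonneg _))

end Pool.Agent.Work.MP_f2af60_mp.Ev
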