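import Pool.Agent.Work.MP_f2af60_mp.GPoleFinal
import Pool.Agent.Work.MP_f2af60_mp.Ev.Dq
import Pool.Agent.Work.MP_f2af60_mp.Bd.B06
import Pool.Agent.Work.MP_f2af60_mp.Bd.B05
import Pool.Agent.Work.MP_f2af60_mp.Ev.Conj
import Pool.Agent.Work.MP_f2af60_mp.Ev.OpK
import Pool.Agent.Work.MP_f2af60_mp.Ev.PL
import Pool.Agent.Work.MP_f2af60_mp.Ev.SWE
import Pool.Agent.Work.MP_f2af60_mp.Ev.Nu

/-!
# MP_f2af60_mp, project Ev: assembly
-/

set_option autoImplicit false

namespace Pool.Agent.Work.MP_f2af60_mp.Ev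

open MeasureTheory Metric Filter Topology Set

theorem e_gp : StGp := fun q hq R hR V hV M hM => by
  obtain ⟨O, h, s0, h1, h2, h3, h4, h5, _⟩ := gp_package hq hR V hV M hM
  exact ⟨O, h, s0, h1, h2, h3, h4, h5⟩

theorem e_dq : StDq := I_Dq ebFacts
theorem e_sph : StSph := I_Sph
theorem e_ker : StKer := I_Ker e_dq e_sph
theorem e_gh : StGH := I_GH f_sub
theorem e_cap : StCap := I_Cap
theorem e_conj : StConj := I_Conj f_pt f_hh
theorem e_pack : StPack := I_Pack e_gp e_gh e_conj f_hh
theorem e_sym : StSym := I_Sym f_hh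
theorem e_kcont : StKCont := I_KCont
theorem e_res : StRes := I_Res f_kerRes e_ker e_gh e_cap f_hh
theorem e_opk : StOpK := I_OpK
theorem e_idx : StIdx := I_Idx
theorem e_dir : StDir := I_Dir
theorem e_pl : StPL := I_PL
theorem e_swe : StSWE := I_SWE
theorem e_pst : StPst := I_Pst e_swe
theorem e_det : StDet := I_Det
theorem e_nu : StNu := I_Nu
theorem e_grow : StGrow := I_Grow e_pl e_swe e_pst e_det e_nu
theorem e_win : StWin := I_Win
theorem e_kest : StKest := I_Kest
theorem e_lv : StLV := I_LV
theorem e_mat : StMat := I_Mat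
theorem e_neg : StNeg := I_Neg e_sym e_kcont e_cap e_dir e_grow e_win e_kest e_lv e_mat
theorem e_main : StMain := I_Main e_pack e_sym e_kcont e_res e_opk e_idx e_neg
theorem e_trans : StTrans := I_Trans

/-- Even potentials (about the centre `c / 2`) have poles on the negative imaginary axis. -/
theorem even_poles {q : ℕ} (hq : 1 ≤ q) (V : En q → ℝ) (hV : MemLp V ⊤ volume) (R : ℝ)
    (hsupp : ∀ᵐ x, R < ‖x‖ → V x = 0) (c : En q) (heven : ∀ᵐ x, V (c - x) = V x)
    (hne : ¬ V =ᵐ[volume] 0) (T : ℝ) :
    ∃ t > T, PQ.IsPole V (-(Complex.I * (t : ℂ))) := by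
  obtain ⟨W, M, hWm, hWM, hWR, hVW⟩ := exists_rep_odd V hV R hsupp
  -- the symmetrised representative, centred at the origin
  set b : En q := (1 / 2 : ℝ) • c with hb
  have hcb : c = b + b := by rw [hb, ← add_smul]; norm_num
  set U : En q → ℝ := fun x => (W (x + b) + W (-x + b)) / 2 with hU
  have hUm : Measurable U := by
    have h1 : Measurable fun x : En q => W (x + b) := hWm.comp (measurable_id.add_const b)
    have h2 : Measurable fun x : En q => W (-x + b) := hWm.comp (measurable_id.neg.add_const b)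
    exact (h1.add h2).div_const 2
  have hUM : ∀ x, |U x| ≤ M := fun x => by
    rw [hU, abs_div, abs_of_pos (by norm_num : (0 : ℝ) < 2), div_le_iff₀ (by norm_num)]
    have := abs_add_le (W (x + b)) (W (-x + b))
    linarith [hWM (x + b), hWM (-x + b)]
  have hUR : ∀ x, |R| + ‖b‖ + 1 < ‖x‖ → U x = 0 := fun x hx => by
    have h1 : R < ‖x + b‖ := by
      have := norm_sub_le (x + b) b
      rw [add_sub_cancel_right] at this
      have := le_abs_self R
      linarith
    have h2 : R < ‖-x + b‖ := by
      have := norm_sub_le (-x + b) b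
      rw [add_sub_cancel_right, norm_neg] at this
      have := le_abs_self R
      linarith
    rw [hU]; simp only [hWR _ h1, hWR _ h2]; norm_num
  have hUe : ∀ x, U (-x) = U x := fun x => by
    simp only [hU, neg_neg]; ring
  -- `U (x - b) = V x` a.e.
  have hmp : MeasurePreserving (fun x : En q => c - x) volume volume :=
    Measure.measurePreserving_sub_left volume c
  have hVW' : ∀ᵐ x, V (c - x) = W (c - x) := hmp.quasiMeasurePreserving.ae hVW
  have hUV : ∀ᵐ x, U (x - b) = V x := by
    filter_upwards [hVW, hVW', heven] with x h1 h2 h3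
    have e1 : x - b + b = x := by abel
    have e2 : -(x - b) + b = c - x := by rw [hcb]; abel
    simp only [hU]
    rw [e1, e2, ← h1, ← h2, h3]; ring
  have hU0 : ¬ U =ᵐ[volume] 0 := fun h => hne <| by
    have hmp2 : MeasurePreserving (fun x : En q => x - b) volume volume :=
      measurePreserving_sub_right volume b
    have h' : ∀ᵐ x, U (x - b) = 0 := hmp2.quasiMeasurePreserving.ae h
    filter_upwards [h', hUV] with x h1 h2
    rw [← h2, h1]; rfl
  obtain ⟨t, ht, hres⟩ := e_main q hq U (|R| + ‖b‖ + 1) M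
    ⟨by positivity, hUm, hUM, hUR⟩ hUe hU0 T
  refine ⟨t, ht, ?_⟩
  -- translate back
  set U' : En q → ℝ := fun x => U (x - b) with hU'
  have hU'm : Measurable U' := hUm.comp (measurable_id.sub_const b)
  have hres' : IsRes q U' (-(Complex.I * (t : ℂ))) := by
    apply e_trans q U' b
    have : (fun x => U' (x + b)) = U := by
      funext x; simp [hU']
    rw [this]; exact hres
  have hU'R : ∀ x, |R| + ‖b‖ + 1 + ‖b‖ < ‖x‖ → U' x = 0 := fun x hx => by
    apply hUR
    have := norm_sub_norm_le x b
    linarith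
  exact gp_isPole_congr V U' (by filter_upwards [hUV] with x hx; exact hx.symm) _
    (gp_isPole hq U' hU'm M _ (fun x => hUM _) hU'R _ hres')

end Pool.Agent.Work.MP_f2af60_mp.Ev
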