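import Pool.Agent.Work.MP_f2af60_mp.Ev.Stmts2
import Pool.Agent.Work.MP_f2af60_mp.Bd.B06

/-!
# MP_f2af60_mp, project Ev, item Form: lower bound for the form of `A`
-/

set_option autoImplicit false

namespace Pool.Agent.Work.MP_f2af60_mp.Ev

open MeasureTheory Metric Filter Topology Set

namespace Form

section
variable {q : ℕ} {R : ℝ}

/-- the functional `φ ↦ ∫ k φ` -/
noncomputable def La (k : Kb q R → ℝ) (hk : Integrable k (muQ q R)) : C(Kb q R, ℝ) →L[ℝ] ℝ :=
  LinearMap.mkContinuous
    { toFun := fun φ => ∫ x, k x * φ x ∂(muQ q R)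
      map_add' := by
        intro a b
        have ha : Integrable (fun x => k x * a x) (muQ q R) :=
          hk.mul_bdd (c := ‖a‖) a.continuous.aestronglyMeasurable
            (ae_of_all _ fun x => a.norm_coe_le_norm x)
        have hb : Integrable (fun x => k x * b x) (muQ q R) :=
          hk.mul_bdd (c := ‖b‖) b.continuous.aestronglyMeasurable
            (ae_of_all _ fun x => b.norm_coe_le_norm x)
        rw [← integral_add ha hb]
        refine integral_congr_ae (ae_of_all _ fun x => ?_)
        simp only [ContinuousMap.add_apply]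
        ring
      map_smul' := by
        intro c a
        simp only [ContinuousMap.smul_apply, smul_eq_mul, RingHom.id_apply]
        rw [← integral_const_mul]
        refine integral_congr_ae (ae_of_all _ fun x => ?_)
        simp only []
        ring }
    (∫ x, |k x| ∂(muQ q R))
    (by
      intro φ
      show ‖∫ x, k x * φ x ∂(muQ q R)‖ ≤ _
      refine (norm_integral_le_integral_norm _).trans ?_
      rw [← integral_mul_const]
      refine integral_mono_of_nonneg (ae_of_all _ fun x => norm_nonneg _) (hk.abs.mul_const _)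
        (ae_of_all _ fun x => ?_)
      simp only [norm_mul, Real.norm_eq_abs]
      have := φ.norm_coe_le_norm x
      rw [Real.norm_eq_abs] at this
      gcongr)

lemma La_apply (k : Kb q R → ℝ) (hk : Integrable k (muQ q R)) (φ : C(Kb q R, ℝ)) :
    La k hk φ = ∫ x, k x * φ x ∂(muQ q R) := rfl

/-- integrability of `f Φ` -/
lemma intΦ {f : Sp q → ℝ} (hf : Integrable f (sg q)) {Φ : Sp q → C(Kb q R, ℝ)}
    (hΦ : Continuous Φ) : Integrable (fun w => f w • Φ w) (sg q) := by
  obtain ⟨B, hB⟩ := (isCompact_range hΦ).isBounded.exists_norm_le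
  exact hf.smul_bdd B hΦ.aestronglyMeasurable
    (ae_of_all _ fun w => hB _ (mem_range_self w))

lemma La_int {f : Sp q → ℝ} (hf : Integrable f (sg q)) {Φ : Sp q → C(Kb q R, ℝ)}
    (hΦ : Continuous Φ) (L : C(Kb q R, ℝ) →L[ℝ] ℝ) :
    L (∫ w, f w • Φ w ∂(sg q)) = ∫ w, f w * L (Φ w) ∂(sg q) := by
  rw [← L.integral_comp_comm (intΦ hf hΦ)]
  refine integral_congr_ae (ae_of_all _ fun w => ?_)
  simp

/-- exponentials as continuous functions -/
noncomputable def EE (R : ℝ) (t : ℝ) (w : Sp q) : C(Kb q R, ℝ) where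
  toFun := fun x => ex t w x
  continuous_toFun := by
    unfold ex
    fun_prop

lemma EE_cont (t : ℝ) : Continuous (EE (q := q) R t) := by
  refine ContinuousMap.continuous_of_continuous_uncurry _ ?_
  show Continuous fun p : Sp q × Kb q R => ex t p.1 p.2
  unfold ex
  fun_prop

lemma eval_int {f : Sp q → ℝ} (hf : Integrable f (sg q)) {Φ : Sp q → C(Kb q R, ℝ)}
    (hΦ : Continuous Φ) (x : Kb q R) :
    (∫ w, f w • Φ w ∂(sg q)) x = ∫ w, f w * Φ w x ∂(sg q) := by
  have := La_int hf hΦ (ContinuousMap.evalCLM ℝ x)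
  simpa using this

lemma TT_cont {f : Sp q → ℝ} (hf : Integrable f (sg q)) (t : ℝ) : Continuous (TT t f) := by
  rw [continuous_iff_continuousAt]
  intro x0
  unfold TT
  refine continuousAt_of_dominated (bound := fun w => Real.exp (|t| * (‖x0‖ + 1)) * |f w|) ?_ ?_
    (hf.abs.const_mul _) ?_
  · refine Eventually.of_forall fun x => ?_
    refine Continuous.aestronglyMeasurable ?_ |>.mul hf.aestronglyMeasurable
    unfold ex
    fun_prop
  · filter_upwards [Metric.ball_mem_nhds x0 one_pos] with x hx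
    refine ae_of_all _ fun w => ?_
    rw [norm_mul, Real.norm_eq_abs, Real.norm_eq_abs]
    unfold ex
    rw [Real.abs_exp]
    have h1 : ‖x‖ ≤ ‖x0‖ + 1 := by
      have := norm_sub_norm_le x x0
      rw [mem_ball, dist_eq_norm] at hx
      linarith
    have hw : ‖(w : En q)‖ = 1 := by simpa using w.2
    have h2 : t * inner ℝ (w : En q) x ≤ |t| * (‖x0‖ + 1) := by
      calc t * inner ℝ (w : En q) x ≤ |t * inner ℝ (w : En q) x| := le_abs_self _
        _ = |t| * |inner ℝ (w : En q) x| := abs_mul _ _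
        _ ≤ |t| * (‖x0‖ + 1) := by
          have := abs_real_inner_le_norm (w : En q) x
          rw [hw, one_mul] at this
          gcongr
          exact this.trans h1
    gcongr
  · refine ae_of_all _ fun w => ?_
    unfold ex
    fun_prop

lemma toEn (F : En q → ℝ) (hF : ∀ x, R < ‖x‖ → F x = 0) :
    ∫ x : Kb q R, F x ∂(muQ q R) = ∫ x, F x := by
  have h1 : ∫ x : Kb q R, F x ∂(muQ q R) = ∫ x in Kb q R, F x := by
    rw [← Sym.mapμ, (Sym.emb q R).integral_map]
  rw [h1]
  refine setIntegral_eq_integral_of_forall_compl_eq_zero fun x hx => hF x ?_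
  rw [mem_closedBall, dist_zero_right, not_le] at hx
  exact hx

lemma Coll_meas (Om : Set (En q)) (δ : ℝ) : MeasurableSet (Coll Om δ) := by
  have h1 : IsOpen {x : En q | 0 < infDist x Om} :=
    isOpen_lt continuous_const (continuous_infDist_pt Om)
  have h2 : IsOpen {x : En q | infDist x Om < δ} :=
    isOpen_lt (continuous_infDist_pt Om) continuous_const
  exact (h1.inter h2).measurableSet

lemma Coll_bdd {Om : Set (En q)} (hO : IsCompact Om) (hne : Om.Nonempty) (δ : ℝ) :
    ∃ ρ : ℝ, Coll Om δ ⊆ closedBall 0 ρ := by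
  obtain ⟨B, hB⟩ := hO.isBounded.exists_norm_le
  refine ⟨B + δ, fun x hx => ?_⟩
  obtain ⟨y, hy, hxy⟩ := (infDist_lt_iff hne).1 hx.2
  rw [mem_closedBall, dist_zero_right]
  have h1 := hB y hy
  have h2 : ‖x‖ ≤ ‖y‖ + dist x y := by
    rw [dist_eq_norm]
    have := norm_add_le y (x - y)
    simpa using this
  linarith

lemma Coll_int {Om : Set (En q)} (hO : IsCompact Om) (hne : Om.Nonempty) (δ : ℝ) {F : En q → ℝ}
    (hF : Continuous F) : IntegrableOn F (Coll Om δ) := by
  obtain ⟨ρ, hρ⟩ := Coll_bdd hO hne δ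
  exact (hF.continuousOn.integrableOn_compact (isCompact_closedBall 0 ρ)).mono_set hρ

lemma W_int {W F : En q → ℝ} (hW : Measurable W) {B : ℝ} (hB : ∀ x, |W x| ≤ B)
    (hs : ∀ x, R < ‖x‖ → W x = 0) (hF : Continuous F) : Integrable (fun x => W x * F x) := by
  have h1 : IntegrableOn F (closedBall (0 : En q) R) :=
    hF.continuousOn.integrableOn_compact (isCompact_closedBall 0 R)
  have h2 : IntegrableOn (fun x => W x * F x) (closedBall (0 : En q) R) := by
    refine Integrable.bdd_mul (c := B) h1 hW.aestronglyMeasurable (ae_of_all _ fun x => ?_)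
    exact hB x
  refine h2.integrable_of_forall_notMem_eq_zero fun x hx => ?_
  rw [mem_closedBall, dist_zero_right, not_le] at hx
  simp only [hs x hx, zero_mul]

/-- the pointwise inequality, integrated -/
lemma mainIneq {V : En q → ℝ} {M : ℝ} (hV : Pot q V R M) {Om : Set (En q)} {δ c ε κ : ℝ}
    (hS : Shell q V Om δ c ε) (hκ0 : 0 ≤ κ) (hκ : κ ≤ 1 / 2) {U : En q → ℝ} (hU : Continuous U) :
    c / 2 * (∫ x in Coll Om δ, U x ^ 2) - 2 * M * (∫ x in Om, U x ^ 2) ≤
      ε * (∫ x, V x * U x ^ 2) - κ * (∫ x, |V x| * U x ^ 2) := by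
  have hM : 0 ≤ M := (abs_nonneg _).trans (hV.bdd 0)
  have hU2 : Continuous fun x => U x ^ 2 := hU.pow 2
  have i1 : Integrable (fun x => V x * U x ^ 2) := W_int hV.meas hV.bdd hV.supp hU2
  have i2 : Integrable (fun x => |V x| * U x ^ 2) :=
    W_int (W := fun x => |V x|) (R := R) (B := M) hV.meas.abs (fun x => by
      rw [abs_abs]; exact hV.bdd x) (fun x hx => by simp only [hV.supp x hx, abs_zero]) hU2
  have hC := Coll_meas Om δ
  have hOm : MeasurableSet Om := hS.cpt.measurableSet
  have i3 : IntegrableOn (fun x => U x ^ 2) (Coll Om δ) := Coll_int hS.cpt hS.ne δ hU2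
  have i4 : IntegrableOn (fun x => U x ^ 2) Om := hU2.continuousOn.integrableOn_compact hS.cpt
  rw [← integral_indicator hC, ← integral_indicator hOm, ← integral_const_mul,
    ← integral_const_mul, ← integral_const_mul, ← integral_const_mul,
    ← integral_sub ((i3.integrable_indicator hC).const_mul _)
      ((i4.integrable_indicator hOm).const_mul _),
    ← integral_sub (i1.const_mul _) (i2.const_mul _)]
  refine integral_mono_ae (((i3.integrable_indicator hC).const_mul _).sub
    ((i4.integrable_indicator hOm).const_mul _)) ((i1.const_mul _).sub (i2.const_mul _)) ?_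
  filter_upwards [hS.off, hS.coll] with x hoff hcoll
  have hVx := hV.bdd x
  have hU0 : 0 ≤ U x ^ 2 := sq_nonneg _
  have hε : |ε| = 1 := by
    rcases hS.sgn with h | h <;> rw [h] <;> simp
  have habs : |ε * V x| = |V x| := by rw [abs_mul, hε, one_mul]
  have e1 : ε * (V x * U x ^ 2) - κ * (|V x| * U x ^ 2) = (ε * V x - κ * |V x|) * U x ^ 2 := by
    ring
  rw [e1]
  by_cases hx : x ∈ Om
  · have hnC : x ∉ Coll Om δ := by
      intro h
      have := h.1
      rw [infDist_zero_of_mem hx] at this
      exact lt_irrefl _ this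
    rw [indicator_of_notMem hnC, indicator_of_mem hx]
    have h1 : -(|V x|) ≤ ε * V x := by
      rw [← habs]
      exact neg_abs_le _
    have h2 : κ * |V x| ≤ 1 / 2 * M := by gcongr
    have h3 : -(2 * M) ≤ ε * V x - κ * |V x| := by linarith
    have h4 := mul_le_mul_of_nonneg_right h3 hU0
    linarith
  · have hge := hoff hx
    have h0 : ε * V x = |V x| := by rw [← habs, abs_of_nonneg hge]
    rw [indicator_of_notMem hx]
    have h2 : κ * |V x| ≤ 1 / 2 * |V x| := by gcongr
    by_cases hxC : x ∈ Coll Om δ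
    · rw [indicator_of_mem hxC]
      have h3 := hcoll hxC
      have h4 : c / 2 ≤ ε * V x - κ * |V x| := by
        rw [← h0] at h2 ⊢
        linarith
      have h5 := mul_le_mul_of_nonneg_right h4 hU0
      linarith
    · rw [indicator_of_notMem hxC]
      have h4 : 0 ≤ ε * V x - κ * |V x| := by
        have := abs_nonneg (V x)
        rw [h0]
        linarith
      have h5 := mul_nonneg h4 hU0
      linarith

end

end Form

theorem I_Form (h1 : StBorn) (h2 : StMean) (h3 : HHFacts) : StForm := by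
  intro q hq V R M hV P Om δ c ε hS
  have hM : 0 ≤ M := (abs_nonneg _).trans (hV.bdd 0)
  have hc := hS.c_pos
  obtain ⟨C, t1, hC, ht1, hB⟩ := h1 q V R M hV
  obtain ⟨t2, hM2⟩ := h2 q Om δ hS.cpt hS.ne hS.δ_pos (c / (8 * (M + 1))) (by positivity)
  refine ⟨max (max P.t0 t1) (max t2 (2 * C + 1)), (le_max_left _ _).trans (le_max_left _ _),
    fun t ht f => ?_⟩
  have htP : t ≥ P.t0 := (le_max_left _ _).trans ((le_max_left _ _).trans ht)
  have htt1 : t ≥ t1 := (le_max_right _ _).trans ((le_max_left _ _).trans ht)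
  have htt2 : t ≥ t2 := (le_max_left _ _).trans ((le_max_right _ _).trans ht)
  have htC : t ≥ 2 * C + 1 := (le_max_right _ _).trans ((le_max_right _ _).trans ht)
  have ht0 : 1 ≤ t := P.t0_ge.trans htP
  have hE : 0 < t ^ 2 := by positivity
  have hf : Integrable f (sg q) := (Lp.memLp f).integrable one_le_two
  have hΦ : Continuous (P.g t) := by
    have := P.cont.comp_continuous (f := fun w : Sp q => ((t, w) : ℝ × Sp q)) (by fun_prop)
      (fun w => ⟨htP, mem_univ _⟩)
    exact this
  have hU : Continuous (TT t f) := Form.TT_cont hf t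
  obtain ⟨u, hu⟩ : ∃ u : C(Kb q R, ℝ), u = ∫ w, f w • Form.EE R t w ∂(sg q) := ⟨_, rfl⟩
  obtain ⟨g, hg⟩ : ∃ g : C(Kb q R, ℝ), g = ∫ w, f w • P.g t w ∂(sg q) := ⟨_, rfl⟩
  have hux : ∀ x : Kb q R, u x = TT t f x := by
    intro x
    rw [hu, Form.eval_int hf (Form.EE_cont t)]
    unfold TT
    refine integral_congr_ae (ae_of_all _ fun w => ?_)
    show f w * ex t w x = ex t w x * f w
    ring
  have hk : ∀ x : Kb q R, Integrable (fun y : Kb q R => HH q 0 (t ^ 2) ((x : En q) - y) * V y)
      (muQ q R) := by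
    intro x
    have := Sym.intKV h3 hV hE (x : En q) (1 : C(Kb q R, ℝ))
    simpa using this
  have heq : ∀ x : Kb q R, g x + ∫ y : Kb q R, HH q 0 (t ^ 2) ((x : En q) - y) * V y * g y
      ∂(muQ q R) = u x := by
    intro x
    have e1 := Form.La_int hf hΦ ((ContinuousMap.evalCLM ℝ x : C(Kb q R, ℝ) →L[ℝ] ℝ) +
      Form.La _ (hk x))
    rw [← hg] at e1
    have e2 : ((ContinuousMap.evalCLM ℝ x : C(Kb q R, ℝ) →L[ℝ] ℝ) + Form.La _ (hk x)) g = g x +
        ∫ y : Kb q R, HH q 0 (t ^ 2) ((x : En q) - y) * V y * g y ∂(muQ q R) := rfl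
    rw [← e2, e1, hux x]
    unfold TT
    refine integral_congr_ae (ae_of_all _ fun w => ?_)
    show f w * (P.g t w x +
      ∫ y : Kb q R, HH q 0 (t ^ 2) ((x : En q) - y) * V y * P.g t w y ∂(muQ q R)) =
        ex t w x * f w
    rw [P.eqn t htP w x]
    ring
  have hVE : ∀ w : Sp q, Integrable (fun x : Kb q R => V x * ex t w x) (muQ q R) := by
    intro w
    have := Sym.intV3 hV (Form.EE R t w) 1
    refine this.congr (ae_of_all _ fun x => ?_)
    show V x * ex t w x * 1 = V x * ex t w x
    ring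
  have hVg : Integrable (fun x : Kb q R => V x * g x) (muQ q R) := by
    have := Sym.intV3 hV g 1
    simpa using this
  have hdouble : ∫ w : Sp q, f w * ∫ w' : Sp q, aa P t w w' * f w' ∂(sg q) ∂(sg q) =
      ∫ x : Kb q R, V x * u x * g x ∂(muQ q R) := by
    have e1 : ∀ w, ∫ w' : Sp q, aa P t w w' * f w' ∂(sg q) =
        Form.La _ hVg (Form.EE R t w) := by
      intro w
      have e2 := Form.La_int hf hΦ (Form.La _ (hVE w))
      rw [← hg] at e2
      have e3 : Form.La _ hVg (Form.EE R t w) = Form.La _ (hVE w) g := by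
        rw [Form.La_apply, Form.La_apply]
        refine integral_congr_ae (ae_of_all _ fun x => ?_)
        show V x * g x * ex t w x = V x * ex t w x * g x
        ring
      rw [e3, e2]
      refine integral_congr_ae (ae_of_all _ fun w' => ?_)
      show aa P t w w' * f w' = f w' * _
      rw [mul_comm]
      rfl
    simp_rw [e1]
    rw [← Form.La_int hf (Form.EE_cont t), ← hu, Form.La_apply]
    refine integral_congr_ae (ae_of_all _ fun x => ?_)
    show V x * g x * u x = V x * u x * g x
    ring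
  have hborn := hB t htt1 u g heq
  have e1 : ∫ x : Kb q R, V x * u x ^ 2 ∂(muQ q R) = ∫ x, V x * TT t f x ^ 2 := by
    rw [← Form.toEn (R := R) (fun x => V x * TT t f x ^ 2)
      (fun x hx => by simp only [hV.supp x hx, zero_mul])]
    refine integral_congr_ae (ae_of_all _ fun x => ?_)
    simp only [hux x]
  have e2 : ∫ x : Kb q R, |V x| * u x ^ 2 ∂(muQ q R) = ∫ x, |V x| * TT t f x ^ 2 := by
    rw [← Form.toEn (R := R) (fun x => |V x| * TT t f x ^ 2)
      (fun x hx => by simp only [hV.supp x hx, abs_zero, zero_mul])]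
    refine integral_congr_ae (ae_of_all _ fun x => ?_)
    simp only [hux x]
  rw [e1, e2, ← hdouble] at hborn
  have hκ : C / t ^ 2 ≤ 1 / 2 := by
    rw [div_le_div_iff₀ hE two_pos]
    nlinarith
  have hκ0 : 0 ≤ C / t ^ 2 := by positivity
  have hmain := Form.mainIneq hV hS hκ0 hκ hU
  have hmean := hM2 t htt2 f hf
  have hI : 0 ≤ ∫ x in Coll Om δ, TT t f x ^ 2 := integral_nonneg fun x => sq_nonneg _
  have hbd : 2 * M * ∫ x in Om, TT t f x ^ 2 ≤ c / 4 * ∫ x in Coll Om δ, TT t f x ^ 2 := by
    calc 2 * M * ∫ x in Om, TT t f x ^ 2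
        ≤ 2 * M * (c / (8 * (M + 1)) * ∫ x in Coll Om δ, TT t f x ^ 2) := by gcongr
      _ = (2 * M * (c / (8 * (M + 1)))) * ∫ x in Coll Om δ, TT t f x ^ 2 := by ring
      _ ≤ c / 4 * ∫ x in Coll Om δ, TT t f x ^ 2 := by
        gcongr
        rw [mul_div_assoc', div_le_div_iff₀ (by positivity) (by norm_num)]
        nlinarith
  have habs := abs_le.1 hborn
  rcases hS.sgn with h | h
  · subst h
    linarith [habs.1, habs.2]
  · subst h
    linarith [habs.1, habs.2]

end Pool.Agent.Work.MP_f2af60_mp.Ev
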