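import Pool.Agent.Work.MP_f2af60_mp.Ev.Stmts2

/-!
# S4: the index lemma relative to an involution
-/

set_option autoImplicit false

namespace Pool.Agent.Work.MP_f2af60_mp.Ev

open MeasureTheory Metric Filter Topology Set

namespace Idx2

variable {H : Type} [NormedAddCommGroup H] [InnerProductSpace ℝ H]

/-- projection onto `J u = u` -/
noncomputable def Pp (J : H →L[ℝ] H) : H →L[ℝ] H := (1 / 2 : ℝ) • (1 + J)

/-- projection onto `J u = -u` -/
noncomputable def Pm (J : H →L[ℝ] H) : H →L[ℝ] H := (1 / 2 : ℝ) • (1 - J)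

/-- the operator to be inverted -/
noncomputable def DM (J B : H →L[ℝ] H) : H →L[ℝ] H := 1 + Pp J * B * Pp J

/-- the Schur complement -/
noncomputable def KM (J B : H →L[ℝ] H) : H →L[ℝ] H :=
  Pm J * B * Pm J - Pm J * B * Pp J * Ring.inverse (DM J B) * Pp J * B * Pm J

lemma Pp_apply (J : H →L[ℝ] H) (v : H) : Pp J v = (1 / 2 : ℝ) • (v + J v) := rfl

lemma Pm_apply (J : H →L[ℝ] H) (v : H) : Pm J v = (1 / 2 : ℝ) • (v - J v) := rfl

lemma DM_apply (J B : H →L[ℝ] H) (v : H) : DM J B v = v + Pp J (B (Pp J v)) := rfl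

lemma KM_apply (J B : H →L[ℝ] H) (v : H) : KM J B v = Pm J (B (Pm J v)) -
    Pm J (B (Pp J (Ring.inverse (DM J B) (Pp J (B (Pm J v)))))) := rfl

lemma add_PpPm (J : H →L[ℝ] H) (v : H) : Pp J v + Pm J v = v := by
  rw [Pp_apply, Pm_apply, ← smul_add]
  have : v + J v + (v - J v) = (2 : ℝ) • v := by rw [two_smul]; abel
  rw [this, smul_smul]
  norm_num

section
variable {J B : H →L[ℝ] H} (hJJ : ∀ v, J (J v) = v)
include hJJ

lemma J_Pp (v : H) : J (Pp J v) = Pp J v := by
  rw [Pp_apply, map_smul, map_add, hJJ, add_comm]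

lemma J_Pm (v : H) : J (Pm J v) = -Pm J v := by
  rw [Pm_apply, map_smul, map_sub, hJJ, ← smul_neg, neg_sub]

omit hJJ in
lemma Pp_of {v : H} (h : J v = v) : Pp J v = v := by
  rw [Pp_apply, h, ← two_smul ℝ v, smul_smul]
  norm_num

omit hJJ in
lemma Pm_of {v : H} (h : J v = -v) : Pm J v = v := by
  rw [Pm_apply, h, sub_neg_eq_add, ← two_smul ℝ v, smul_smul]
  norm_num

omit hJJ in
lemma Pp_zero {v : H} (h : J v = -v) : Pp J v = 0 := by
  rw [Pp_apply, h, add_neg_cancel, smul_zero]

omit hJJ in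
lemma Pm_zero {v : H} (h : J v = v) : Pm J v = 0 := by
  rw [Pm_apply, h, sub_self, smul_zero]

end

lemma Pp_symm {J : H →L[ℝ] H} (hJ : ∀ x y : H, inner ℝ (J x) y = inner ℝ x (J y)) (x y : H) :
    inner ℝ (Pp J x) y = inner ℝ x (Pp J y) := by
  rw [Pp_apply, Pp_apply, real_inner_smul_left, real_inner_smul_right, inner_add_left,
    inner_add_right, hJ]

lemma Pm_symm {J : H →L[ℝ] H} (hJ : ∀ x y : H, inner ℝ (J x) y = inner ℝ x (J y)) (x y : H) :
    inner ℝ (Pm J x) y = inner ℝ x (Pm J y) := by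
  rw [Pm_apply, Pm_apply, real_inner_smul_left, real_inner_smul_right, inner_sub_left,
    inner_sub_right, hJ]

section main
variable [CompleteSpace H] {J B : H →L[ℝ] H}
  (hJ : ∀ x y : H, inner ℝ (J x) y = inner ℝ x (J y)) (hJJ : ∀ v, J (J v) = v)
  (hB : ∀ x y : H, inner ℝ (B x) y = inner ℝ x (B y)) (hpos : ∀ v : H, 0 ≤ inner ℝ v (B v))

include hJ hpos in
lemma unitD : IsUnit (DM J B) := by
  refine ContinuousLinearMap.isUnit_of_forall_le_norm_inner_map (DM J B) (c := 1) one_pos ?_
  intro x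
  rw [DM_apply, inner_add_left, Pp_symm hJ, real_inner_self_eq_norm_sq]
  have h1 := hpos (Pp J x)
  rw [real_inner_comm] at h1
  have h2 : 0 ≤ ‖x‖ ^ 2 + inner ℝ (B (Pp J x)) (Pp J x) := by positivity
  rw [Real.norm_of_nonneg h2]
  simp only [NNReal.coe_one, mul_one]
  linarith

include hJ hpos in
lemma D_R (x : H) : DM J B (Ring.inverse (DM J B) x) = x := by
  have h := Ring.mul_inverse_cancel _ (unitD hJ hpos)
  have := congrArg (fun f : H →L[ℝ] H => f x) h
  simpa using this

include hJ hpos in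
lemma R_D (x : H) : Ring.inverse (DM J B) (DM J B x) = x := by
  have h := Ring.inverse_mul_cancel _ (unitD hJ hpos)
  have := congrArg (fun f : H →L[ℝ] H => f x) h
  simpa using this

include hJ hJJ hpos in
lemma P_R (x : H) : Pp J (Ring.inverse (DM J B) x) = Ring.inverse (DM J B) (Pp J x) := by
  set y := Ring.inverse (DM J B) x with hy
  have hx : x = DM J B y := (D_R hJ hpos x).symm
  have h2 : Pp J (DM J B y) = DM J B (Pp J y) := by
    rw [DM_apply, DM_apply, map_add, Pp_of (J_Pp hJJ y), Pp_of (J_Pp hJJ _)]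
  rw [hx, h2, R_D hJ hpos]

include hJ hB hpos in
lemma R_symm (x y : H) : inner ℝ (Ring.inverse (DM J B) x) y =
    inner ℝ x (Ring.inverse (DM J B) y) := by
  have hD : ∀ a b : H, inner ℝ (DM J B a) b = inner ℝ a (DM J B b) := by
    intro a b
    rw [DM_apply, DM_apply, inner_add_left, inner_add_right, Pp_symm hJ, hB, Pp_symm hJ]
  calc inner ℝ (Ring.inverse (DM J B) x) y
      = inner ℝ (Ring.inverse (DM J B) x) (DM J B (Ring.inverse (DM J B) y)) := by
        rw [D_R hJ hpos y]
    _ = inner ℝ (DM J B (Ring.inverse (DM J B) x)) (Ring.inverse (DM J B) y) := (hD _ _).symm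
    _ = _ := by rw [D_R hJ hpos x]

include hJ hB hpos in
lemma K_symm (x y : H) : inner ℝ (KM J B x) y = inner ℝ x (KM J B y) := by
  rw [KM_apply, KM_apply, inner_sub_left, inner_sub_right]
  congr 1
  · rw [Pm_symm hJ, hB, Pm_symm hJ]
  · rw [Pm_symm hJ, hB, Pp_symm hJ, R_symm hJ hB hpos, Pp_symm hJ, hB, Pm_symm hJ]

include hJ hJJ hpos in
/-- the completion `u = - D⁻¹ P B v` of `v` -/
lemma compl (v : H) (hv : J v = -v) : ∃ u : H, J u = u ∧
    J (u + v) + B (u + v) = -v + KM J B v := by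
  obtain ⟨u, hu⟩ : ∃ u, u = -Ring.inverse (DM J B) (Pp J (B v)) := ⟨_, rfl⟩
  refine ⟨u, ?_, ?_⟩
  · rw [hu, map_neg, ← P_R hJ hJJ hpos, J_Pp hJJ]
  · have hPu : Pp J u = u := by
      rw [hu, map_neg, P_R hJ hJJ hpos, Pp_of (J_Pp hJJ _)]
    have hJu : J u = u := by
      rw [← hPu, J_Pp hJJ]
    have hMv : Pm J v = v := Pm_of hv
    have h1 : Pp J (J (u + v) + B (u + v)) = 0 := by
      have hD : DM J B u = -Pp J (B v) := by
        rw [hu, map_neg, D_R hJ hpos]
      rw [DM_apply, hPu] at hD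
      rw [map_add J, hJu, hv, map_add (Pp J), map_add (Pp J), map_neg, hPu, Pp_zero hv, map_add B,
        map_add (Pp J), neg_zero, add_zero, ← add_assoc, hD, neg_add_cancel]
    have h2 : Pm J (J (u + v) + B (u + v)) = -v + KM J B v := by
      have e : Pp J (Ring.inverse (DM J B) (Pp J (B (Pm J v)))) = -u := by
        rw [hMv, P_R hJ hJJ hpos, Pp_of (J_Pp hJJ _), hu, neg_neg]
      rw [KM_apply, e, hMv, map_neg B, map_neg (Pm J), sub_neg_eq_add, map_add J, hJu, hv,
        map_add (Pm J), map_add (Pm J), Pm_zero hJu, zero_add, map_neg (Pm J), hMv, map_add B,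
        map_add (Pm J)]
      abel
    have h3 := add_PpPm J (J (u + v) + B (u + v))
    rw [h1, h2, zero_add] at h3
    exact h3.symm

include hJJ in
omit [CompleteSpace H] in
lemma J_K (v : H) : J (KM J B v) = -KM J B v := by
  rw [KM_apply, map_sub, J_Pm hJJ, J_Pm hJJ]
  abel

end main

end Idx2

open Idx2 in
theorem I_Idx2 (h : StIdx) : StIdx2 := by
  intro H _ _ _ J B t0 hJs hJJ hcont hB
  have hJ : ∀ x y : H, inner ℝ (J x) y = inner ℝ x (J y) := fun x y => hJs x y
  have hBs : ∀ t ≥ t0, ∀ x y : H, inner ℝ (B t x) y = inner ℝ x (B t y) :=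
    fun t ht x y => (hB t ht).1 x y
  have hc : ContinuousOn (fun t => -KM J (B t)) (Ici t0) := by
    have hD : ContinuousOn (fun t => DM J (B t)) (Ici t0) :=
      continuousOn_const.add ((continuousOn_const.mul hcont).mul continuousOn_const)
    have hR : ContinuousOn (fun t => Ring.inverse (DM J (B t))) (Ici t0) := by
      intro t ht
      obtain ⟨u, hu⟩ := unitD hJ (hB t ht).2.2.1
      have h1 : ContinuousAt Ring.inverse (DM J (B t)) := by
        rw [← hu]
        exact NormedRing.inverse_continuousAt u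
      exact ContinuousAt.comp_continuousWithinAt (g := Ring.inverse)
        (f := fun t => DM J (B t)) h1 (hD t ht)
    refine ContinuousOn.neg ?_
    refine ContinuousOn.sub ((continuousOn_const.mul hcont).mul continuousOn_const) ?_
    exact ((((((continuousOn_const.mul hcont).mul continuousOn_const).mul hR).mul
      continuousOn_const).mul hcont).mul continuousOn_const)
  obtain ⟨N, hN⟩ := h H (fun t => -KM J (B t)) t0 hc (by
    intro t ht
    obtain ⟨h1, h2, h3, h4⟩ := hB t ht
    refine ⟨?_, ?_, ?_⟩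
    · intro x y
      change inner ℝ (-KM J (B t) x) y = inner ℝ x (-KM J (B t) y)
      rw [inner_neg_left, inner_neg_right, K_symm hJ (hBs t ht) h3]
    · have c1 : IsCompactOperator (Pm J * B t * Pm J) :=
        (h2.comp_clm (Pm J)).clm_comp (Pm J)
      have c2 : IsCompactOperator (Pm J * B t * Pp J * Ring.inverse (DM J (B t)) * Pp J * B t *
          Pm J) := by
        have := (h2.comp_clm (Pp J * Ring.inverse (DM J (B t)) * Pp J * B t *
          Pm J)).clm_comp (Pm J)
        exact this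
      exact (c1.sub c2).neg
    · intro v hv
      have hv' : v = KM J (B t) v := by
        have : v + -KM J (B t) v = 0 := hv
        rwa [← sub_eq_add_neg, sub_eq_zero] at this
      have hJv : J v = -v := by
        rw [hv']
        exact J_K hJJ v
      obtain ⟨u, hu1, hu2⟩ := compl (B := B t) hJ hJJ h3 v hJv
      rw [← hv', neg_add_cancel] at hu2
      have h5 := h4 _ hu2
      have h6 : Pm J (u + v) = v := by
        rw [map_add, Pm_zero hu1, Pm_of hJv, zero_add]
      rw [← h6, h5, map_zero])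
  refine ⟨N, ?_⟩
  intro t ht W hW hWJ hpos
  refine hN t ht W hW ?_
  intro w hw hw0
  obtain ⟨h1, h2, h3, h4⟩ := hB t ht
  obtain ⟨u, hu1, hu2⟩ := compl (B := B t) hJ hJJ h3 w (hWJ w hw)
  have h5 := hpos u w hu1 hw hw0
  rw [hu2, inner_add_left] at h5
  have h6 : inner ℝ u (-w + KM J (B t) w) = 0 := by
    have e1 : Pm J (-w + KM J (B t) w) = -w + KM J (B t) w := by
      apply Pm_of
      rw [map_add, map_neg, hWJ w hw, J_K hJJ]
      abel
    rw [← e1, ← Pm_symm hJ, Pm_zero hu1, inner_zero_left]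
  rw [h6, zero_add, inner_add_right, inner_neg_right] at h5
  change inner ℝ w (w + -KM J (B t) w) < 0
  rw [inner_add_right, inner_neg_right]
  linarith

end Pool.Agent.Work.MP_f2af60_mp.Ev
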