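import Pool.Agent.Work.MP_f2af60_mp.Ev.Stmts2

/-! # The mean value inequality -/

set_option autoImplicit false

namespace Pool.Agent.Work.MP_f2af60_mp.Ev

open MeasureTheory Metric Filter Topology Set

namespace Mean

lemma ex_cont {q : ℕ} (t : ℝ) : Continuous fun p : En q × Sp q => ex t p.2 p.1 := by
  unfold ex
  fun_prop

lemma ex_le {q : ℕ} (t : ℝ) (w : Sp q) (x : En q) : ex t w x ≤ Real.exp (|t| * ‖x‖) := by
  unfold ex
  apply Real.exp_le_exp.2
  have h1 := abs_real_inner_le_norm (w : En q) x
  have h2 : ‖(w : En q)‖ = 1 := norm_eq_of_mem_sphere w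
  rw [h2, one_mul] at h1
  calc t * inner ℝ (w : En q) x ≤ |t * inner ℝ (w : En q) x| := le_abs_self _
    _ = |t| * |inner ℝ (w : En q) x| := abs_mul _ _
    _ ≤ |t| * ‖x‖ := mul_le_mul_of_nonneg_left h1 (abs_nonneg _)

lemma ex_pos {q : ℕ} (t : ℝ) (w : Sp q) (x : En q) : 0 < ex t w x := Real.exp_pos _

lemma ex_add {q : ℕ} (t : ℝ) (w : Sp q) (x y : En q) : ex t w (x + y) = ex t w x * ex t w y := by
  unfold ex
  rw [inner_add_right, mul_add, Real.exp_add]

/-- mass of the exponential on a ball -/
noncomputable def mm (q : ℕ) (t d : ℝ) (w : Sp q) : ℝ := ∫ y in ball (0 : En q) d, ex t w y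

lemma mm_indep {q : ℕ} (t d : ℝ) (w w' : Sp q) : mm q t d w = mm q t d w' := by
  let g : En q ≃ₗᵢ[ℝ] En q := ((ℝ ∙ ((w : En q) - w'))ᗮ).reflection
  have hg : g w = w' := Submodule.reflection_sub
    (by rw [norm_eq_of_mem_sphere w, norm_eq_of_mem_sphere w'])
  have hmp : MeasurePreserving g volume volume := g.measurePreserving
  have h1 := hmp.setIntegral_preimage_emb g.toHomeomorph.measurableEmbedding
    (fun y => ex t w' y) (ball 0 d)
  have h2 : g ⁻¹' ball (0 : En q) d = ball 0 d := by
    ext x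
    rw [mem_preimage, mem_ball_zero_iff, mem_ball_zero_iff, g.norm_map]
  unfold mm
  rw [← h1, h2]
  congr 1
  ext x
  unfold ex
  rw [← hg, g.inner_map_map]

lemma integrable_swap {q : ℕ} (t d : ℝ) (f : Sp q → ℝ) (hf : Integrable f (sg q)) (x : En q) :
    Integrable (Function.uncurry fun (y : En q) (w : Sp q) => ex t w (x + y) * f w)
      ((volume.restrict (ball (0 : En q) d)).prod (sg q)) := by
  have hfin : IsFiniteMeasure (volume.restrict (ball (0 : En q) d)) :=
    ⟨by rw [Measure.restrict_apply_univ]; exact measure_ball_lt_top⟩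
  have h1 : Integrable (fun p : En q × Sp q => f p.2)
      ((volume.restrict (ball (0 : En q) d)).prod (sg q)) :=
    hf.comp_snd (volume.restrict (ball (0 : En q) d))
  have hc : Continuous fun p : En q × Sp q => ex t p.2 (x + p.1) := by
    unfold ex
    fun_prop
  have hb : ∀ᵐ p ∂((volume.restrict (ball (0 : En q) d)).prod (sg q)),
      ‖ex t p.2 (x + p.1)‖ ≤ Real.exp (|t| * (‖x‖ + d)) := by
    have h2 : ∀ᵐ y ∂(volume.restrict (ball (0 : En q) d)), y ∈ ball (0 : En q) d :=
      ae_restrict_mem measurableSet_ball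
    have h3 := (Measure.quasiMeasurePreserving_fst
      (μ := volume.restrict (ball (0 : En q) d)) (ν := sg q)).ae h2
    filter_upwards [h3] with p hp
    rw [mem_ball_zero_iff] at hp
    rw [Real.norm_eq_abs, abs_of_pos (ex_pos _ _ _)]
    refine (ex_le _ _ _).trans (Real.exp_le_exp.2 ?_)
    apply mul_le_mul_of_nonneg_left _ (abs_nonneg _)
    exact (norm_add_le _ _).trans (by linarith)
  exact h1.bdd_mul hc.aestronglyMeasurable hb

lemma mean {q : ℕ} (t d : ℝ) (f : Sp q → ℝ) (hf : Integrable f (sg q)) (x : En q) (w0 : Sp q) :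
    ∫ y in ball (0 : En q) d, TT t f (x + y) = mm q t d w0 * TT t f x := by
  unfold TT
  rw [integral_integral_swap (integrable_swap t d f hf x), ← integral_const_mul]
  congr 1
  ext w
  rw [← mm_indep t d w w0]
  unfold mm
  have h : ∀ y : En q, ex t w (x + y) * f w = (ex t w x * f w) * ex t w y := by
    intro y
    rw [ex_add]
    ring
  simp_rw [h]
  rw [integral_const_mul]
  ring

lemma cont_TT {q : ℕ} (t : ℝ) (f : Sp q → ℝ) (hf : Integrable f (sg q)) :
    Continuous (TT t f) := by
  rw [continuous_iff_continuousAt]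
  intro x0
  unfold TT
  apply continuousAt_of_dominated (bound := fun w => Real.exp (|t| * (‖x0‖ + 1)) * ‖f w‖)
  · filter_upwards with x
    have hc : Continuous fun w : Sp q => ex t w x := by
      unfold ex
      fun_prop
    exact hc.aestronglyMeasurable.mul hf.aestronglyMeasurable
  · filter_upwards [ball_mem_nhds x0 one_pos] with x hx
    filter_upwards with w
    rw [norm_mul, Real.norm_eq_abs, abs_of_pos (ex_pos _ _ _)]
    apply mul_le_mul_of_nonneg_right _ (norm_nonneg _)
    refine (ex_le _ _ _).trans (Real.exp_le_exp.2 ?_)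
    apply mul_le_mul_of_nonneg_left _ (abs_nonneg _)
    rw [mem_ball, dist_eq_norm] at hx
    have h1 : ‖x‖ ≤ ‖x0‖ + ‖x - x0‖ := by
      calc ‖x‖ = ‖x0 + (x - x0)‖ := by congr 1; abel
        _ ≤ _ := norm_add_le _ _
    linarith
  · exact hf.norm.const_mul _
  · filter_upwards with w
    apply Continuous.continuousAt
    unfold ex
    fun_prop

lemma cs {X : Type*} [MeasurableSpace X] (μ : Measure X) [IsFiniteMeasure μ] (g : X → ℝ)
    (hg : Integrable g μ) (hg2 : Integrable (fun x => g x ^ 2) μ) (hv : 0 < μ.real univ) :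
    (∫ x, g x ∂μ) ^ 2 ≤ μ.real univ * ∫ x, g x ^ 2 ∂μ := by
  set v := μ.real univ with hvdef
  set I := ∫ x, g x ∂μ with hI
  have h1 : 0 ≤ ∫ x, (v * g x - I) ^ 2 ∂μ := integral_nonneg fun x => sq_nonneg _
  have h2 : (fun x => (v * g x - I) ^ 2) =
      fun x => v ^ 2 * g x ^ 2 - 2 * v * I * g x + I ^ 2 := by
    ext x
    ring
  have e1 := integral_add (μ := μ) (f := fun x => v ^ 2 * g x ^ 2 - 2 * v * I * g x)
    (g := fun _ => I ^ 2) ((hg2.const_mul (v ^ 2)).sub (hg.const_mul (2 * v * I)))
    (integrable_const _)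
  have e2 := integral_sub (μ := μ) (f := fun x => v ^ 2 * g x ^ 2)
    (g := fun x => 2 * v * I * g x) (hg2.const_mul (v ^ 2)) (hg.const_mul (2 * v * I))
  rw [h2, e1, e2, integral_const_mul, integral_const_mul,
    integral_const, ← hI, ← hvdef, smul_eq_mul] at h1
  have h3 : 0 ≤ v * (v * (∫ x, g x ^ 2 ∂μ) - I ^ 2) := by
    calc (0 : ℝ) ≤ _ := h1
      _ = _ := by ring
  have h4 := nonneg_of_mul_nonneg_right h3 hv
  linarith

lemma mm_ge {q : ℕ} (t d : ℝ) (hd : 0 < d) (ht : 0 ≤ t) (w : Sp q) :
    volume.real (ball ((3 / 4 * d) • (w : En q)) (d / 8)) * Real.exp (t * (d / 2)) ≤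
      mm q t d w := by
  have hw : ‖(w : En q)‖ = 1 := norm_eq_of_mem_sphere w
  have hc : Continuous fun y : En q => ex t w y := by
    unfold ex
    fun_prop
  have hint : ∀ (p : En q) (r : ℝ), IntegrableOn (fun y : En q => ex t w y) (ball p r) := fun p r =>
    (hc.continuousOn.integrableOn_compact (isCompact_closedBall p r)).mono_set
      ball_subset_closedBall
  have hsub : ball ((3 / 4 * d) • (w : En q)) (d / 8) ⊆ ball 0 d := by
    intro y hy
    rw [mem_ball, dist_eq_norm] at hy
    rw [mem_ball_zero_iff]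
    have h1 : ‖(3 / 4 * d) • (w : En q)‖ = 3 / 4 * d := by
      rw [norm_smul, hw, mul_one, Real.norm_eq_abs, abs_of_pos (by positivity)]
    calc ‖y‖ = ‖(3 / 4 * d) • (w : En q) + (y - (3 / 4 * d) • (w : En q))‖ := by congr 1; abel
      _ ≤ ‖(3 / 4 * d) • (w : En q)‖ + ‖y - (3 / 4 * d) • (w : En q)‖ := norm_add_le _ _
      _ < d := by rw [h1]; linarith
  unfold mm
  calc volume.real (ball ((3 / 4 * d) • (w : En q)) (d / 8)) * Real.exp (t * (d / 2))
      = ∫ y in ball ((3 / 4 * d) • (w : En q)) (d / 8), Real.exp (t * (d / 2)) := by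
        rw [setIntegral_const, smul_eq_mul]
    _ ≤ ∫ y in ball ((3 / 4 * d) • (w : En q)) (d / 8), ex t w y := by
        apply setIntegral_mono_on _ (hint _ _) measurableSet_ball
        · intro y hy
          unfold ex
          apply Real.exp_le_exp.2
          apply mul_le_mul_of_nonneg_left _ ht
          rw [mem_ball, dist_eq_norm] at hy
          have h1 : inner ℝ (w : En q) y = 3 / 4 * d +
              inner ℝ (w : En q) (y - (3 / 4 * d) • (w : En q)) := by
            rw [inner_sub_right, real_inner_smul_right, real_inner_self_eq_norm_sq, hw]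
            ring
          have h2 := abs_real_inner_le_norm (w : En q) (y - (3 / 4 * d) • (w : En q))
          rw [hw, one_mul] at h2
          have h3 := neg_abs_le (inner ℝ (w : En q) (y - (3 / 4 * d) • (w : En q)))
          rw [h1]
          linarith
        · exact (continuous_const.continuousOn.integrableOn_compact
            (isCompact_closedBall _ _)).mono_set ball_subset_closedBall
    _ ≤ ∫ y in ball (0 : En q) d, ex t w y :=
        setIntegral_mono_set (hint _ _) (Eventually.of_forall fun y => (ex_pos _ _ _).le)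
          (Eventually.of_forall hsub)

/-- the main inequality -/
lemma main {q : ℕ} (Om : Set (En q)) (δ : ℝ) (hOm : IsCompact Om) (hne : Om.Nonempty)
    (hδ : 0 < δ) (t : ℝ) (f : Sp q → ℝ) (hf : Integrable f (sg q)) (w0 : Sp q) :
    (mm q t (δ / 2) w0) ^ 2 * ∫ x in Om, (TT t f x) ^ 2 ≤
      (volume.real (ball (0 : En q) (δ / 2))) ^ 2 *
        ((∫ x in Om, (TT t f x) ^ 2) + ∫ x in Coll Om δ, (TT t f x) ^ 2) := by
  have hd : 0 < δ / 2 := by linarith
  set S : Set (En q) := ball 0 (δ / 2) with hS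
  have hSc : S ⊆ closedBall 0 (δ / 2) := ball_subset_closedBall
  set v : ℝ := volume.real S with hv
  have hvpos : 0 < v := by
    rw [hv, Measure.real]
    exact ENNReal.toReal_pos (measure_ball_pos _ _ hd).ne' measure_ball_lt_top.ne
  have hu := cont_TT t f hf
  have hu2 : Continuous fun x => (TT t f x) ^ 2 := hu.pow 2
  have hint : ∀ K : Set (En q), IsCompact K → IntegrableOn (fun x => (TT t f x) ^ 2) K :=
    fun K hK => hu2.continuousOn.integrableOn_compact hK
  have hColl : MeasurableSet (Coll Om δ) := by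
    have hc : Continuous fun x : En q => infDist x Om := continuous_infDist_pt Om
    exact ((isOpen_lt continuous_const hc).inter (isOpen_lt hc continuous_const)).measurableSet
  have hthick : Om ∪ Coll Om δ ⊆ cthickening δ Om := by
    apply union_subset
    · exact self_subset_cthickening Om
    · intro x hx
      obtain ⟨y, hy, hxy⟩ := (infDist_lt_iff hne).1 hx.2
      exact mem_cthickening_of_dist_le x y δ Om hy hxy.le
  have hKc : IsCompact (cthickening δ Om) := hOm.cthickening
  have hintU : IntegrableOn (fun x => (TT t f x) ^ 2) (Om ∪ Coll Om δ) :=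
    (hint _ hKc).mono_set hthick
  have hAB : ∫ x in Om ∪ Coll Om δ, (TT t f x) ^ 2 =
      (∫ x in Om, (TT t f x) ^ 2) + ∫ x in Coll Om δ, (TT t f x) ^ 2 := by
    apply setIntegral_union _ hColl (hint _ hOm) (hintU.mono_set subset_union_right)
    rw [Set.disjoint_left]
    intro x hx hx'
    have := hx'.1
    rw [infDist_zero_of_mem hx] at this
    exact lt_irrefl _ this
  -- product integrability
  have hprod : Integrable (Function.uncurry fun (x y : En q) => (TT t f (x + y)) ^ 2)
      ((volume.restrict Om).prod (volume.restrict S)) := by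
    rw [Measure.prod_restrict]
    have hc : Continuous (Function.uncurry fun (x y : En q) => (TT t f (x + y)) ^ 2) :=
      hu2.comp (continuous_fst.add continuous_snd)
    have h1 : IntegrableOn (Function.uncurry fun (x y : En q) => (TT t f (x + y)) ^ 2)
        (Om ×ˢ closedBall 0 (δ / 2)) (volume.prod volume) :=
      hc.continuousOn.integrableOn_compact (hOm.prod (isCompact_closedBall _ _))
    exact h1.mono_set (prod_mono le_rfl hSc)
  have hshift : ∀ y ∈ S, ∫ x in Om, (TT t f (x + y)) ^ 2 ≤ ∫ x in Om ∪ Coll Om δ, (TT t f x) ^ 2 := by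
    intro y hy
    have h1 := (measurePreserving_add_right (volume : Measure (En q)) y).setIntegral_preimage_emb
      (measurableEmbedding_addRight y) (fun z => (TT t f z) ^ 2) (Om ∪ Coll Om δ)
    have hi : IntegrableOn (fun x => (TT t f (x + y)) ^ 2) ((fun x => x + y) ⁻¹' (Om ∪ Coll Om δ)) :=
      ((measurePreserving_add_right (volume : Measure (En q)) y).integrableOn_comp_preimage
        (measurableEmbedding_addRight y)).2 hintU
    rw [← h1]
    apply setIntegral_mono_set hi (Eventually.of_forall fun x => sq_nonneg _)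
    apply Eventually.of_forall
    intro x hx
    show x + y ∈ Om ∪ Coll Om δ
    have h2 : infDist (x + y) Om < δ := by
      calc infDist (x + y) Om ≤ dist (x + y) x := infDist_le_dist_of_mem hx
        _ = ‖y‖ := by rw [dist_eq_norm]; congr 1; abel
        _ < δ / 2 := mem_ball_zero_iff.1 hy
        _ < δ := by linarith
    rcases eq_or_lt_of_le (infDist_nonneg (x := x + y) (s := Om)) with h | h
    · left
      exact (hOm.isClosed.mem_iff_infDist_zero hne).2 h.symm
    · right
      exact ⟨h, h2⟩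
  have hfin : IsFiniteMeasure (volume.restrict S) :=
    ⟨by rw [Measure.restrict_apply_univ]; exact measure_ball_lt_top⟩
  have hvS : (volume.restrict S).real univ = v := by
    rw [Measure.real, Measure.restrict_apply_univ]
    rfl
  have hpt : ∀ x : En q, (mm q t (δ / 2) w0) ^ 2 * (TT t f x) ^ 2 ≤
      v * ∫ y in S, (TT t f (x + y)) ^ 2 := by
    intro x
    have hc1 : Continuous fun y => TT t f (x + y) := hu.comp (continuous_const.add continuous_id)
    have h1 := cs (volume.restrict S) (fun y => TT t f (x + y))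
      ((hc1.continuousOn.integrableOn_compact (isCompact_closedBall _ _)).mono_set hSc)
      (((hc1.pow 2).continuousOn.integrableOn_compact (isCompact_closedBall _ _)).mono_set hSc)
      (by rw [hvS]; exact hvpos)
    rw [hvS, mean t (δ / 2) f hf x w0, mul_pow] at h1
    exact h1
  calc (mm q t (δ / 2) w0) ^ 2 * ∫ x in Om, (TT t f x) ^ 2
      = ∫ x in Om, (mm q t (δ / 2) w0) ^ 2 * (TT t f x) ^ 2 := by rw [integral_const_mul]
    _ ≤ ∫ x in Om, v * ∫ y in S, (TT t f (x + y)) ^ 2 := by
        apply integral_mono ((hint _ hOm).const_mul _) (hprod.integral_prod_left.const_mul _)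
        intro x
        exact hpt x
    _ = v * ∫ x in Om, ∫ y in S, (TT t f (x + y)) ^ 2 := by rw [integral_const_mul]
    _ = v * ∫ y in S, ∫ x in Om, (TT t f (x + y)) ^ 2 := by rw [integral_integral_swap hprod]
    _ ≤ v * ∫ _y in S, ∫ x in Om ∪ Coll Om δ, (TT t f x) ^ 2 := by
        apply mul_le_mul_of_nonneg_left _ hvpos.le
        apply setIntegral_mono_on hprod.integral_prod_right (integrable_const _) measurableSet_ball
        exact hshift
    _ = v ^ 2 * ((∫ x in Om, (TT t f x) ^ 2) + ∫ x in Coll Om δ, (TT t f x) ^ 2) := by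
        rw [setIntegral_const, smul_eq_mul, hAB]
        ring

end Mean

open Mean in
theorem I_Mean : StMean := by
  intro q Om δ hOm hne hδ ε hε
  have hd : 0 < δ / 2 := by linarith
  obtain ⟨w0⟩ : Nonempty (Sp q) := ⟨⟨EuclideanSpace.single 0 1, by simp⟩⟩
  set v : ℝ := volume.real (ball (0 : En q) (δ / 2)) with hv
  have hvpos : 0 < v := by
    rw [hv, Measure.real]
    exact ENNReal.toReal_pos (measure_ball_pos _ _ hd).ne' measure_ball_lt_top.ne
  set v' : ℝ := volume.real (ball ((3 / 4 * (δ / 2)) • (w0 : En q)) (δ / 2 / 8)) with hv'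
  have hv'pos : 0 < v' := by
    rw [hv', Measure.real]
    exact ENNReal.toReal_pos (measure_ball_pos _ _ (by positivity)).ne' measure_ball_lt_top.ne
  refine ⟨max 0 ((v * (1 + 1 / ε) / v') / (δ / 2 / 2)), ?_⟩
  intro t ht f hf
  have ht0 : 0 ≤ t := (le_max_left _ _).trans ht
  have ht1 : (v * (1 + 1 / ε) / v') / (δ / 2 / 2) ≤ t := (le_max_right _ _).trans ht
  have hm : v * (1 + 1 / ε) ≤ mm q t (δ / 2) w0 := by
    refine le_trans ?_ (mm_ge t (δ / 2) hd ht0 w0)
    rw [div_le_iff₀ (by positivity)] at ht1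
    have h1 := Real.add_one_le_exp (t * (δ / 2 / 2))
    have h2 : v * (1 + 1 / ε) / v' ≤ Real.exp (t * (δ / 2 / 2)) := by linarith
    rw [div_le_iff₀ hv'pos] at h2
    linarith
  have hmain := main Om δ hOm hne hδ t f hf w0
  set A := ∫ x in Om, (TT t f x) ^ 2 with hA
  set B := ∫ x in Coll Om δ, (TT t f x) ^ 2 with hB
  have hA0 : 0 ≤ A := integral_nonneg fun x => sq_nonneg _
  have h1 : (v * (1 + 1 / ε)) ^ 2 ≤ (mm q t (δ / 2) w0) ^ 2 :=
    pow_le_pow_left₀ (by positivity) hm 2
  have h2 : (v * (1 + 1 / ε)) ^ 2 * A ≤ v ^ 2 * (A + B) :=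
    (mul_le_mul_of_nonneg_right h1 hA0).trans hmain
  have h3 : (1 + 1 / ε) ^ 2 * A ≤ A + B := by
    have h4 : v ^ 2 * ((1 + 1 / ε) ^ 2 * A) ≤ v ^ 2 * (A + B) := by
      calc v ^ 2 * ((1 + 1 / ε) ^ 2 * A) = (v * (1 + 1 / ε)) ^ 2 * A := by ring
        _ ≤ _ := h2
    exact le_of_mul_le_mul_left h4 (by positivity)
  have h5 : (1 / ε) * A ≤ B := by
    have h6 : 0 < 1 / ε := by positivity
    have h7 : 0 ≤ (1 / ε) ^ 2 * A := by positivity
    have h8 : 0 ≤ (1 / ε) * A := by positivity
    have h9 : (1 + 1 / ε) ^ 2 * A = A + 2 * (1 / ε * A) + (1 / ε) ^ 2 * A := by ring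
    linarith
  have h10 := mul_le_mul_of_nonneg_left h5 hε.le
  have h11 : ε * (1 / ε * A) = A := by field_simp
  linarith

end Pool.Agent.Work.MP_f2af60_mp.Ev
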