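import Pool.Agent.Work.MP_f2af60_mp.Ev.Stmts2

/-!
# MP_f2af60_mp, project Ev: reduction of a shell to a collar containing the origin, by translation.
-/

set_option autoImplicit false

namespace Pool.Agent.Work.MP_f2af60_mp.Ev

open MeasureTheory Metric Filter Topology Set

namespace ShellAux

theorem exists_coll {q : ℕ} {Om : Set (En q)} {δ : ℝ} (hc : IsCompact Om) (hn : Om.Nonempty)
    (hδ : 0 < δ) : ∃ x1, x1 ∈ Coll Om δ := by
  obtain ⟨r, hr⟩ := hc.isBounded.subset_closedBall (0 : En q)
  have hcont : Continuous (fun x : En q => infDist x Om) := continuous_infDist_pt Om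
  have hlow : ∃ a : En q, infDist a Om ≤ δ / 2 := by
    obtain ⟨a, ha⟩ := hn
    exact ⟨a, by rw [infDist_zero_of_mem ha]; positivity⟩
  have hhigh : ∃ b : En q, δ / 2 ≤ infDist b Om := by
    refine ⟨EuclideanSpace.single 0 (|r| + δ), (le_infDist hn).2 ?_⟩
    intro y hy
    have h1 : ‖y‖ ≤ r := by simpa using hr hy
    have h2 : ‖(EuclideanSpace.single 0 (|r| + δ) : En q)‖ = |r| + δ := by
      rw [PiLp.norm_single, Real.norm_eq_abs]
      exact abs_of_pos (by positivity)
    have h3 := norm_sub_norm_le (EuclideanSpace.single 0 (|r| + δ) : En q) y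
    have h4 := le_abs_self r
    rw [dist_eq_norm]
    linarith
  obtain ⟨x, hx⟩ := mem_range_of_exists_le_of_exists_ge hcont hlow hhigh
  have hx' : infDist x Om = δ / 2 := hx
  exact ⟨x, by rw [hx']; positivity, by rw [hx']; linarith⟩

theorem infDist_trans {q : ℕ} (Om : Set (En q)) (c x : En q) :
    infDist x {x | x + c ∈ Om} = infDist (x + c) Om := by
  have h1 : (fun x : En q => x + c) '' {x | x + c ∈ Om} = Om := by
    ext y
    constructor
    · rintro ⟨x, hx, rfl⟩
      exact hx
    · intro hy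
      exact ⟨y - c, by simpa using hy, by simp⟩
  have h2 : Isometry (fun x : En q => x + c) := isometry_add_right c
  have h3 := infDist_image (x := x) (t := {x | x + c ∈ Om}) h2
  rw [h1] at h3
  exact h3.symm

theorem pot_trans {q : ℕ} {V : En q → ℝ} {R M : ℝ} (h : Pot q V R M) (c : En q) :
    Pot q (fun x => V (x + c)) (R + ‖c‖) M where
  hR := by have := h.hR; positivity
  meas := h.meas.comp (measurable_add_const c)
  bdd := fun x => h.bdd _
  supp := by
    intro x hx
    apply h.supp
    have h1 : ‖x‖ ≤ ‖x + c‖ + ‖c‖ := by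
      have := norm_sub_le (x + c) c
      simpa using this
    linarith

theorem shell_trans {q : ℕ} {V : En q → ℝ} {Om : Set (En q)} {δ k ε : ℝ}
    (h : Shell q V Om δ k ε) (c : En q) :
    Shell q (fun x => V (x + c)) {x | x + c ∈ Om} δ k ε where
  sgn := h.sgn
  cpt := (Homeomorph.addRight c).isCompact_preimage.2 h.cpt
  ne := by
    obtain ⟨a, ha⟩ := h.ne
    exact ⟨a - c, by simpa using ha⟩
  δ_pos := h.δ_pos
  c_pos := h.c_pos
  off := by
    have h1 := (measurePreserving_add_right (volume : Measure (En q)) c).quasiMeasurePreserving.ae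
      h.off
    filter_upwards [h1] with x hx hxo
    exact hx hxo
  coll := by
    have h1 := (measurePreserving_add_right (volume : Measure (En q)) c).quasiMeasurePreserving.ae
      h.coll
    filter_upwards [h1] with x hx hxo
    apply hx
    obtain ⟨h2, h3⟩ := hxo
    rw [infDist_trans] at h2 h3
    exact ⟨h2, h3⟩

end ShellAux

theorem I_Shell (h0 : StShell0) (ht : StTrans) : StShell := by
  intro q hq V R M hV Om δ c ε hS T
  obtain ⟨x1, hx1⟩ := ShellAux.exists_coll hS.cpt hS.ne hS.δ_pos
  have hmem : (0 : En q) ∈ Coll {x | x + x1 ∈ Om} δ := by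
    obtain ⟨h2, h3⟩ := hx1
    refine ⟨?_, ?_⟩
    · rw [ShellAux.infDist_trans, zero_add]; exact h2
    · rw [ShellAux.infDist_trans, zero_add]; exact h3
  obtain ⟨t, htT, hres⟩ := h0 q hq (fun x => V (x + x1)) (R + ‖x1‖) M (ShellAux.pot_trans hV x1)
    {x | x + x1 ∈ Om} δ c ε (ShellAux.shell_trans hS x1) hmem T
  exact ⟨t, htT, ht q V x1 _ hres⟩

end Pool.Agent.Work.MP_f2af60_mp.Ev
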