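import Pool.Agent.Work.MP_f2af60_mp.Ev.Stmts2
import Pool.Agent.Work.MP_f2af60_mp.Bd.B05

/-!
# MP_f2af60_mp, project Ev, part 2, item Shell0: purely imaginary resonances of potentials with a
positive shell, the collar containing the origin
-/

set_option autoImplicit false

namespace Pool.Agent.Work.MP_f2af60_mp.Ev

open MeasureTheory Metric Filter Topology Set

namespace Shell0

variable {q : ℕ}

lemma ex_cont (t : ℝ) (x : En q) : Continuous fun w : Sp q => ex t w x := by
  unfold ex; fun_prop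

lemma ex_bdd (t : ℝ) (w : Sp q) (x : En q) : ‖ex t w x‖ ≤ Real.exp (|t| * ‖x‖) := by
  unfold ex
  rw [Real.norm_eq_abs, Real.abs_exp]
  apply Real.exp_le_exp.2
  have h1 : |inner ℝ (w : En q) x| ≤ ‖(w : En q)‖ * ‖x‖ := abs_real_inner_le_norm _ _
  have h2 : ‖(w : En q)‖ = 1 := by simp
  rw [h2, one_mul] at h1
  calc t * inner ℝ (w : En q) x ≤ |t * inner ℝ (w : En q) x| := le_abs_self _
    _ = |t| * |inner ℝ (w : En q) x| := abs_mul _ _
    _ ≤ |t| * ‖x‖ := mul_le_mul_of_nonneg_left h1 (abs_nonneg _)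

lemma lp_int (f : Lp ℝ 2 (sg q)) : Integrable (f : Sp q → ℝ) (sg q) :=
  (Lp.memLp f).integrable (by norm_num)

lemma ex_int (t : ℝ) (x : En q) {f : Sp q → ℝ} (hf : Integrable f (sg q)) :
    Integrable (fun w => ex t w x * f w) (sg q) :=
  hf.bdd_mul (c := Real.exp (|t| * ‖x‖)) (ex_cont t x).aestronglyMeasurable
    (Eventually.of_forall fun w => ex_bdd t w x)

lemma TT_cont (t : ℝ) {f : Sp q → ℝ} (hf : Integrable f (sg q)) : Continuous (TT t f) := by
  rw [continuous_iff_continuousAt]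
  intro x
  unfold TT
  refine continuousAt_of_dominated (bound := fun w => Real.exp (|t| * (‖x‖ + 1)) * |f w|)
    ?_ ?_ ?_ ?_
  · exact Eventually.of_forall fun y => (ex_int t y hf).aestronglyMeasurable
  · filter_upwards [ball_mem_nhds x one_pos] with y hy
    refine Eventually.of_forall fun w => ?_
    rw [norm_mul, Real.norm_eq_abs (f w)]
    refine mul_le_mul_of_nonneg_right ((ex_bdd t w y).trans (Real.exp_le_exp.2 ?_)) (abs_nonneg _)
    refine mul_le_mul_of_nonneg_left ?_ (abs_nonneg _)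
    have h1 : ‖y‖ ≤ ‖x‖ + ‖y - x‖ := by
      have := norm_add_le x (y - x)
      rwa [add_sub_cancel] at this
    have h2 : ‖y - x‖ < 1 := by rwa [mem_ball, dist_eq_norm] at hy
    linarith
  · exact hf.abs.const_mul _
  · exact Eventually.of_forall fun w => by unfold ex; fun_prop

lemma TT_congr (t : ℝ) {f g : Sp q → ℝ} (h : f =ᵐ[sg q] g) (x : En q) : TT t f x = TT t g x := by
  unfold TT
  refine integral_congr_ae ?_
  filter_upwards [h] with w hw
  rw [hw]

lemma TT_add (t : ℝ) (u w : Lp ℝ 2 (sg q)) (x : En q) :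
    TT t ((u + w : Lp ℝ 2 (sg q)) : Sp q → ℝ) x = TT t u x + TT t w x := by
  rw [TT_congr t (Lp.coeFn_add u w) x]
  unfold TT
  rw [← integral_add (ex_int t x (lp_int u)) (ex_int t x (lp_int w))]
  congr 1
  funext y
  rw [Pi.add_apply, mul_add]

lemma TT_par (t : ℝ) {f : Sp q → ℝ} {s : ℝ} (h : ∀ᵐ w ∂(sg q), f (-w) = s * f w) (x : En q) :
    TT t f (-x) = s * TT t f x := by
  unfold TT
  have h1 : ∫ w : Sp q, ex t w (-x) * f w ∂(sg q) = ∫ w : Sp q, ex t (-w) (-x) * f (-w) ∂(sg q) := by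
    have h2 := (Cap.neg_preserving q).integral_comp
      (MeasurableEquiv.neg (Sp q)).measurableEmbedding (fun w => ex t w (-x) * f w)
    exact h2.symm
  rw [h1, ← integral_const_mul]
  refine integral_congr_ae ?_
  filter_upwards [h] with w hw
  rw [hw]
  have h3 : ex t (-w) (-x) = ex t w x := by
    unfold ex
    congr 2
    show inner ℝ (-(w : En q)) (-x) = _
    rw [inner_neg_neg]
  rw [h3]
  ring

/-- cross terms vanish -/
lemma cross (t r : ℝ) (u w : Lp ℝ 2 (sg q)) {s : ℝ} (hs : s * s = 1)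
    (hu : ∀ᵐ v ∂(sg q), u (-v) = s * u v) (hw : ∀ᵐ v ∂(sg q), w (-v) = (-s) * w v) :
    ∫ y in ball (0 : En q) r, (TT t w y) ^ 2 ≤
      ∫ y in ball (0 : En q) r, (TT t ((u + w : Lp ℝ 2 (sg q)) : Sp q → ℝ) y) ^ 2 := by
  have hcu : Continuous (TT t (u : Sp q → ℝ)) := TT_cont t (lp_int u)
  have hcw : Continuous (TT t (w : Sp q → ℝ)) := TT_cont t (lp_int w)
  have hI : ∀ {F : En q → ℝ}, Continuous F → IntegrableOn F (ball (0 : En q) r) := fun hF =>
    (hF.continuousOn.integrableOn_compact (isCompact_closedBall _ _)).mono_set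
      ball_subset_closedBall
  have h0 : ∫ y in ball (0 : En q) r, TT t (u : Sp q → ℝ) y * TT t (w : Sp q → ℝ) y = 0 := by
    have h1 : ∫ y in ball (0 : En q) r, TT t (u : Sp q → ℝ) y * TT t (w : Sp q → ℝ) y =
        - ∫ y in ball (0 : En q) r, TT t (u : Sp q → ℝ) y * TT t (w : Sp q → ℝ) y := by
      rw [← integral_neg, ← integral_indicator measurableSet_ball,
        ← integral_indicator measurableSet_ball, ← integral_neg_eq_self]
      congr 1
      funext y
      by_cases hy : y ∈ ball (0 : En q) r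
      · have hy' : -y ∈ ball (0 : En q) r := by
          rw [mem_ball_zero_iff] at hy ⊢
          rwa [norm_neg]
        rw [indicator_of_mem hy', indicator_of_mem hy, TT_par t hu, TT_par t hw]
        linear_combination -(TT t (u : Sp q → ℝ) y * TT t (w : Sp q → ℝ) y) * hs
      · have hy' : -y ∉ ball (0 : En q) r := by
          rw [mem_ball_zero_iff] at hy ⊢
          rwa [norm_neg]
        rw [indicator_of_notMem hy', indicator_of_notMem hy]
    linarith
  have h2 : ∫ y in ball (0 : En q) r, (TT t ((u + w : Lp ℝ 2 (sg q)) : Sp q → ℝ) y) ^ 2 =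
      (∫ y in ball (0 : En q) r, (TT t (u : Sp q → ℝ) y) ^ 2) +
      2 * (∫ y in ball (0 : En q) r, TT t (u : Sp q → ℝ) y * TT t (w : Sp q → ℝ) y) +
      ∫ y in ball (0 : En q) r, (TT t (w : Sp q → ℝ) y) ^ 2 := by
    rw [← integral_const_mul, ← integral_add (hI (by fun_prop)) (hI (by fun_prop)),
      ← integral_add (hI (by fun_prop)) (hI (by fun_prop))]
    congr 1
    funext y
    rw [TT_add]
    ring
  rw [h2, h0]
  have h3 : 0 ≤ ∫ y in ball (0 : En q) r, (TT t (u : Sp q → ℝ) y) ^ 2 :=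
    integral_nonneg fun y => sq_nonneg _
  linarith

/-- the antipodal operator -/
noncomputable def J0 (q : ℕ) : Lp ℝ 2 (sg q) →ₗᵢ[ℝ] Lp ℝ 2 (sg q) :=
  Lp.compMeasurePreservingₗᵢ ℝ (fun w : Sp q => -w) (Cap.neg_preserving q)

lemma J0_ae (v : Lp ℝ 2 (sg q)) : (J0 q v : Sp q → ℝ) =ᵐ[sg q] fun w => v (-w) :=
  Lp.coeFn_compMeasurePreserving v (Cap.neg_preserving q)

lemma ae_neg {P : Sp q → Prop} (h : ∀ᵐ w ∂(sg q), P w) : ∀ᵐ w ∂(sg q), P (-w) :=
  (Cap.neg_preserving q).quasiMeasurePreserving.ae h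

lemma J0_J0 (v : Lp ℝ 2 (sg q)) : J0 q (J0 q v) = v := by
  apply Lp.ext
  filter_upwards [J0_ae (J0 q v), ae_neg (J0_ae v)] with w h1 h2
  rw [h1, h2, neg_neg]

lemma J0_inner (u v : Lp ℝ 2 (sg q)) : inner ℝ (J0 q u) v = inner ℝ u (J0 q v) := by
  conv_lhs => rw [← J0_J0 v]
  exact (J0 q).inner_map_map u (J0 q v)

/-- the second component reversed -/
noncomputable def rv (q : ℕ) : C(Sp q × Sp q, Sp q × Sp q) where
  toFun p := (p.1, -p.2)
  continuous_toFun := by fun_prop

/-- classes of linear combinations -/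
lemma sum_ae {m : ℕ} (f : Fin m → Sp q → ℝ) (hf : ∀ i, MemLp (f i) 2 (sg q)) (x : Fin m → ℝ) :
    ((∑ i, x i • (hf i).toLp (f i) : Lp ℝ 2 (sg q)) : Sp q → ℝ) =ᵐ[sg q]
      fun w => ∑ i, x i * f i w := by
  have h1 : ((∑ i, x i • (hf i).toLp (f i) : Lp ℝ 2 (sg q)) : Sp q → ℝ) =ᵐ[sg q]
      ∑ i, ((x i • (hf i).toLp (f i) : Lp ℝ 2 (sg q)) : Sp q → ℝ) := Lp.coeFn_finsetSum _ _
  have h2 : ∀ i, ((x i • (hf i).toLp (f i) : Lp ℝ 2 (sg q)) : Sp q → ℝ) =ᵐ[sg q]
      fun w => x i * f i w := by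
    intro i
    filter_upwards [Lp.coeFn_smul (x i) ((hf i).toLp (f i)), (hf i).coeFn_toLp] with w h3 h4
    rw [h3, Pi.smul_apply, h4, smul_eq_mul]
  have h3 : ∀ᵐ w ∂(sg q), ∀ i, ((x i • (hf i).toLp (f i) : Lp ℝ 2 (sg q)) : Sp q → ℝ) w =
      x i * f i w := ae_all_iff.2 h2
  filter_upwards [h1, h3] with w h4 h5
  rw [h4, Finset.sum_apply]
  exact Finset.sum_congr rfl fun i _ => h5 i

lemma inner_self_int (f : Lp ℝ 2 (sg q)) : inner ℝ f f = ∫ w, (f w) ^ 2 ∂(sg q) := by
  rw [L2.inner_def]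
  congr 1
  funext w
  simp [sq]

/-- pulling the constants out of the form -/
lemma form_const (a : ℝ) (κ : Sp q → Sp q → ℝ) (f g : Sp q → ℝ) :
    ∫ x, g x * ∫ y, (a * κ x y) * f y ∂(sg q) ∂(sg q) =
      a * ∫ x, g x * ∫ y, κ x y * f y ∂(sg q) ∂(sg q) := by
  rw [← integral_const_mul]
  congr 1
  funext x
  have h : ∀ y, (a * κ x y) * f y = a * (κ x y * f y) := fun y => by ring
  simp only [h]
  rw [integral_const_mul]
  ring

lemma kp_mono {t : ℝ} (ht : 1 ≤ t) : kp q 1 ≤ kp q t := by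
  unfold kp
  rw [one_pow]
  exact div_le_div_of_nonneg_right (one_le_pow₀ ht) (by positivity)

lemma kp_pos {t : ℝ} (ht : 0 < t) : 0 < kp q t := by
  unfold kp
  positivity

end Shell0

open Shell0 in
/-- S6 -/
theorem I_Shell0 (h7 : StPack) (h8 : StSym) (h9 : StKCont) (h10 : StRes) (h11 : StOpK)
    (hI : StIdx2) (hF : StForm) (hT : StTest2) : StShell0 := by
  intro q hq V R M hV Om δ c ε hS h0 T
  by_contra hcon
  push Not at hcon
  obtain ⟨P⟩ := h7 q hq V R M hV
  obtain ⟨k, hk, hkc⟩ := h9 q hq V R M hV P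
  obtain ⟨Op, hOp1, hOpc, hOp2, hOps⟩ := h11 (Sp q) (sg q)
  obtain ⟨tF, htFP, htF⟩ := hF q hq V R M hV P Om δ c ε hS
  have hεε : ε * ε = 1 := by rcases hS.sgn with h | h <;> rw [h] <;> norm_num
  have hss : ((-1 : ℝ) ^ q) * ((-1 : ℝ) ^ q) = 1 := by
    rw [← pow_add, ← two_mul, pow_mul]; simp
  set σ : ℝ := (-1 : ℝ) ^ q * ε with hσ
  have hσσ : σ * σ = 1 := by
    rw [hσ]; linear_combination ε * ε * hss + hεε
  have hc : 0 < c := hS.c_pos
  -- the ball in the collar
  have hopen : IsOpen (Coll Om δ) := by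
    have h1 : Continuous fun x : En q => infDist x Om := continuous_infDist_pt Om
    exact (isOpen_lt continuous_const h1).inter (isOpen_lt h1 continuous_const)
  obtain ⟨r, hr, hrC⟩ := Metric.isOpen_iff.1 hopen 0 h0
  -- the operators
  set J : Lp ℝ 2 (sg q) →L[ℝ] Lp ℝ 2 (sg q) := σ • (J0 q).toContinuousLinearMap with hJ
  have hJa : ∀ v, J v = σ • J0 q v := fun v => rfl
  set k' : ℝ → C(Sp q × Sp q, ℝ) := fun t => σ • (k t).comp (rv q) with hk'
  have hk'e : ∀ t ≥ P.t0, ∀ w w', k' t (w, w') = (ε * kp q t) * aa P t w w' := by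
    intro t ht w w'
    have h1 : k' t (w, w') = σ * k t (w, -w') := rfl
    rw [h1, hk t ht, hσ]
    unfold kk
    rw [neg_neg]
    linear_combination (ε * kp q t * aa P t w w') * hss
  set t0 : ℝ := max tF (T + 1) with ht0
  have ht0F : tF ≤ t0 := le_max_left _ _
  have ht0P : P.t0 ≤ t0 := htFP.trans ht0F
  have ht0T : T + 1 ≤ t0 := le_max_right _ _
  have ht01 : 1 ≤ t0 := P.t0_ge.trans ht0P
  have hcont : ContinuousOn (fun t => Op (k' t)) (Ici t0) := by
    have h1 : ContinuousOn k' (Ici P.t0) :=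
      ((ContinuousMap.continuous_precomp (rv q)).comp_continuousOn hkc).const_smul σ
    exact Op.continuous.comp_continuousOn (h1.mono (Ici_subset_Ici.2 ht0P))
  -- the lower bound for the form
  have hform : ∀ t ≥ t0, ∀ f : Lp ℝ 2 (sg q),
      c / 4 * kp q t * ∫ x in Coll Om δ, (TT t f x) ^ 2 ≤ inner ℝ f (Op (k' t) f) := by
    intro t ht f
    have h1 := htF t (ht0F.trans ht) f
    have h2 : inner ℝ f (Op (k' t) f) = kp q t *
        (ε * ∫ w : Sp q, f w * ∫ w' : Sp q, aa P t w w' * f w' ∂(sg q) ∂(sg q)) := by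
      rw [hOp2]
      simp only [hk'e t (ht0P.trans ht)]
      rw [form_const]
      ring
    rw [h2]
    have h3 := mul_le_mul_of_nonneg_left h1 (kp_pos (q := q) (by linarith : 0 < t)).le
    calc _ = kp q t * (c / 4 * ∫ x in Coll Om δ, (TT t f x) ^ 2) := by ring
      _ ≤ _ := h3
  have hformnn : ∀ t ≥ t0, ∀ f : Lp ℝ 2 (sg q), 0 ≤ inner ℝ f (Op (k' t) f) := by
    intro t ht f
    refine le_trans ?_ (hform t ht f)
    have h3 := (kp_pos (q := q) (by linarith : 0 < t)).le
    exact mul_nonneg (by positivity) (integral_nonneg fun x => sq_nonneg _)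
  have hJs : J.IsSymmetric := by
    intro u v
    show inner ℝ (J u) v = inner ℝ u (J v)
    rw [hJa, hJa, real_inner_smul_left, real_inner_smul_right, J0_inner]
  have hJJ : ∀ v, J (J v) = v := by
    intro v
    rw [hJa, hJa, LinearIsometry.map_smul, J0_J0, smul_smul, hσσ, one_smul]
  have hcond : ∀ t ≥ t0, (Op (k' t)).IsSymmetric ∧ IsCompactOperator (Op (k' t)) ∧
      (∀ v : Lp ℝ 2 (sg q), 0 ≤ inner ℝ v (Op (k' t) v)) ∧
      ∀ v : Lp ℝ 2 (sg q), J v + Op (k' t) v = 0 → v = 0 := by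
    intro t ht
    have htP : P.t0 ≤ t := ht0P.trans ht
    refine ⟨hOps _ fun w w' => ?_, hOpc _, hformnn t ht, fun v hv => ?_⟩
    · rw [hk'e t htP, hk'e t htP, (h8 q hq V R M hV P t htP).1 w w']
    · by_contra hv0
      have hf0 : J0 q v ≠ 0 := by
        intro h
        apply hv0
        rw [← J0_J0 v, h, map_zero]
      refine hcon t (by linarith) (h10 q hq V R M hV P t htP (J0 q v) hf0 ?_)
      have h1 : ((J v + Op (k' t) v : Lp ℝ 2 (sg q)) : Sp q → ℝ) =ᵐ[sg q] 0 := by
        rw [hv]; exact Lp.coeFn_zero _ _ _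
      filter_upwards [h1, Lp.coeFn_add (J v) (Op (k' t) v), hOp1 (k' t) v,
        Lp.coeFn_smul σ (J0 q v)] with w h2 h3 h4 h5
      rw [h3, Pi.add_apply, h4, hJa, h5, Pi.smul_apply, smul_eq_mul] at h2
      have h6 : ∫ w' : Sp q, kk P t w w' * (J0 q v) w' ∂(sg q) =
          σ * ∫ y, (k' t) (w, y) * v y ∂(sg q) := by
        have h7 : ∫ w' : Sp q, kk P t w w' * (J0 q v) w' ∂(sg q) =
            ∫ w' : Sp q, kk P t w w' * v (-w') ∂(sg q) := by
          refine integral_congr_ae ?_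
          filter_upwards [J0_ae v] with w' h8
          rw [h8]
        have h9 : ∫ w' : Sp q, kk P t w w' * v (-w') ∂(sg q) =
            ∫ w' : Sp q, kk P t w (-w') * v w' ∂(sg q) := by
          have h10 := (Cap.neg_preserving q).integral_comp
            (MeasurableEquiv.neg (Sp q)).measurableEmbedding (fun w' => kk P t w w' * v (-w'))
          rw [← h10]
          simp only [neg_neg]
        rw [h7, h9, ← integral_const_mul]
        congr 1
        funext w'
        have h11 : k' t (w, w') = σ * k t (w, -w') := rfl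
        rw [h11, hk t htP]
        linear_combination -(kk P t w (-w') * v w') * hσσ
      rw [Pi.zero_apply] at h2
      rw [h6]
      linear_combination σ * h2 - (J0 q v) w * hσσ
  obtain ⟨N, hN⟩ := hI (Lp ℝ 2 (sg q)) J (fun t => Op (k' t)) t0 hJs hJJ hcont hcond
  -- the test functions
  have hσ1 : -σ = 1 ∨ -σ = -1 := by
    have h1 : (σ - 1) * (σ + 1) = 0 := by linear_combination hσσ
    rcases mul_eq_zero.1 h1 with h | h
    · right; linarith
    · left; linarith
  obtain ⟨t1, f, hfm, hfb, hfp, hft⟩ := hT q r (c / 4 * kp q 1) (-σ) hr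
    (mul_pos (by positivity) (kp_pos one_pos)) hσ1 (N + 1)
  have hf : ∀ i, MemLp (f i) 2 (sg q) := fun i => Main.memLp_of_bdd (hfm i) (hfb i)
  set t : ℝ := max t0 t1 with htd
  have htt0 : t0 ≤ t := le_max_left _ _
  have htt1 : t1 ≤ t := le_max_right _ _
  set L : (Fin (N + 1) → ℝ) → Lp ℝ 2 (sg q) := fun x => ∑ i, x i • (hf i).toLp (f i) with hL
  have hpos : ∀ x : Fin (N + 1) → ℝ, x ≠ 0 →
      inner ℝ (L x) (L x) < c / 4 * kp q 1 * ∫ y in ball (0 : En q) r, (TT t (L x) y) ^ 2 := by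
    intro x hx
    have h1 := hft t htt1 x hx
    have h2 : inner ℝ (L x) (L x) = ∫ w, (∑ i, x i * f i w) ^ 2 ∂(sg q) := by
      rw [inner_self_int]
      refine integral_congr_ae ?_
      filter_upwards [sum_ae f hf x] with w hw
      rw [hL]
      simp only
      rw [hw]
    have h3 : ∀ y, TT t (L x) y = TT t (fun w => ∑ i, x i * f i w) y := fun y =>
      TT_congr t (sum_ae f hf x) y
    rw [h2]
    simp only [h3]
    exact h1
  have hL0 : ∀ x, x ≠ 0 → L x ≠ 0 := by
    intro x hx h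
    have h1 := hpos x hx
    rw [h] at h1
    have h2 : ∀ y, TT t ((0 : Lp ℝ 2 (sg q)) : Sp q → ℝ) y = 0 := by
      intro y
      rw [TT_congr t (Lp.coeFn_zero _ _ _) y]
      unfold TT
      simp
    simp only [h2] at h1
    simp at h1
  have hli : LinearIndependent ℝ (fun i => (hf i).toLp (f i)) := by
    rw [Fintype.linearIndependent_iff]
    intro x hx
    by_contra h
    push Not at h
    obtain ⟨i, hi⟩ := h
    exact hL0 x (fun h2 => hi (by rw [h2]; rfl)) hx
  have hfr : Module.finrank ℝ (Submodule.span ℝ (Set.range fun i => (hf i).toLp (f i))) = N + 1 := by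
    rw [finrank_span_eq_card hli, Fintype.card_fin]
  have hJf : ∀ i, J ((hf i).toLp (f i)) = -((hf i).toLp (f i)) := by
    intro i
    apply Lp.ext
    filter_upwards [Lp.coeFn_smul σ (J0 q ((hf i).toLp (f i))), J0_ae ((hf i).toLp (f i)),
      ae_neg (hf i).coeFn_toLp, (hf i).coeFn_toLp, Lp.coeFn_neg ((hf i).toLp (f i))]
      with w h1 h2 h3 h4 h5
    rw [hJa, h1, Pi.smul_apply, h2, h3, h5, Pi.neg_apply, h4, hfp, smul_eq_mul]
    linear_combination -(f i w) * hσσ
  have hJW : ∀ x, J (L x) = -(L x) := by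
    intro x
    rw [hL]
    simp only [map_sum, map_smul, hJf, smul_neg, Finset.sum_neg_distrib]
  have hle := hN t htt0 (Submodule.span ℝ (Set.range fun i => (hf i).toLp (f i)))
    (FiniteDimensional.span_of_finite ℝ (Set.finite_range _)) (fun w hw => ?_)
    (fun u w hu hw hw0 => ?_)
  · omega
  · obtain ⟨x, hx⟩ := (Submodule.mem_span_range_iff_exists_fun ℝ).1 hw
    rw [← hx]
    exact hJW x
  · obtain ⟨x, hx⟩ := (Submodule.mem_span_range_iff_exists_fun ℝ).1 hw
    have hx0 : x ≠ 0 := fun h2 => hw0 (by rw [← hx, h2]; simp)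
    have hLw : L x = w := hx
    have hJw : J w = -w := by rw [← hLw]; exact hJW x
    have hposx := hpos x hx0
    rw [hLw] at hposx
    -- parities
    have hpu : ∀ᵐ v ∂(sg q), u (-v) = σ * u v := by
      have h1 : σ • J0 q u = u := by rw [← hJa]; exact hu
      have h2 : J0 q u = σ • u := by
        conv_rhs => rw [← h1, smul_smul, hσσ, one_smul]
      filter_upwards [J0_ae u, Lp.coeFn_smul σ u] with v h3 h4
      rw [← h3, h2, h4, Pi.smul_apply, smul_eq_mul]
    have hpw : ∀ᵐ v ∂(sg q), w (-v) = (-σ) * w v := by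
      have h1 : σ • J0 q w = -w := by rw [← hJa]; exact hJw
      have h2 : J0 q w = (-σ) • w := by
        rw [neg_smul, ← smul_neg, ← h1, smul_smul, hσσ, one_smul]
      filter_upwards [J0_ae w, Lp.coeFn_smul (-σ) w] with v h3 h4
      rw [← h3, h2, h4, Pi.smul_apply, smul_eq_mul]
    have hcr := cross t r u w hσσ hpu hpw
    have hfo := hform t htt0 (u + w)
    have hmono : ∫ y in ball (0 : En q) r, (TT t ((u + w : Lp ℝ 2 (sg q)) : Sp q → ℝ) y) ^ 2 ≤
        ∫ y in Coll Om δ, (TT t ((u + w : Lp ℝ 2 (sg q)) : Sp q → ℝ) y) ^ 2 := by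
      have hcc : Continuous (TT t ((u + w : Lp ℝ 2 (sg q)) : Sp q → ℝ)) := TT_cont t (lp_int _)
      have hbd : Bornology.IsBounded (Coll Om δ) := by
        have h1 : Coll Om δ ⊆ Metric.cthickening δ Om := by
          intro y hy
          rw [Metric.mem_cthickening_iff]
          have h2 := hy.2.le
          rw [← ENNReal.ofReal_toReal (infEDist_ne_top hS.ne)]
          exact ENNReal.ofReal_le_ofReal h2
        exact (hS.cpt.isBounded.cthickening).subset h1
      have hint : IntegrableOn (fun y => (TT t ((u + w : Lp ℝ 2 (sg q)) : Sp q → ℝ) y) ^ 2)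
          (Coll Om δ) := by
        obtain ⟨ρ, hρ⟩ := hbd.subset_closedBall (0 : En q)
        exact ((hcc.pow 2).continuousOn.integrableOn_compact (isCompact_closedBall _ _)).mono_set hρ
      exact setIntegral_mono_set hint (Eventually.of_forall fun y => sq_nonneg _)
        hrC.eventuallyLE
    have hkm := kp_mono (q := q) (ht01.trans htt0)
    have hk1 := kp_pos (q := q) one_pos
    have hin : inner ℝ (u + w) (J (u + w) + Op (k' t) (u + w)) =
        inner ℝ u u - inner ℝ w w + inner ℝ (u + w) (Op (k' t) (u + w)) := by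
      rw [inner_add_right, map_add, hu, hJw, ← sub_eq_add_neg]
      congr 1
      rw [inner_add_left, inner_sub_right, inner_sub_right, real_inner_comm w u]
      ring
    show 0 < inner ℝ (u + w) (J (u + w) + Op (k' t) (u + w))
    rw [hin]
    have huu : 0 ≤ inner ℝ u u := real_inner_self_nonneg
    set A := ∫ y in ball (0 : En q) r, (TT t (w : Sp q → ℝ) y) ^ 2 with hA
    have hA0 : 0 ≤ A := integral_nonneg fun y => sq_nonneg _
    have h10 : c / 4 * kp q 1 * A ≤ c / 4 * kp q t *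
        ∫ y in Coll Om δ, (TT t ((u + w : Lp ℝ 2 (sg q)) : Sp q → ℝ) y) ^ 2 := by
      have h11 : A ≤ ∫ y in Coll Om δ, (TT t ((u + w : Lp ℝ 2 (sg q)) : Sp q → ℝ) y) ^ 2 :=
        hcr.trans hmono
      have h12 : c / 4 * kp q 1 ≤ c / 4 * kp q t := mul_le_mul_of_nonneg_left hkm (by positivity)
      exact mul_le_mul h12 h11 hA0 (mul_nonneg (by positivity) (hk1.le.trans hkm))
    linarith

end Pool.Agent.Work.MP_f2af60_mp.Ev
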