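import Pool.Agent.Work.MP_f2af60_mp.Ev.Stmts2

/-!
# [f2af60 Ev2 Test2] test functions of given parity
-/

set_option autoImplicit false

namespace Pool.Agent.Work.MP_f2af60_mp.Ev

open MeasureTheory Metric Filter Topology Set

namespace Test2

theorem fin_bound {ι : Type} (s : Finset ι) (g : ι → ℝ) (h : ∀ p ∈ s, g p < 1) :
    ∃ β : ℝ, 0 ≤ β ∧ β < 1 ∧ ∀ p ∈ s, g p ≤ β := by
  classical
  induction s using Finset.induction_on with
  | empty => exact ⟨0, le_rfl, one_pos, by simp⟩
  | insert a s _ ih =>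
    obtain ⟨β, h0, h1, h2⟩ := ih (fun p hp => h p (Finset.mem_insert_of_mem hp))
    refine ⟨max β (g a), le_trans h0 (le_max_left _ _),
      max_lt h1 (h a (Finset.mem_insert_self _ _)), ?_⟩
    intro p hp
    rcases Finset.mem_insert.1 hp with rfl | hp
    · exact le_max_right _ _
    · exact (h2 p hp).trans (le_max_left _ _)

/-- unit vectors, pairwise not parallel -/
theorem exists_vectors (q m : ℕ) : ∃ (w : Fin m → Sp q) (β : ℝ), 0 ≤ β ∧ β < 1 ∧
    ∀ i j, i ≠ j → |inner ℝ (w i : En q) (w j : En q)| ≤ β := by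
  classical
  let k0 : Fin (2 * q + 3) := ⟨0, by omega⟩
  let k1 : Fin (2 * q + 3) := ⟨1, by omega⟩
  have hk : k0 ≠ k1 := by
    intro h
    have := congrArg Fin.val h
    simp [k0, k1] at this
  let v : Fin m → En q := fun i =>
    EuclideanSpace.single k0 (1 : ℝ) + ((i : ℕ) : ℝ) • EuclideanSpace.single k1 (1 : ℝ)
  have hv0 : ∀ i, v i k0 = 1 := by
    intro i
    simp [v, hk]
  have hv1 : ∀ i, v i k1 = ((i : ℕ) : ℝ) := by
    intro i
    simp [v, hk.symm]
  have hvne : ∀ i, v i ≠ 0 := by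
    intro i h
    have := hv0 i
    rw [h] at this
    simp at this
  let w : Fin m → Sp q := fun i => ⟨(‖v i‖)⁻¹ • v i, by
    rw [mem_sphere_zero_iff_norm, norm_smul, norm_inv, norm_norm,
      inv_mul_cancel₀ (norm_ne_zero_iff.2 (hvne i))]⟩
  have hin : ∀ i j, inner ℝ (w i : En q) (w j : En q) = inner ℝ (v i) (v j) / (‖v i‖ * ‖v j‖) := by
    intro i j
    show inner ℝ ((‖v i‖)⁻¹ • v i) ((‖v j‖)⁻¹ • v j) = _
    rw [real_inner_smul_left, real_inner_smul_right]
    field_simp
  obtain ⟨β, h0, h1, h2⟩ := fin_bound (Finset.univ.filter (fun p : Fin m × Fin m => p.1 ≠ p.2))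
    (fun p => |inner ℝ (w p.1 : En q) (w p.2 : En q)|) (by
      intro p hp
      have hp' : p.1 ≠ p.2 := (Finset.mem_filter.1 hp).2
      show |inner ℝ (w p.1 : En q) (w p.2 : En q)| < 1
      rw [hin]
      refine lt_of_le_of_ne (abs_real_inner_div_norm_mul_norm_le_one _ _) ?_
      intro h
      rw [abs_real_inner_div_norm_mul_norm_eq_one_iff] at h
      obtain ⟨-, c, -, hc⟩ := h
      have e0 : v p.2 k0 = c * v p.1 k0 := by
        rw [hc]
        rfl
      have e1 : v p.2 k1 = c * v p.1 k1 := by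
        rw [hc]
        rfl
      rw [hv0, hv0, mul_one] at e0
      rw [hv1, hv1, ← e0, one_mul] at e1
      exact hp' (Fin.ext (Nat.cast_injective (R := ℝ) e1.symm)))
  exact ⟨w, β, h0, h1, fun i j hij => h2 (i, j) (Finset.mem_filter.2 ⟨Finset.mem_univ _, hij⟩)⟩

variable {q : ℕ}

theorem ex_cont (t : ℝ) : Continuous (fun p : En q × Sp q => ex t p.2 p.1) := by
  unfold ex
  fun_prop

theorem ex_cont_left (t : ℝ) (y : En q) : Continuous (fun u : Sp q => ex t u y) := by
  unfold ex
  fun_prop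

theorem ex_pos (t : ℝ) (u : Sp q) (y : En q) : 0 < ex t u y := Real.exp_pos _

theorem norm_sp (u : Sp q) : ‖(u : En q)‖ = 1 := mem_sphere_zero_iff_norm.1 u.2

theorem ex_le {t : ℝ} (ht : 0 ≤ t) (u : Sp q) (y : En q) : ex t u y ≤ Real.exp (t * ‖y‖) := by
  unfold ex
  refine Real.exp_le_exp.2 (mul_le_mul_of_nonneg_left ?_ ht)
  have := real_inner_le_norm (u : En q) y
  rwa [norm_sp, one_mul] at this

theorem int_ex {t : ℝ} (ht : 0 ≤ t) (y : En q) {F : Sp q → ℝ} (hF : Measurable F) {D : ℝ}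
    (hD : ∀ u, |F u| ≤ D) : Integrable (fun u : Sp q => ex t u y * F u) (sg q) := by
  refine Integrable.of_bound ((ex_cont_left t y).measurable.mul hF).aestronglyMeasurable
    (Real.exp (t * ‖y‖) * D) (Eventually.of_forall fun u => ?_)
  rw [norm_mul, Real.norm_eq_abs, Real.norm_eq_abs, abs_of_pos (ex_pos t u y)]
  exact mul_le_mul (ex_le ht u y) (hD u) (abs_nonneg _) (Real.exp_pos _).le

theorem tt_lower {t A B D x : ℝ} (ht : 0 ≤ t) (hD0 : 0 ≤ D) {C : Set (Sp q)} (hC : MeasurableSet C)
    {G : Sp q → ℝ} (hGm : Measurable G) (y : En q)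
    (hA : ∀ u ∈ C, A ≤ inner ℝ (u : En q) y) (hG : ∀ u, |G u| ≤ D)
    (hB : ∀ u, G u ≠ 0 → inner ℝ (u : En q) y ≤ B) :
    |x| * ((sg q).real C * Real.exp (t * A)) - D * Real.exp (t * B) * (sg q).real univ ≤
      |TT t (fun u => C.indicator (fun _ => x) u + G u) y| := by
  have e1 : TT t (fun u => C.indicator (fun _ => x) u + G u) y =
      (∫ u : Sp q, ex t u y * C.indicator (fun _ => x) u ∂(sg q)) +
        ∫ u : Sp q, ex t u y * G u ∂(sg q) := by
    unfold TT
    rw [← integral_add (int_ex ht y (measurable_const.indicator hC) (D := |x|) ?_)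
      (int_ex ht y hGm hG)]
    · refine integral_congr_ae (Eventually.of_forall fun u => ?_)
      simp only [mul_add]
    · intro u
      by_cases hu : u ∈ C
      · rw [indicator_of_mem hu]
      · rw [indicator_of_notMem hu, abs_zero]
        exact abs_nonneg x
  have e2 : |∫ u : Sp q, ex t u y * G u ∂(sg q)| ≤
      D * Real.exp (t * B) * (sg q).real univ := by
    rw [← Real.norm_eq_abs]
    refine norm_integral_le_of_norm_le_const (Eventually.of_forall fun u => ?_)
    rw [norm_mul, Real.norm_eq_abs, Real.norm_eq_abs, abs_of_pos (ex_pos t u y)]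
    by_cases hu : G u = 0
    · rw [hu, abs_zero, mul_zero]
      exact mul_nonneg hD0 (Real.exp_pos _).le
    · rw [mul_comm]
      refine mul_le_mul (hG u) ?_ (ex_pos t u y).le hD0
      exact Real.exp_le_exp.2 (mul_le_mul_of_nonneg_left (hB u hu) ht)
  have e3 : (∫ u : Sp q, ex t u y * C.indicator (fun _ => x) u ∂(sg q)) =
      (∫ u in C, ex t u y ∂(sg q)) * x := by
    rw [← integral_mul_const, ← integral_indicator hC]
    refine integral_congr_ae (Eventually.of_forall fun u => ?_)
    show ex t u y * C.indicator (fun _ => x) u = C.indicator (fun u => ex t u y * x) u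
    by_cases hu : u ∈ C
    · rw [indicator_of_mem hu, indicator_of_mem hu]
    · rw [indicator_of_notMem hu, indicator_of_notMem hu, mul_zero]
  have e4 : (sg q).real C * Real.exp (t * A) ≤ ∫ u in C, ex t u y ∂(sg q) := by
    have h1 : ∫ _u in C, Real.exp (t * A) ∂(sg q) ≤ ∫ u in C, ex t u y ∂(sg q) := by
      refine setIntegral_mono_on ?_ ?_ hC (fun u hu => ?_)
      · exact (integrable_const _).integrableOn
      · have := int_ex (F := fun _ => 1) ht y measurable_const (D := 1) (fun u => by simp)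
        simpa using this.integrableOn
      · exact Real.exp_le_exp.2 (mul_le_mul_of_nonneg_left (hA u hu) ht)
    simpa using h1
  have e5 : |x| * ((sg q).real C * Real.exp (t * A)) ≤
      |∫ u : Sp q, ex t u y * C.indicator (fun _ => x) u ∂(sg q)| := by
    rw [e3, abs_mul, mul_comm]
    refine mul_le_mul_of_nonneg_right (e4.trans (le_abs_self _)) (abs_nonneg x)
  rw [e1]
  have e6 := abs_sub_abs_le_abs_sub (∫ u : Sp q, ex t u y * C.indicator (fun _ => x) u ∂(sg q))
    (-∫ u : Sp q, ex t u y * G u ∂(sg q))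
  rw [abs_neg, sub_neg_eq_add] at e6
  linarith

theorem tt_meas (t : ℝ) {F : Sp q → ℝ} (hF : Measurable F) :
    StronglyMeasurable (fun y : En q => TT t F y) := by
  unfold TT
  have h : StronglyMeasurable (fun p : En q × Sp q => ex t p.2 p.1 * F p.2) :=
    ((ex_cont t).measurable.mul (hF.comp measurable_snd)).stronglyMeasurable
  exact h.integral_prod_right'

theorem tt_bound {t r D : ℝ} (ht : 0 ≤ t) {F : Sp q → ℝ}
    (hD : ∀ u, |F u| ≤ D) {y : En q} (hy : ‖y‖ ≤ r) :
    |TT t F y| ≤ Real.exp (t * r) * D * (sg q).real univ := by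
  rw [← Real.norm_eq_abs]
  refine norm_integral_le_of_norm_le_const (Eventually.of_forall fun u => ?_)
  rw [norm_mul, Real.norm_eq_abs, Real.norm_eq_abs, abs_of_pos (ex_pos t u y)]
  exact mul_le_mul ((ex_le ht u y).trans
    (Real.exp_le_exp.2 (mul_le_mul_of_nonneg_left hy ht))) (hD u) (abs_nonneg _)
    (Real.exp_pos _).le

theorem ball_lower {t r ε L D : ℝ} (ht : 0 ≤ t) {F : Sp q → ℝ} (hF : Measurable F)
    (hD : ∀ u, |F u| ≤ D) (y0 : En q) (hL : 0 ≤ L) (hsub : ball y0 ε ⊆ ball (0 : En q) r)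
    (h : ∀ y ∈ ball y0 ε, L ≤ |TT t F y|) :
    (volume : Measure (En q)).real (ball y0 ε) * L ^ 2 ≤ ∫ y in ball (0 : En q) r, (TT t F y) ^ 2 := by
  have hi : IntegrableOn (fun y : En q => (TT t F y) ^ 2) (ball (0 : En q) r) := by
    refine Measure.integrableOn_of_bounded (M := (Real.exp (t * r) * D * (sg q).real univ) ^ 2)
      measure_ball_lt_top.ne ((tt_meas t hF).pow 2).aestronglyMeasurable ?_
    refine (ae_restrict_iff' measurableSet_ball).2 (Eventually.of_forall fun y hy => ?_)
    rw [mem_ball_zero_iff] at hy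
    rw [Real.norm_eq_abs, abs_pow]
    exact pow_le_pow_left₀ (abs_nonneg _) (tt_bound ht hD hy.le) 2
  have h1 : ∫ y in ball y0 ε, (TT t F y) ^ 2 ≤ ∫ y in ball (0 : En q) r, (TT t F y) ^ 2 :=
    setIntegral_mono_set hi (Eventually.of_forall fun y => sq_nonneg _)
      (Eventually.of_forall hsub)
  have h2 : ∫ _y in ball y0 ε, L ^ 2 ≤ ∫ y in ball y0 ε, (TT t F y) ^ 2 := by
    refine setIntegral_mono_on ?_ (hi.mono_set hsub) measurableSet_ball (fun y hy => ?_)
    · exact integrableOn_const measure_ball_lt_top.ne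
    · rw [← sq_abs (TT t F y)]
      exact pow_le_pow_left₀ hL (h y hy) 2
  have h3 : ∫ _y in ball y0 ε, L ^ 2 = (volume : Measure (En q)).real (ball y0 ε) * L ^ 2 := by
    simp
  linarith

theorem fin_lower {ι : Type} (s : Finset ι) (g : ι → ℝ) (h : ∀ p ∈ s, 0 < g p) :
    ∃ κ : ℝ, 0 < κ ∧ ∀ p ∈ s, κ ≤ g p := by
  classical
  induction s using Finset.induction_on with
  | empty => exact ⟨1, one_pos, by simp⟩
  | insert a s _ ih =>
    obtain ⟨κ, h0, h2⟩ := ih (fun p hp => h p (Finset.mem_insert_of_mem hp))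
    refine ⟨min κ (g a), lt_min h0 (h a (Finset.mem_insert_self _ _)), ?_⟩
    intro p hp
    rcases Finset.mem_insert.1 hp with rfl | hp
    · exact min_le_right _ _
    · exact (min_le_left _ _).trans (h2 p hp)

/-- the test function `1` on the cap around `w`, `s` on the antipodal cap -/
noncomputable def tf (ρ s : ℝ) (w u : Sp q) : ℝ :=
  (ball w ρ).indicator (fun _ => (1 : ℝ)) u + s * (ball (-w) ρ).indicator (fun _ => (1 : ℝ)) u

theorem tf_meas (ρ s : ℝ) (w : Sp q) : Measurable (tf ρ s w) :=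
  (measurable_const.indicator measurableSet_ball).add
    ((measurable_const.indicator measurableSet_ball).const_mul s)

theorem ind_bd (S : Set (Sp q)) (u : Sp q) : |S.indicator (fun _ => (1 : ℝ)) u| ≤ 1 := by
  by_cases hu : u ∈ S
  · rw [indicator_of_mem hu, abs_one]
  · rw [indicator_of_notMem hu, abs_zero]
    exact zero_le_one

theorem tf_bd {ρ s : ℝ} (hs : |s| = 1) (w u : Sp q) : |tf ρ s w u| ≤ 2 := by
  unfold tf
  refine (abs_add_le _ _).trans ?_
  rw [abs_mul, hs, one_mul]
  linarith [ind_bd (ball w ρ) u, ind_bd (ball (-w) ρ) u]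

theorem dist_neg' (u w : Sp q) : dist (-u) (-w) = dist u w := by
  rw [Subtype.dist_eq, Subtype.dist_eq]
  show dist (-(u : En q)) (-(w : En q)) = _
  rw [dist_neg_neg]

theorem tf_neg {ρ s : ℝ} (hs : s * s = 1) (w u : Sp q) : tf ρ s w (-u) = s * tf ρ s w u := by
  have h1 : (ball w ρ).indicator (fun _ => (1 : ℝ)) (-u) =
      (ball (-w) ρ).indicator (fun _ => (1 : ℝ)) u := by
    have : -u ∈ ball w ρ ↔ u ∈ ball (-w) ρ := by
      rw [mem_ball, mem_ball, ← dist_neg' (-u) w, neg_neg]
    by_cases hu : u ∈ ball (-w) ρ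
    · rw [indicator_of_mem hu, indicator_of_mem (this.2 hu)]
    · rw [indicator_of_notMem hu, indicator_of_notMem (fun h => hu (this.1 h))]
  have h2 : (ball (-w) ρ).indicator (fun _ => (1 : ℝ)) (-u) =
      (ball w ρ).indicator (fun _ => (1 : ℝ)) u := by
    have : -u ∈ ball (-w) ρ ↔ u ∈ ball w ρ := by
      rw [mem_ball, mem_ball, dist_neg']
    by_cases hu : u ∈ ball w ρ
    · rw [indicator_of_mem hu, indicator_of_mem (this.2 hu)]
    · rw [indicator_of_notMem hu, indicator_of_notMem (fun h => hu (this.1 h))]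
  unfold tf
  rw [h1, h2, mul_add, ← mul_assoc, hs, one_mul, add_comm]

theorem inner_cap {ρ b : ℝ} {u z : Sp q} {v : En q} (h : dist u z < ρ) (hv : ‖v‖ = 1)
    (hz : inner ℝ (z : En q) v ≤ b) : inner ℝ (u : En q) v ≤ b + ρ := by
  have e : inner ℝ (u : En q) v = inner ℝ (z : En q) v + inner ℝ ((u : En q) - z) v := by
    rw [inner_sub_left]
    ring
  have h2 : inner ℝ ((u : En q) - z) v ≤ ρ := by
    refine (real_inner_le_norm _ _).trans ?_
    rw [hv, mul_one, ← dist_eq_norm]
    rw [Subtype.dist_eq] at h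
    exact h.le
  linarith

theorem inner_cap' {ρ b : ℝ} {u z : Sp q} {v : En q} (h : dist u z < ρ) (hv : ‖v‖ = 1)
    (hz : b ≤ inner ℝ (z : En q) v) : b - ρ ≤ inner ℝ (u : En q) v := by
  have h1 := inner_cap (b := -b) (v := -v) h (by rw [norm_neg, hv]) (by
    rw [inner_neg_right]
    linarith)
  rw [inner_neg_right] at h1
  linarith

theorem inner_near {r' ε : ℝ} {y : En q} {w u : Sp q} (h : y ∈ ball (r' • (w : En q)) ε) :
    |inner ℝ (u : En q) y - r' * inner ℝ (u : En q) (w : En q)| ≤ ε := by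
  have e : inner ℝ (u : En q) y - r' * inner ℝ (u : En q) (w : En q) =
      inner ℝ (u : En q) (y - r' • (w : En q)) := by
    rw [inner_sub_right, real_inner_smul_right]
  rw [e]
  refine (abs_real_inner_le_norm _ _).trans ?_
  rw [norm_sp, one_mul, ← dist_eq_norm]
  exact (mem_ball.1 h).le

end Test2

open Test2 in
theorem I_Test2 : StTest2 := by
  intro q r c s hr hc hs m
  obtain ⟨w, β, hβ0, hβ1, hw⟩ := exists_vectors q m
  have hss : s * s = 1 := by rcases hs with rfl | rfl <;> norm_num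
  have hsa : |s| = 1 := by rcases hs with rfl | rfl <;> norm_num
  obtain ⟨ρ, hρ⟩ : ∃ ρ : ℝ, ρ = (1 - β) / 8 := ⟨_, rfl⟩
  obtain ⟨r', hr'⟩ : ∃ r' : ℝ, r' = r / 2 := ⟨_, rfl⟩
  obtain ⟨ε, hε⟩ : ∃ ε : ℝ, ε = r' * ((1 - β) / 8) := ⟨_, rfl⟩
  obtain ⟨A, hA⟩ : ∃ A : ℝ, A = r' * (1 - ρ) - ε := ⟨_, rfl⟩
  obtain ⟨B, hB⟩ : ∃ B : ℝ, B = r' * (β + ρ) + ε := ⟨_, rfl⟩
  obtain ⟨S, hS⟩ : ∃ S : ℝ, S = (sg q).real univ := ⟨_, rfl⟩
  have hr'0 : 0 < r' := by rw [hr']; linarith
  have hρ0 : 0 < ρ := by rw [hρ]; linarith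
  have hε0 : 0 < ε := by rw [hε]; exact mul_pos hr'0 (by linarith)
  have hS0 : 0 ≤ S := by rw [hS]; exact measureReal_nonneg
  have hεr : ε ≤ r' * (1 / 8) := by
    rw [hε]
    exact mul_le_mul_of_nonneg_left (by linarith) hr'0.le
  have hAB : A - B = r' * ((1 - β) / 2) := by rw [hA, hB, hε, hρ]; ring
  have hAB0 : 0 < A - B := by rw [hAB]; exact mul_pos hr'0 (by linarith)
  have hA0 : 0 < A := by
    have : r' * (7 / 8) ≤ r' * (1 - ρ) :=
      mul_le_mul_of_nonneg_left (by rw [hρ]; linarith) hr'0.le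
    rw [hA]
    linarith
  obtain ⟨κ, hκ0, hκ⟩ := fin_lower (Finset.univ : Finset (Fin m))
    (fun i => (sg q).real (ball (w i) ρ)) (by
      intro i _
      show 0 < (sg q).real (ball (w i) ρ)
      rw [Measure.real, ENNReal.toReal_pos_iff]
      refine ⟨?_, measure_lt_top _ _⟩
      unfold sg
      exact measure_ball_pos _ _ hρ0)
  obtain ⟨vol, hvol⟩ : ∃ vol : ℝ, vol = (volume : Measure (En q)).real (ball 0 ε) := ⟨_, rfl⟩
  have hvol0 : 0 < vol := by
    rw [hvol, Measure.real, ENNReal.toReal_pos_iff]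
    exact ⟨measure_ball_pos _ _ hε0, measure_ball_lt_top⟩
  obtain ⟨L0, hL0⟩ : ∃ L0 : ℝ, L0 = 1 + (2 * m) ^ 2 * S / (c * vol) := ⟨_, rfl⟩
  have hcv : 0 < c * vol := mul_pos hc hvol0
  have hL1 : 1 ≤ L0 := by
    rw [hL0]
    have : 0 ≤ (2 * (m : ℝ)) ^ 2 * S / (c * vol) := by positivity
    linarith
  have hL2 : (2 * m) ^ 2 * S < c * vol * L0 ^ 2 := by
    have h1 : c * vol * L0 = c * vol + (2 * m) ^ 2 * S := by
      rw [hL0]
      field_simp
    have h2 : L0 ≤ L0 ^ 2 := by nlinarith
    have h3 : c * vol * L0 ≤ c * vol * L0 ^ 2 := mul_le_mul_of_nonneg_left h2 hcv.le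
    linarith
  have hev : ∀ᶠ t : ℝ in atTop, L0 ≤ κ * Real.exp (t * A) - 2 * m * Real.exp (t * B) * S := by
    have h1 : Tendsto (fun t : ℝ => Real.exp (t * A)) atTop atTop :=
      Real.tendsto_exp_atTop.comp (tendsto_id.atTop_mul_const hA0)
    have h2 : Tendsto (fun t : ℝ => Real.exp (t * (A - B))) atTop atTop :=
      Real.tendsto_exp_atTop.comp (tendsto_id.atTop_mul_const hAB0)
    filter_upwards [h1.eventually_ge_atTop (2 * L0 / κ),
      h2.eventually_ge_atTop (4 * m * S / κ)] with t ht1 ht2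
    rw [div_le_iff₀ hκ0] at ht1 ht2
    have e : Real.exp (t * A) = Real.exp (t * (A - B)) * Real.exp (t * B) := by
      rw [← Real.exp_add]
      ring_nf
    have h3 : 4 * m * S * Real.exp (t * B) ≤ Real.exp (t * (A - B)) * κ * Real.exp (t * B) :=
      mul_le_mul_of_nonneg_right ht2 (Real.exp_pos _).le
    have h4 : Real.exp (t * (A - B)) * κ * Real.exp (t * B) = κ * Real.exp (t * A) := by
      rw [e]
      ring
    rw [h4] at h3
    linarith
  obtain ⟨t1, ht1⟩ := eventually_atTop.1 (hev.and (eventually_ge_atTop (0 : ℝ)))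
  refine ⟨t1, fun i => tf ρ s (w i), fun i => tf_meas ρ s (w i), fun i => ⟨2, tf_bd hsa (w i)⟩,
    fun i u => tf_neg hss (w i) u, ?_⟩
  intro t ht x hx
  obtain ⟨hLt, ht0⟩ := ht1 t ht
  -- the largest coefficient
  obtain ⟨j0, hj0⟩ : ∃ j, x j ≠ 0 := Function.ne_iff.1 hx
  have : Nonempty (Fin m) := ⟨j0⟩
  obtain ⟨i, hi⟩ := Finite.exists_max (fun j => |x j|)
  have hxi : 0 < |x i| := lt_of_lt_of_le (abs_pos.2 hj0) (hi j0)
  have hFm : Measurable (fun u => ∑ j, x j * tf ρ s (w j) u) :=
    Finset.measurable_sum _ (fun j _ => (tf_meas ρ s (w j)).const_mul (x j))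
  have hcard : ∑ _j : Fin m, 2 * |x i| = 2 * m * |x i| := by
    rw [Finset.sum_const, Finset.card_univ, Fintype.card_fin, nsmul_eq_mul]
    ring
  have hFb : ∀ u, |∑ j, x j * tf ρ s (w j) u| ≤ 2 * m * |x i| := by
    intro u
    rw [← hcard]
    refine (Finset.abs_sum_le_sum_abs _ _).trans (Finset.sum_le_sum fun j _ => ?_)
    rw [abs_mul, mul_comm]
    exact mul_le_mul (tf_bd hsa (w j) u) (hi j) (abs_nonneg _) (by norm_num)
  have hm0 : 0 ≤ 2 * (m : ℝ) * |x i| := by positivity
  -- lower bound of TT near `r' w_i`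
  have hlow : ∀ y ∈ ball (r' • (w i : En q)) ε, |x i| * L0 ≤
      |TT t (fun u => ∑ j, x j * tf ρ s (w j) u) y| := by
    intro y hy
    let g : Fin m → Sp q → ℝ := fun j u =>
      x j * (tf ρ s (w j) u - if j = i then (ball (w i) ρ).indicator (fun _ => (1 : ℝ)) u else 0)
    have hg1 : ∀ j u, |g j u| ≤ 2 * |x i| := by
      intro j u
      show |x j * _| ≤ _
      rw [abs_mul, mul_comm]
      refine mul_le_mul ?_ (hi j) (abs_nonneg _) (by norm_num)
      by_cases hji : j = i
      · rw [if_pos hji, hji]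
        unfold tf
        rw [add_sub_cancel_left, abs_mul, hsa, one_mul]
        linarith [ind_bd (ball (-w i) ρ) u]
      · rw [if_neg hji, sub_zero]
        exact tf_bd hsa (w j) u
    have hg2 : ∀ j u, g j u ≠ 0 → inner ℝ (u : En q) y ≤ B := by
      intro j u hne
      have hcl : inner ℝ (u : En q) (w i : En q) ≤ β + ρ := by
        by_cases hji : j = i
        · have hu : u ∈ ball (-w i) ρ := by
            by_contra hu
            apply hne
            show x j * _ = 0
            rw [if_pos hji, hji]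
            unfold tf
            rw [add_sub_cancel_left, indicator_of_notMem hu, mul_zero, mul_zero]
          refine inner_cap (mem_ball.1 hu) (norm_sp (w i)) ?_
          show inner ℝ (-(w i : En q)) (w i : En q) ≤ β
          rw [inner_neg_left, real_inner_self_eq_norm_sq, norm_sp]
          linarith
        · have hu : u ∈ ball (w j) ρ ∨ u ∈ ball (-w j) ρ := by
            by_contra hu
            rw [not_or] at hu
            apply hne
            show x j * _ = 0
            rw [if_neg hji]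
            unfold tf
            rw [indicator_of_notMem hu.1, indicator_of_notMem hu.2, mul_zero, add_zero, sub_zero,
              mul_zero]
          have hji' := hw j i hji
          rcases hu with hu | hu
          · exact inner_cap (mem_ball.1 hu) (norm_sp (w i)) ((le_abs_self _).trans hji')
          · refine inner_cap (mem_ball.1 hu) (norm_sp (w i)) ?_
            show inner ℝ (-(w j : En q)) (w i : En q) ≤ β
            rw [inner_neg_left]
            exact (neg_le_abs _).trans hji'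
      have h1 := (abs_le.1 (inner_near (u := u) hy)).2
      have h2 := mul_le_mul_of_nonneg_left hcl hr'0.le
      rw [hB]
      linarith
    have hGm : Measurable (fun u => ∑ j, g j u) := by
      refine Finset.measurable_sum _ (fun j _ => ?_)
      refine Measurable.const_mul ?_ (x j)
      refine (tf_meas ρ s (w j)).sub ?_
      by_cases hji : j = i
      · simp only [if_pos hji]
        exact measurable_const.indicator measurableSet_ball
      · simp only [if_neg hji]
        exact measurable_const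
    have hGb : ∀ u, |∑ j, g j u| ≤ 2 * m * |x i| := by
      intro u
      rw [← hcard]
      exact (Finset.abs_sum_le_sum_abs _ _).trans (Finset.sum_le_sum fun j _ => hg1 j u)
    have hGB : ∀ u, ∑ j, g j u ≠ 0 → inner ℝ (u : En q) y ≤ B := by
      intro u hne
      obtain ⟨j, -, hj⟩ := Finset.exists_ne_zero_of_sum_ne_zero hne
      exact hg2 j u hj
    have hdec : (fun u => ∑ j, x j * tf ρ s (w j) u) =
        fun u => (ball (w i) ρ).indicator (fun _ => x i) u + ∑ j, g j u := by
      funext u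
      have h1 : ∑ j, g j u = ∑ j, x j * tf ρ s (w j) u -
          x i * (ball (w i) ρ).indicator (fun _ => (1 : ℝ)) u := by
        show ∑ j, x j * (tf ρ s (w j) u - if j = i then
          (ball (w i) ρ).indicator (fun _ => (1 : ℝ)) u else 0) = _
        simp only [mul_sub, Finset.sum_sub_distrib, mul_ite, mul_zero]
        rw [Finset.sum_ite_eq' Finset.univ i]
        simp
      have h2 : (ball (w i) ρ).indicator (fun _ => x i) u =
          x i * (ball (w i) ρ).indicator (fun _ => (1 : ℝ)) u := by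
        by_cases hu : u ∈ ball (w i) ρ
        · rw [indicator_of_mem hu, indicator_of_mem hu, mul_one]
        · rw [indicator_of_notMem hu, indicator_of_notMem hu, mul_zero]
      rw [h1, h2]
      ring
    have hAu : ∀ u ∈ ball (w i) ρ, A ≤ inner ℝ (u : En q) y := by
      intro u hu
      have h0 : (1 : ℝ) ≤ inner ℝ (w i : En q) (w i : En q) := by
        rw [real_inner_self_eq_norm_sq, norm_sp]
        norm_num
      have h1 := inner_cap' (mem_ball.1 hu) (norm_sp (w i)) h0
      have h2 := (abs_le.1 (inner_near (u := u) hy)).1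
      have h3 := mul_le_mul_of_nonneg_left h1 hr'0.le
      rw [hA]
      linarith
    have key := tt_lower (x := x i) ht0 hm0 measurableSet_ball hGm y hAu hGb hGB
    rw [hdec]
    refine le_trans ?_ key
    have h1 : κ * Real.exp (t * A) ≤ (sg q).real (ball (w i) ρ) * Real.exp (t * A) :=
      mul_le_mul_of_nonneg_right (hκ i (Finset.mem_univ i)) (Real.exp_pos _).le
    have h2 := mul_le_mul_of_nonneg_left h1 (abs_nonneg (x i))
    have h3 := mul_le_mul_of_nonneg_left hLt (abs_nonneg (x i))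
    rw [← hS]
    linarith
  have hsub : ball (r' • (w i : En q)) ε ⊆ ball (0 : En q) r := by
    refine ball_subset_ball' ?_
    rw [dist_zero_right, norm_smul, norm_sp, mul_one, Real.norm_eq_abs, abs_of_pos hr'0]
    rw [hr'] at hεr ⊢
    linarith
  have h1 := ball_lower ht0 hFm hFb (r' • (w i : En q)) (by positivity) hsub hlow
  have h2 : (volume : Measure (En q)).real (ball (r' • (w i : En q)) ε) = vol := by
    rw [hvol, Measure.real, Measure.real, Measure.addHaar_ball_center]
  rw [h2] at h1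
  have h3 : ∫ u, (∑ j, x j * tf ρ s (w j) u) ^ 2 ∂(sg q) ≤ (2 * m * |x i|) ^ 2 * S := by
    rw [hS]
    refine (le_abs_self _).trans ?_
    rw [← Real.norm_eq_abs]
    refine norm_integral_le_of_norm_le_const (Eventually.of_forall fun u => ?_)
    rw [Real.norm_eq_abs, abs_pow]
    exact pow_le_pow_left₀ (abs_nonneg _) (hFb u) 2
  have h4 : (2 * m * |x i|) ^ 2 * S < c * (vol * (|x i| * L0) ^ 2) := by
    have h5 := mul_lt_mul_of_pos_right hL2 (pow_pos hxi 2)
    have e1 : (2 * m * |x i|) ^ 2 * S = (2 * m) ^ 2 * S * |x i| ^ 2 := by ring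
    have e2 : c * (vol * (|x i| * L0) ^ 2) = c * vol * L0 ^ 2 * |x i| ^ 2 := by ring
    rw [e1, e2]
    exact h5
  calc _ ≤ (2 * m * |x i|) ^ 2 * S := h3
    _ < c * (vol * (|x i| * L0) ^ 2) := h4
    _ ≤ _ := mul_le_mul_of_nonneg_left h1 hc.le

end Pool.Agent.Work.MP_f2af60_mp.Ev
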