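import Pool.Agent.Work.MP_f2af60_mp.Ev.Final
import Pool.Agent.Work.MP_f2af60_mp.Ev.Born
import Pool.Agent.Work.MP_f2af60_mp.Ev.Mean
import Pool.Agent.Work.MP_f2af60_mp.Ev.Form
import Pool.Agent.Work.MP_f2af60_mp.Ev.Idx2
import Pool.Agent.Work.MP_f2af60_mp.Ev.Test2
import Pool.Agent.Work.MP_f2af60_mp.Ev.Shell0
import Pool.Agent.Work.MP_f2af60_mp.Ev.Shell

/-!
# MP_f2af60_mp, project Ev: assembly of the second part (potentials with a shell)
-/

set_option autoImplicit false

namespace Pool.Agent.Work.MP_f2af60_mp.Ev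

open MeasureTheory Metric Filter Topology Set

theorem e_born : StBorn := I_Born f_hh
theorem e_mean : StMean := I_Mean
theorem e_form : StForm := I_Form e_born e_mean f_hh
theorem e_idx2 : StIdx2 := I_Idx2 e_idx
theorem e_test2 : StTest2 := I_Test2
theorem e_shell0 : StShell0 := I_Shell0 e_pack e_sym e_kcont e_res e_opk e_idx2 e_form e_test2
theorem e_shell : StShell := I_Shell e_shell0 e_trans

/-- Potentials with a shell of definite sign around the region where the sign is arbitrary have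
poles on the negative imaginary axis. -/
theorem shell_poles {q : ℕ} (hq : 1 ≤ q) (V : En q → ℝ) (hV : MemLp V ⊤ volume) (R : ℝ)
    (hsupp : ∀ᵐ x, R < ‖x‖ → V x = 0) (Om : Set (En q)) (δ c ε : ℝ) (hS : Shell q V Om δ c ε)
    (T : ℝ) : ∃ t > T, PQ.IsPole V (-(Complex.I * (t : ℂ))) := by
  obtain ⟨W, M, hWm, hWM, hWR, hVW⟩ := exists_rep_odd V hV R hsupp
  have hS' : Shell q W Om δ c ε := by
    obtain ⟨h1, h2, h3, h4, h5, h6, h7⟩ := hS
    refine ⟨h1, h2, h3, h4, h5, ?_, ?_⟩
    · filter_upwards [h6, hVW] with x hx hxW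
      rw [← hxW]; exact hx
    · filter_upwards [h7, hVW] with x hx hxW
      rw [← hxW]; exact hx
  have hR' : ∀ x, |R| + 1 < ‖x‖ → W x = 0 := fun x hx =>
    hWR x (by have := le_abs_self R; linarith)
  obtain ⟨t, ht, hres⟩ := e_shell q hq W (|R| + 1) M ⟨by positivity, hWm, hWM, hR'⟩ Om δ c ε hS' T
  exact ⟨t, ht, gp_isPole_congr V W hVW _ (gp_isPole hq W hWm M (|R| + 1) hWM hR' _ hres)⟩

end Pool.Agent.Work.MP_f2af60_mp.Ev
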