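import Pool.Agent.Work.MP_f2af60_mp.GStmts

/-!
# MP_f2af60_mp, project Ev: every even potential has infinitely many resonances on the negative
imaginary axis (all odd dimensions `n = 2 q + 3 ≥ 5`).  Definitions and statements of the items.
Proof: note 1861.
-/

set_option autoImplicit false

namespace Pool.Agent.Work.MP_f2af60_mp.Ev

open MeasureTheory Metric Filter Topology Set

/-! ## Definitions -/

/-- the unit sphere -/
abbrev Sp (q : ℕ) := sphere (0 : En q) 1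

/-- surface measure on the unit sphere -/
noncomputable def sg (q : ℕ) : Measure (Sp q) := (volume : Measure (En q)).toSphere

instance (q : ℕ) : IsFiniteMeasure (sg q) := by unfold sg; infer_instance

/-- the constant `τ^(n-2) / (2 (2π)^(n-1))` -/
noncomputable def kp (q : ℕ) (t : ℝ) : ℝ := t ^ (2 * q + 1) / (2 * (2 * Real.pi) ^ (2 * q + 2))

/-- the exponential `e^(t ω.x)` -/
noncomputable def ex {q : ℕ} (t : ℝ) (w : Sp q) (x : En q) : ℝ :=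
  Real.exp (t * inner ℝ (w : En q) x)

/-- the closed ball -/
abbrev Kb (q : ℕ) (R : ℝ) := closedBall (0 : En q) R

/-- bounded measurable potentials supported in the ball of radius `R` -/
structure Pot (q : ℕ) (V : En q → ℝ) (R M : ℝ) : Prop where
  hR : 0 < R
  meas : Measurable V
  bdd : ∀ x, |V x| ≤ M
  supp : ∀ x, R < ‖x‖ → V x = 0

/-- the distorted exponentials `g = (1 + G₀ V)⁻¹ e^(t ω.x)` for `t ≥ t0` -/
structure Pack (q : ℕ) (V : En q → ℝ) (R : ℝ) where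
  t0 : ℝ
  C : ℝ
  g : ℝ → Sp q → C(Kb q R, ℝ)
  t0_ge : 1 ≤ t0
  C_nonneg : 0 ≤ C
  eqn : ∀ t ≥ t0, ∀ (w : Sp q) (x : Kb q R),
    g t w x + ∫ y : Kb q R, HH q 0 (t ^ 2) ((x : En q) - y) * V y * g t w y ∂(muQ q R) = ex t w x
  uniq : ∀ t ≥ t0, ∀ u : C(Kb q R, ℝ),
    (∀ x : Kb q R, u x + ∫ y : Kb q R, HH q 0 (t ^ 2) ((x : En q) - y) * V y * u y ∂(muQ q R) = 0) →
    u = 0
  near : ∀ t ≥ t0, ∀ (w : Sp q) (x : Kb q R), |g t w x - ex t w x| ≤ C / t * ex t w x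
  cont : ContinuousOn (fun p : ℝ × Sp q => g p.1 p.2) (Ici t0 ×ˢ univ)

/-- the kernel of `A = T* V (1 + G₀ V)⁻¹ T` -/
noncomputable def aa {q : ℕ} {V : En q → ℝ} {R : ℝ} (P : Pack q V R) (t : ℝ) (w w' : Sp q) : ℝ :=
  ∫ x : Kb q R, V x * ex t w x * P.g t w' x ∂(muQ q R)

/-- the kernel of `s κ A J` -/
noncomputable def kk {q : ℕ} {V : En q → ℝ} {R : ℝ} (P : Pack q V R) (t : ℝ) (w w' : Sp q) : ℝ :=
  (-1) ^ q * kp q t * aa P t w (-w')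

/-- the Laplace transform `H(p) = ∫ V e^(p.x)` -/
noncomputable def LV {q : ℕ} (V : En q → ℝ) (p : En q) : ℝ := ∫ x, V x * Real.exp (inner ℝ p x)

/-! ## The kernel of the difference of the two free resolvents -/

/-- 1: the functions `eb`. -/
def StDq : Prop := ∀ (q : ℕ) (r : ℝ),
  eb q (-(Complex.I * (r : ℂ))) - eb q (Complex.I * (r : ℂ)) =
    (((-1) ^ q * r ^ (2 * q + 1) / ((q.factorial : ℝ) * (4 * Real.pi) ^ (q + 1)) *
      ∫ u in (-1 : ℝ)..1, (1 - u ^ 2) ^ q * Real.exp (r * u) : ℝ) : ℂ)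

/-- 2: the Laplace transform of the surface measure. -/
def StSph : Prop := ∀ (q : ℕ) (z : En q),
  ∫ w : Sp q, Real.exp (inner ℝ (w : En q) z) ∂(sg q) =
    2 * Real.pi ^ (q + 1) / (q.factorial : ℝ) *
      ∫ u in (-1 : ℝ)..1, (1 - u ^ 2) ^ q * Real.exp (‖z‖ * u)

/-- 3: the kernel identity. -/
def StKer : Prop := ∀ (q : ℕ) (t : ℝ), 0 < t → ∀ z : En q, z ≠ 0 →
  GG q (-(Complex.I * (t : ℂ))) z - GG q (Complex.I * (t : ℂ)) z =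
    (((-1) ^ q * kp q t * ∫ w : Sp q, ex t w z ∂(sg q) : ℝ) : ℂ)

/-- 4: the kernel of the physical free resolvent. -/
def StGH : Prop := ∀ (q : ℕ) (t : ℝ), 0 < t → ∀ z : En q, z ≠ 0 →
  GG q (Complex.I * (t : ℂ)) z = (HH q 0 (t ^ 2) z : ℂ)

/-! ## Measure on the sphere -/

/-- 5: antipodal symmetry and lower bound for caps. -/
def StCap : Prop := ∀ q : ℕ,
  MeasurePreserving (fun w : Sp q => -w) (sg q) (sg q) ∧
  ∃ c > 0, ∀ (w : Sp q) (r : ℝ), 0 < r → r ≤ 1 → c * r ^ (2 * q + 3) ≤ (sg q).real (ball w r)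

/-! ## The distorted exponentials -/

/-- 6: conjugated resolvent bound. -/
def StConj : Prop := ∀ (q : ℕ) (R : ℝ), 0 < R → ∃ C, 0 ≤ C ∧ ∀ t ≥ 1, ∀ (w : Sp q) (x : Kb q R),
  Integrable (fun y : Kb q R => HH q 0 (t ^ 2) ((x : En q) - y) * ex t w y) (muQ q R) ∧
  ∫ y : Kb q R, HH q 0 (t ^ 2) ((x : En q) - y) * ex t w y ∂(muQ q R) ≤ C / t * ex t w x

/-- the content of `gp_package` (hypothesis, proved in GPoleFinal) -/
def StGp : Prop := ∀ q : ℕ, 1 ≤ q → ∀ R : ℝ, 0 < R → ∀ V : En q → ℝ, Measurable V → ∀ M : ℝ,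
  (∀ x, |V x| ≤ M) →
  ∃ (O : OpsQ q (muQ q R) (fun x : closedBall (0 : En q) R => V x))
    (h : ℂ → C(closedBall (0 : En q) R × closedBall (0 : En q) R, ℂ)) (s0 : ℝ),
    IsFiniteMeasure (muQ q R) ∧
    (∀ z x y, h z (x, y) = eb q (z * ((dist x y : ℝ) : ℂ))) ∧ Differentiable ℂ h ∧
    0 < s0 ∧ (∀ s ≥ s0, ‖O.Op (h (Complex.I * (s : ℂ)))‖ ≤ 1 / 2)

/-- 7: the package exists. -/
def StPack : Prop := ∀ q : ℕ, 1 ≤ q → ∀ (V : En q → ℝ) (R M : ℝ), Pot q V R M →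
  Nonempty (Pack q V R)

/-- 8: symmetry of the kernel for even potentials. -/
def StSym : Prop := ∀ q : ℕ, 1 ≤ q → ∀ (V : En q → ℝ) (R M : ℝ), Pot q V R M →
  ∀ P : Pack q V R, ∀ t ≥ P.t0,
    (∀ w w', aa P t w w' = aa P t w' w) ∧
    ((∀ x, V (-x) = V x) → (∀ w w', aa P t (-w) (-w') = aa P t w w') ∧
      ∀ w w', kk P t w w' = kk P t w' w)

/-- 9: the kernel depends continuously on `t`. -/
def StKCont : Prop := ∀ q : ℕ, 1 ≤ q → ∀ (V : En q → ℝ) (R M : ℝ), Pot q V R M →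
  ∀ P : Pack q V R, ∃ k : ℝ → C(Sp q × Sp q, ℝ),
    (∀ t ≥ P.t0, ∀ w w', k t (w, w') = kk P t w w') ∧ ContinuousOn k (Ici P.t0)

/-- 10: a kernel vector of `1 + s κ A J` gives a resonance. -/
def StRes : Prop := ∀ q : ℕ, 1 ≤ q → ∀ (V : En q → ℝ) (R M : ℝ), Pot q V R M →
  ∀ P : Pack q V R, ∀ t ≥ P.t0, ∀ f : Lp ℝ 2 (sg q), f ≠ 0 →
    (∀ᵐ w ∂(sg q), f w + ∫ w' : Sp q, kk P t w w' * f w' ∂(sg q) = 0) →
    IsRes q V (-(Complex.I * (t : ℂ)))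

/-! ## Functional analysis -/

/-- 11: kernel operators on `L²`. -/
def StOpK : Prop := ∀ (X : Type) [MetricSpace X] [CompactSpace X] [MeasurableSpace X] [BorelSpace X]
  (μ : Measure X) [IsFiniteMeasure μ],
  ∃ Op : C(X × X, ℝ) →L[ℝ] (Lp ℝ 2 μ →L[ℝ] Lp ℝ 2 μ),
    (∀ (k : C(X × X, ℝ)) (f : Lp ℝ 2 μ), Op k f =ᵐ[μ] fun x => ∫ y, k (x, y) * f y ∂μ) ∧
    (∀ k, IsCompactOperator (Op k)) ∧
    (∀ (k : C(X × X, ℝ)) (f g : Lp ℝ 2 μ),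
      inner ℝ g (Op k f) = ∫ x, g x * ∫ y, k (x, y) * f y ∂μ ∂μ) ∧
    (∀ k : C(X × X, ℝ), (∀ x y, k (x, y) = k (y, x)) → (Op k).IsSymmetric)

/-- 12: the index lemma. -/
def StIdx : Prop := ∀ (H : Type) [NormedAddCommGroup H] [InnerProductSpace ℝ H] [CompleteSpace H]
  (T : ℝ → H →L[ℝ] H) (t0 : ℝ), ContinuousOn T (Ici t0) →
  (∀ t ≥ t0, (T t).IsSymmetric ∧ IsCompactOperator (T t) ∧ ∀ v : H, v + T t v = 0 → v = 0) →
  ∃ N : ℕ, ∀ t ≥ t0, ∀ W : Submodule ℝ H, FiniteDimensional ℝ W →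
    (∀ w ∈ W, w ≠ 0 → inner ℝ w (w + T t w) < 0) → Module.finrank ℝ W ≤ N

/-! ## The direction -/

/-- `e` is a unit vector and `h > 0` is the essential maximum of `e.x` on the support of `V` -/
structure Dir (q : ℕ) (V : En q → ℝ) (e : En q) (h : ℝ) : Prop where
  norm_e : ‖e‖ = 1
  h_pos : 0 < h
  above : ∀ᵐ x, h < inner ℝ e x → V x = 0
  below : ∀ᵐ x, inner ℝ e x < -h → V x = 0
  top : ∀ δ > 0, ¬ ∀ᵐ x, h - δ < inner ℝ e x → V x = 0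

/-- 13: a direction exists. -/
def StDir : Prop := ∀ (q : ℕ) (V : En q → ℝ) (R M : ℝ), Pot q V R M → (∀ x, V (-x) = V x) →
  (¬ V =ᵐ[volume] 0) → ∃ (e : En q) (h : ℝ), Dir q V e h

/-! ## Growth of the determinants -/

/-- 14: Phragmén-Lindelöf. -/
def StPL : Prop := ∀ (X : Type) [MeasurableSpace X] (μ : Measure X) (f : X → ℝ) (S : X → ℝ)
  (B C a z0 : ℝ), Integrable f μ → Measurable S → (∀ x, |S x| ≤ B) →
  (∀ z ≥ z0, |∫ x, f x * Real.exp (z * S x) ∂μ| ≤ C * Real.exp (a * z)) →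
  ∫ x in {x | a < S x}, f x ∂μ = 0

/-- 15: exponentials are total. -/
def StSWE : Prop := ∀ (X : Type) [MeasurableSpace X] (μ : Measure X) (m : ℕ) (f : X → ℝ)
  (s : X → Fin m → ℝ) (B : ℝ), Integrable f μ → Measurable s → (∀ x i, |s x i| ≤ B) →
  (∀ α : Fin m → ℝ, ∫ x, f x * Real.exp (∑ i, α i * s x i) ∂μ = 0) →
  ∀ Φ : (Fin m → ℝ) → ℝ, Continuous Φ → ∫ x, f x * Φ (s x) ∂μ = 0

/-- 16: choice of `p_*`. -/
def StPst : Prop := ∀ (q : ℕ) (V : En q → ℝ) (R M : ℝ), Pot q V R M → ∀ (e : En q) (h : ℝ),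
  Dir q V e h → ∀ δ > 0, ∃ p : En q,
    ∫ x in {x : En q | h - δ < inner ℝ e x}, V x * Real.exp (inner ℝ p x) ≠ 0

/-- the matrix `X_ij = H(p + (2 z + α_i + j) e)` -/
noncomputable def XM {q : ℕ} (V : En q → ℝ) (e p : En q) (m : ℕ) (α : Fin m → ℝ) (z : ℝ) :
    Matrix (Fin m) (Fin m) ℝ :=
  Matrix.of fun i j => LV V (p + (2 * z + α i + ((j : ℕ) : ℝ)) • e)

/-- 17: the determinant as a multiple integral. -/
def StDet : Prop := ∀ (q : ℕ) (V : En q → ℝ) (R M : ℝ), Pot q V R M → ∀ (e p : En q) (m : ℕ)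
  (φ : Fin m → ℝ → ℝ), (∀ i, Continuous (φ i)) →
  Integrable (fun x : Fin m → En q =>
    (∏ i, V (x i) * Real.exp (inner ℝ p (x i)) * φ i (inner ℝ e (x i))) *
      (Matrix.of fun i j : Fin m => Real.exp (((j : ℕ) : ℝ) * inner ℝ e (x i))).det) ∧
  (Matrix.of fun i j : Fin m => ∫ x : En q, V x * Real.exp (inner ℝ p x) *
      (φ i (inner ℝ e x) * Real.exp (((j : ℕ) : ℝ) * inner ℝ e x))).det =
    ∫ x : Fin m → En q,
      (∏ i, V (x i) * Real.exp (inner ℝ p (x i)) * φ i (inner ℝ e (x i))) *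
      (Matrix.of fun i j : Fin m => Real.exp (((j : ℕ) : ℝ) * inner ℝ e (x i))).det

/-- 18: if all the weighted determinants vanish above `h - δ` then `∫ V e^(p.x) = 0` there. -/
def StNu : Prop := ∀ (q : ℕ) (V : En q → ℝ) (R M : ℝ), Pot q V R M → ∀ (e p : En q) (m : ℕ)
  (a : ℝ), e ≠ 0 → 1 ≤ m →
  (∀ φ : Fin m → ℝ → ℝ, (∀ i, Continuous (φ i)) → (∀ i s, s ≤ a → φ i s = 0) →
    (Matrix.of fun i j : Fin m => ∫ x : En q, V x * Real.exp (inner ℝ p x) *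
      (φ i (inner ℝ e x) * Real.exp (((j : ℕ) : ℝ) * inner ℝ e x))).det = 0) →
  ∫ x in {x : En q | a < inner ℝ e x}, V x * Real.exp (inner ℝ p x) = 0

/-- 19: growth of the determinants. -/
def StGrow : Prop := ∀ (q : ℕ) (V : En q → ℝ) (R M : ℝ), Pot q V R M → ∀ (e : En q) (h : ℝ),
  Dir q V e h → ∀ m : ℕ, 1 ≤ m → ∀ δ > 0, ∃ (p : En q) (α : Fin m → ℝ), ∀ z0 : ℝ, ∃ z ≥ z0,
    Real.exp (2 * z * (m * (h - δ))) ≤ |(XM V e p m α z).det|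

/-! ## The window -/

/-- 20: geometry of the window. -/
def StWin : Prop := ∀ (q : ℕ) (e p : En q), ‖e‖ = 1 → ∃ w0 : Sp q,
  inner ℝ (w0 : En q) e = 0 ∧ inner ℝ (w0 : En q) p = 0 ∧
  ∀ v : En q, inner ℝ (w0 : En q) v = 0 → ∀ t > 0, ∃ w : Sp q,
    ‖t • (w : En q) - (t • (w0 : En q) + v)‖ ≤ ‖v‖ ^ 2 / (2 * t)

/-- 21: the kernel in the window. -/
def StKest : Prop := ∀ q : ℕ, ∀ (V : En q → ℝ) (R M : ℝ), Pot q V R M →
  ∀ P : Pack q V R, ∃ C, 0 ≤ C ∧ ∀ t ≥ P.t0, ∀ (w w' : Sp q) (v : En q) (η : ℝ),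
    ‖t • (w : En q) - t • (w' : En q) - v‖ ≤ η → R * η ≤ 1 →
    |aa P t w (-w') - LV V v| ≤ (C / t + C * η) * ∫ x, |V x| * Real.exp (inner ℝ v x)

/-- 22: size of `H` in the direction `e`. -/
def StLV : Prop := ∀ (q : ℕ) (V : En q → ℝ) (R M : ℝ), Pot q V R M → ∀ (e : En q) (h : ℝ),
  Dir q V e h → ∀ (p : En q) (A : ℝ), ∃ C > 0, ∀ a : ℝ, |a| ≤ A → ∀ z ≥ 0,
    ∫ x, |V x| * Real.exp (inner ℝ (p + (2 * z + a) • e) x) ≤ C * Real.exp (2 * z * h) ∧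
    |LV V (p + (2 * z + a) • e)| ≤ C * Real.exp (2 * z * h)

/-- 23: lower bound for a matrix in terms of its determinant. -/
def StMat : Prop := ∀ (m : ℕ), ∃ C > 0, ∀ (X : Matrix (Fin m) (Fin m) ℝ) (L : ℝ), 0 ≤ L →
  (∀ i j, |X i j| ≤ L) → ∀ x : Fin m → ℝ,
    X.det ^ 2 * ∑ i, x i ^ 2 ≤ C * L ^ (2 * m - 2) * ∑ j, (∑ i, X i j * x i) ^ 2

/-- 24: the quadratic form is negative on a space of dimension `m`. -/
def StNeg : Prop := ∀ q : ℕ, 1 ≤ q → ∀ (V : En q → ℝ) (R M : ℝ), Pot q V R M →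
  (∀ x, V (-x) = V x) → (¬ V =ᵐ[volume] 0) → ∀ P : Pack q V R, ∀ m : ℕ, 1 ≤ m → ∀ T : ℝ,
  ∃ t ≥ T, P.t0 ≤ t ∧ ∃ f : Fin m → Sp q → ℝ, (∀ i, Measurable (f i)) ∧
    (∀ i, ∃ B, ∀ w, |f i w| ≤ B) ∧ ∀ x : Fin m → ℝ, x ≠ 0 →
    ∫ w, (∑ i, x i * f i w) ^ 2 ∂(sg q) +
      ∫ w, (∑ i, x i * f i w) * ∫ w', kk P t w w' * (∑ i, x i * f i w') ∂(sg q) ∂(sg q) < 0

/-- 25: purely imaginary resonances of even potentials. -/
def StMain : Prop := ∀ q : ℕ, 1 ≤ q → ∀ (V : En q → ℝ) (R M : ℝ), Pot q V R M →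
  (∀ x, V (-x) = V x) → (¬ V =ᵐ[volume] 0) → ∀ T : ℝ, ∃ t > T, IsRes q V (-(Complex.I * (t : ℂ)))

/-- 26: translations. -/
def StTrans : Prop := ∀ (q : ℕ) (V : En q → ℝ) (c : En q) (l : ℂ),
  IsRes q (fun x => V (x + c)) l → IsRes q V l

end Pool.Agent.Work.MP_f2af60_mp.Ev
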