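import Pool.Agent.Work.MP_f2af60_mp.Ev.Stmts

/-!
# MP_f2af60_mp, project Ev, second part: potentials with a positive shell around the negative part
(no symmetry).
-/

set_option autoImplicit false

namespace Pool.Agent.Work.MP_f2af60_mp.Ev

open MeasureTheory Metric Filter Topology Set

/-- `T f (x) = ∫ e^(t ω.x) f(ω) dω` -/
noncomputable def TT {q : ℕ} (t : ℝ) (f : Sp q → ℝ) (x : En q) : ℝ :=
  ∫ w : Sp q, ex t w x * f w ∂(sg q)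

/-- the open collar of `Ω` -/
def Coll {q : ℕ} (Om : Set (En q)) (δ : ℝ) : Set (En q) := {x | 0 < infDist x Om ∧ infDist x Om < δ}

/-- the shell hypothesis, `ε = 1` or `ε = -1` -/
structure Shell (q : ℕ) (V : En q → ℝ) (Om : Set (En q)) (δ c ε : ℝ) : Prop where
  sgn : ε = 1 ∨ ε = -1
  cpt : IsCompact Om
  ne : Om.Nonempty
  δ_pos : 0 < δ
  c_pos : 0 < c
  off : ∀ᵐ x, x ∉ Om → 0 ≤ ε * V x
  coll : ∀ᵐ x, x ∈ Coll Om δ → c ≤ ε * V x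

/-- S1: the Born approximation in quadratic form. -/
def StBorn : Prop := ∀ q : ℕ, ∀ (V : En q → ℝ) (R M : ℝ), Pot q V R M → ∃ C t1 : ℝ, 0 ≤ C ∧ 1 ≤ t1 ∧
  ∀ t ≥ t1, ∀ u g : C(Kb q R, ℝ),
    (∀ x : Kb q R, g x + ∫ y : Kb q R, HH q 0 (t ^ 2) ((x : En q) - y) * V y * g y ∂(muQ q R) =
      u x) →
    |∫ x : Kb q R, V x * u x * g x ∂(muQ q R) - ∫ x : Kb q R, V x * u x ^ 2 ∂(muQ q R)| ≤
      C / t ^ 2 * ∫ x : Kb q R, |V x| * u x ^ 2 ∂(muQ q R)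

/-- S2: the mean value inequality for solutions of `Δ u = t² u`. -/
def StMean : Prop := ∀ (q : ℕ) (Om : Set (En q)) (δ : ℝ), IsCompact Om → Om.Nonempty → 0 < δ →
  ∀ ε > 0, ∃ t1 : ℝ, ∀ t ≥ t1, ∀ f : Sp q → ℝ, Integrable f (sg q) →
    ∫ x in Om, (TT t f x) ^ 2 ≤ ε * ∫ x in Coll Om δ, (TT t f x) ^ 2

/-- S3: lower bound for the form of `A`. -/
def StForm : Prop := ∀ q : ℕ, 1 ≤ q → ∀ (V : En q → ℝ) (R M : ℝ), Pot q V R M →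
  ∀ P : Pack q V R, ∀ (Om : Set (En q)) (δ c ε : ℝ), Shell q V Om δ c ε →
  ∃ t1 ≥ P.t0, ∀ t ≥ t1, ∀ f : Lp ℝ 2 (sg q),
    c / 4 * ∫ x in Coll Om δ, (TT t f x) ^ 2 ≤
      ε * ∫ w : Sp q, f w * ∫ w' : Sp q, aa P t w w' * f w' ∂(sg q) ∂(sg q)

/-- S4: the index lemma relative to an involution. -/
def StIdx2 : Prop := ∀ (H : Type) [NormedAddCommGroup H] [InnerProductSpace ℝ H] [CompleteSpace H]
  (J : H →L[ℝ] H) (B : ℝ → H →L[ℝ] H) (t0 : ℝ), J.IsSymmetric → (∀ v, J (J v) = v) →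
  ContinuousOn B (Ici t0) →
  (∀ t ≥ t0, (B t).IsSymmetric ∧ IsCompactOperator (B t) ∧ (∀ v : H, 0 ≤ inner ℝ v (B t v)) ∧
    ∀ v : H, J v + B t v = 0 → v = 0) →
  ∃ N : ℕ, ∀ t ≥ t0, ∀ W : Submodule ℝ H, FiniteDimensional ℝ W → (∀ w ∈ W, J w = -w) →
    (∀ u w : H, J u = u → w ∈ W → w ≠ 0 → 0 < inner ℝ (u + w) (J (u + w) + B t (u + w))) →
    Module.finrank ℝ W ≤ N

/-- S5: test functions of given parity. -/
def StTest2 : Prop := ∀ (q : ℕ) (r c s : ℝ), 0 < r → 0 < c → (s = 1 ∨ s = -1) → ∀ m : ℕ,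
  ∃ (t1 : ℝ) (f : Fin m → Sp q → ℝ), (∀ i, Measurable (f i)) ∧ (∀ i, ∃ B, ∀ w, |f i w| ≤ B) ∧
    (∀ i w, f i (-w) = s * f i w) ∧ ∀ t ≥ t1, ∀ x : Fin m → ℝ, x ≠ 0 →
    ∫ w, (∑ i, x i * f i w) ^ 2 ∂(sg q) <
      c * ∫ y in ball (0 : En q) r, (TT t (fun w => ∑ i, x i * f i w) y) ^ 2

/-- S6: purely imaginary resonances of potentials with a shell, the collar containing `0`. -/
def StShell0 : Prop := ∀ q : ℕ, 1 ≤ q → ∀ (V : En q → ℝ) (R M : ℝ), Pot q V R M →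
  ∀ (Om : Set (En q)) (δ c ε : ℝ), Shell q V Om δ c ε → 0 ∈ Coll Om δ →
  ∀ T : ℝ, ∃ t > T, IsRes q V (-(Complex.I * (t : ℂ)))

/-- S7: purely imaginary resonances of potentials with a shell. -/
def StShell : Prop := ∀ q : ℕ, 1 ≤ q → ∀ (V : En q → ℝ) (R M : ℝ), Pot q V R M →
  ∀ (Om : Set (En q)) (δ c ε : ℝ), Shell q V Om δ c ε →
  ∀ T : ℝ, ∃ t > T, IsRes q V (-(Complex.I * (t : ℂ)))

end Pool.Agent.Work.MP_f2af60_mp.Ev
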